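import Mathlib.Analysis.CStarAlgebra.ContinuousFunctionalCalculus.Commute
import Mathlib.Analysis.CStarAlgebra.ContinuousFunctionalCalculus.Order
import Mathlib.Analysis.CStarAlgebra.Unitary.Connected
import Mathlib.Analysis.CStarAlgebra.Hom
import Mathlib.Analysis.CStarAlgebra.Matrix
import Mathlib.Analysis.Matrix.Spectrum
import Mathlib.LinearAlgebra.Eigenspace.Minpoly

/-!
Standard perturbation lemmas for projections and unitaries, and facts on complex matrices.
-/

open Filter Topology

namespace Pool.Agent.Work.MP_501a10_an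

section CStar

variable {B B' : Type} [CStarAlgebra B] [CStarAlgebra B']

/-- The unitary part of an invertible element. -/
theorem polar {z : B} (hz : IsUnit z) :
    ∃ s : B, z * s ∈ unitary B ∧ (∀ p, Commute (star z * z) p → Commute s p) ∧
      ∀ δ : ℝ, ‖star z * z - 1‖ ≤ δ → ‖z * s - z‖ ≤ δ := by
  set a := star z * z with ha
  have hsa : IsSelfAdjoint a := IsSelfAdjoint.star_mul_self z
  have hpos : ∀ t ∈ spectrum ℝ a, 0 < t := by
    intro t ht
    refine lt_of_le_of_ne (spectrum_star_mul_self_nonneg t ht) ?_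
    rintro rfl
    exact (spectrum.zero_notMem_iff ℝ).2 (hz.star.mul hz) ht
  have hc : ContinuousOn (fun t : ℝ => (√t)⁻¹) (spectrum ℝ a) :=
    ContinuousOn.inv₀ (by fun_prop) fun t ht => (Real.sqrt_pos.2 (hpos t ht)).ne'
  set s := cfc (fun t : ℝ => (√t)⁻¹) a with hs
  have hss : IsSelfAdjoint s := cfc_predicate _ _
  have key : ∀ c : ℝ, (s - algebraMap ℝ B c) * a * (s - algebraMap ℝ B c)
      = cfc (fun t : ℝ => (1 - c * √t) ^ 2) a := by
    intro c
    have e1 : s - algebraMap ℝ B c = cfc (fun t : ℝ => (√t)⁻¹ - c) a := by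
      rw [cfc_sub _ _ a hc, cfc_const c a]
    have hc' : ContinuousOn (fun t : ℝ => (√t)⁻¹ - c) (spectrum ℝ a) := hc.sub continuousOn_const
    have e2 : a = cfc (fun t : ℝ => t) a := (cfc_id' ℝ a).symm
    have e3 := cfc_mul (fun t : ℝ => (√t)⁻¹ - c) (fun t => t) a hc'
    rw [← e2] at e3
    rw [e1, ← e3, ← cfc_mul (fun t : ℝ => ((√t)⁻¹ - c) * t) _ a (hc'.mul continuousOn_id) hc']
    refine cfc_congr fun t ht => ?_
    have h := Real.sqrt_pos.2 (hpos t ht)
    have h2 := Real.mul_self_sqrt (hpos t ht).le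
    change ((√t)⁻¹ - c) * t * ((√t)⁻¹ - c) = (1 - c * √t) ^ 2
    set r := √t
    rw [← h2]
    field_simp
  have h1 : star (z * s) * (z * s) = 1 := by
    have := key 0
    simp only [map_zero, sub_zero, zero_mul, one_pow] at this
    rw [cfc_const_one ℝ a] at this
    rw [star_mul, hss.star_eq, ← this, ha]
    simp only [mul_assoc]
  have hsu : IsUnit s := by
    refine (isUnit_cfc_iff _ a hc).2 fun t ht => ?_
    exact inv_ne_zero (Real.sqrt_pos.2 (hpos t ht)).ne'
  refine ⟨s, ⟨h1, ?_⟩, fun p hp => hp.cfc_real _, fun δ hδ => ?_⟩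
  · obtain ⟨u, hu⟩ := hz.mul hsu
    rw [← hu] at h1 ⊢
    have : star (u : B) = ↑u⁻¹ := Units.eq_inv_of_mul_eq_one_right h1
    rw [this, Units.mul_inv]
  · have hδ0 : 0 ≤ δ := (norm_nonneg _).trans hδ
    have e : star (z * s - z) * (z * s - z) = cfc (fun t : ℝ => (1 - 1 * √t) ^ 2) a := by
      rw [← key 1, map_one, star_sub, star_mul, hss.star_eq, ha]
      noncomm_ring
    have h2 : ‖z * s - z‖ * ‖z * s - z‖ ≤ δ * δ := by
      rw [← CStarRing.norm_star_mul_self, e]
      refine norm_cfc_le (by positivity) fun t ht => ?_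
      have h3 : ‖t - 1‖ ≤ δ := by
        refine le_trans ?_ hδ
        have := norm_apply_le_norm_cfc (fun t : ℝ => t - 1) a ht
        rwa [cfc_sub _ _ a, cfc_id' ℝ a, cfc_const_one ℝ a] at this
      have h := Real.sqrt_nonneg t
      have h4 := Real.mul_self_sqrt (hpos t ht).le
      rw [Real.norm_eq_abs] at h3 ⊢
      rw [abs_of_nonneg (sq_nonneg _)]
      have h5 : (t - 1) ^ 2 ≤ δ * δ := by
        rw [← sq_abs, ← sq]; gcongr
      set r := √t
      rw [← h4] at h5
      nlinarith [sq_nonneg (1 - r), mul_nonneg h (sq_nonneg (1 - r)),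
        mul_nonneg (mul_nonneg h h) (sq_nonneg (1 - r))]
    exact (abs_le_of_sq_le_sq' (by nlinarith) hδ0).2

theorem isUnit_of_norm_sub_one {x : B} (h : ‖x - 1‖ < 1) : IsUnit x := by
  have := (Units.oneSub (1 - x) (by rwa [norm_sub_rev])).isUnit
  simpa using this

/-- Close projections are unitarily equivalent. -/
theorem close_proj {p q : B} (hp : IsStarProjection p) (hq : IsStarProjection q)
    (h : ‖p - q‖ < 1) : ∃ u ∈ unitary B, u * p = q * u := by
  have pp := hp.isIdempotentElem.eq
  have qq := hq.isIdempotentElem.eq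
  set z := 1 + (2 * q - 1) * (p - q) with hz
  have hw : ‖2 * q - 1‖ ≤ 1 := by
    have e : star (2 * q - 1) * (2 * q - 1) = 1 := by
      rw [star_sub, star_mul, star_one, hq.isSelfAdjoint.star_eq, star_ofNat]
      linear_combination (norm := noncomm_ring) 4 * qq
    have h1 := CStarRing.norm_star_mul_self (x := 2 * q - 1)
    rw [e] at h1
    have h2 : ‖(1 : B)‖ ≤ 1 := IsStarProjection.norm_le _ (.one B)
    nlinarith [norm_nonneg (2 * q - 1)]
  have hu : IsUnit z := isUnit_of_norm_sub_one (by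
    rw [hz, add_sub_cancel_left]
    refine lt_of_le_of_lt (norm_mul_le _ _) ?_
    nlinarith [norm_nonneg (p - q), norm_nonneg (2 * q - 1)])
  have e1 : z * p = q * z := by
    rw [hz]
    linear_combination (norm := noncomm_ring) (2 * q - 1) * pp - qq * (4 * p) + 2 * qq * q + qq
  have e2 : p * star z = star z * q := by
    have := congrArg star e1
    rwa [star_mul, star_mul, hp.isSelfAdjoint.star_eq, hq.isSelfAdjoint.star_eq] at this
  obtain ⟨s, hs, hc, -⟩ := polar hu
  refine ⟨z * s, hs, ?_⟩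
  have := hc p (by
    change star z * z * p = p * (star z * z)
    rw [mul_assoc, e1, ← mul_assoc, ← mul_assoc, e2])
  rw [mul_assoc, this.eq, ← mul_assoc, e1, mul_assoc]

/-- A projection close to the range of an injective map is close to a projection in it. -/
theorem proj_near (π : B' →⋆ₐ[ℂ] B) (hπ : Function.Injective π) {p : B}
    (hp : IsStarProjection p) {x : B'} (h : ‖π x - p‖ ≤ 1 / 20) :
    ∃ q : B', IsStarProjection q ∧ ‖p - π q‖ < 1 := by
  set a : B' := (1 / 2 : ℂ) • (x + star x) with ha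
  have hsa : IsSelfAdjoint a := by
    rw [IsSelfAdjoint, ha, star_smul, star_add, star_star, add_comm]
    simp
  have h1 : ‖π a - p‖ ≤ 1 / 20 := by
    have e : π a - p = (1 / 2 : ℂ) • ((π x - p) + star (π x - p)) := by
      rw [ha, map_smul, map_add, map_star, star_sub, hp.isSelfAdjoint.star_eq]
      module
    rw [e, norm_smul]
    have := norm_add_le (π x - p) (star (π x - p))
    rw [norm_star] at this
    simp only [one_div, norm_inv, Complex.norm_ofNat] at this ⊢
    linarith
  have h2 : ‖a * a - a‖ ≤ 1 / 5 := by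
    rw [← NonUnitalStarAlgHom.norm_map π hπ, map_sub, map_mul]
    have pp := hp.isIdempotentElem.eq
    have e : π a * π a - π a
        = (π a - p) * (π a - p) + (π a - p) * p + p * (π a - p) - (π a - p) := by
      linear_combination (norm := noncomm_ring) pp
    have hp1 := hp.norm_le
    have n0 := norm_nonneg (π a - p)
    have n1 := norm_mul_le (π a - p) (π a - p)
    have n2 := norm_mul_le (π a - p) p
    have n3 := norm_mul_le p (π a - p)
    have n4 := norm_sub_le ((π a - p) * (π a - p) + (π a - p) * p + p * (π a - p)) (π a - p)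
    have n5 := norm_add₃_le (a := (π a - p) * (π a - p)) (b := (π a - p) * p) (c := p * (π a - p))
    rw [e]
    nlinarith [norm_nonneg p]
  have h3 : ∀ t ∈ spectrum ℝ a, |t * t - t| ≤ 1 / 5 := by
    intro t ht
    have := norm_apply_le_norm_cfc (fun t : ℝ => t * t - t) a ht
    rw [cfc_sub _ _ a, cfc_mul _ _ a, cfc_id' ℝ a] at this
    exact this.trans h2
  let f : ℝ → ℝ := fun t => max 0 (min 1 (5 * t - 2))
  have hf : Continuous f := by fun_prop
  have h4 : ∀ t ∈ spectrum ℝ a, (f t = 0 ∧ |t| ≤ 1 / 2) ∨ (f t = 1 ∧ |1 - t| ≤ 1 / 2) := by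
    intro t ht
    have := abs_le.1 (h3 t ht)
    rcases le_total t (1 / 2) with h | h
    · have : t ≤ 2 / 5 := by nlinarith
      refine Or.inl ⟨max_eq_left (min_le_of_right_le (by linarith)), abs_le.2 ⟨?_, h⟩⟩
      nlinarith
    · have : 3 / 5 ≤ t := by nlinarith
      refine Or.inr ⟨?_, abs_le.2 ⟨?_, by linarith⟩⟩
      · simp only [f]
        rw [min_eq_left (by linarith), max_eq_right zero_le_one]
      · nlinarith
  refine ⟨cfc f a, ⟨?_, cfc_predicate _ _⟩, ?_⟩
  · change cfc f a * cfc f a = cfc f a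
    rw [← cfc_mul f f a]
    refine cfc_congr fun t ht => ?_
    rcases h4 t ht with h | h <;> simp [h.1]
  · have h5 : ‖cfc f a - a‖ ≤ 1 / 2 := by
      have : cfc f a - a = cfc (fun t => f t - t) a := by rw [cfc_sub _ _ a, cfc_id' ℝ a]
      rw [this]
      refine norm_cfc_le (by norm_num) fun t ht => ?_
      rcases h4 t ht with h | h
      · simpa [h.1] using h.2
      · simpa [h.1] using h.2
    have e : p - π (cfc f a) = -(π a - p) - π (cfc f a - a) := by rw [map_sub]; abel
    rw [e]
    refine lt_of_le_of_lt (norm_sub_le _ _) ?_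
    rw [norm_neg, NonUnitalStarAlgHom.norm_map π hπ]
    linarith

/-- A unitary close to the range of an injective map is joined to a unitary in it. -/
theorem unitary_near (π : B' →⋆ₐ[ℂ] B) (hπ : Function.Injective π) (u : unitary B)
    {x : B'} (h : ‖π x - u‖ ≤ 1 / 4) : ∃ v ∈ unitary B', ‖π v - u‖ < 2 := by
  have hu : ‖(u : B)‖ ≤ 1 := by
    have h1 := CStarRing.norm_star_mul_self (x := (u : B))
    rw [u.2.1] at h1
    have h2 : ‖(1 : B)‖ ≤ 1 := IsStarProjection.norm_le _ (.one B)
    nlinarith [norm_nonneg (u : B)]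
  have n0 := norm_nonneg (π x - u)
  have key : ∀ (a b c d : B), c * d = 1 → ‖a - c‖ ≤ 1 / 4 → ‖b - d‖ ≤ 1 / 4 → ‖c‖ ≤ 1 →
      ‖d‖ ≤ 1 → ‖a * b - 1‖ ≤ 3 / 4 := by
    intro a b c d hcd h1 h2 h3 h4
    have e : a * b - 1 = (a - c) * (b - d) + (a - c) * d + c * (b - d) := by
      rw [← hcd]; noncomm_ring
    have n1 := norm_mul_le (a - c) (b - d)
    have n2 := norm_mul_le (a - c) d
    have n3 := norm_mul_le c (b - d)
    have n5 := norm_add₃_le (a := (a - c) * (b - d)) (b := (a - c) * d) (c := c * (b - d))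
    rw [e]
    nlinarith [norm_nonneg (a - c), norm_nonneg (b - d), norm_nonneg c, norm_nonneg d]
  have hs : ‖star (π x) - star (u : B)‖ ≤ 1 / 4 := by rwa [← star_sub, norm_star]
  have h1 : ‖star x * x - 1‖ ≤ 3 / 4 := by
    rw [← NonUnitalStarAlgHom.norm_map π hπ, map_sub, map_mul, map_star, map_one]
    exact key _ _ _ _ u.2.1 hs h (by rwa [norm_star]) hu
  have h2 : ‖x * star x - 1‖ ≤ 3 / 4 := by
    rw [← NonUnitalStarAlgHom.norm_map π hπ, map_sub, map_mul, map_star, map_one]
    exact key _ _ _ _ u.2.2 h hs hu (by rwa [norm_star])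
  have hx : IsUnit x := by
    obtain ⟨a, ha⟩ := isUnit_of_norm_sub_one (h1.trans_lt (by norm_num))
    obtain ⟨b, hb⟩ := isUnit_of_norm_sub_one (h2.trans_lt (by norm_num))
    refine isUnit_iff_exists_and_exists.2 ⟨⟨star x * ↑b⁻¹, ?_⟩, ⟨↑a⁻¹ * star x, ?_⟩⟩
    · rw [← mul_assoc, ← hb, Units.mul_inv]
    · rw [mul_assoc, ← ha, Units.inv_mul]
  obtain ⟨s, hs, -, hn⟩ := polar hx
  refine ⟨x * s, hs, ?_⟩
  have e : π (x * s) - u = π (x * s - x) + (π x - u) := by rw [map_sub]; abel
  rw [e]
  refine lt_of_le_of_lt (norm_add_le _ _) ?_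
  rw [NonUnitalStarAlgHom.norm_map π hπ]
  linarith [hn _ h1]

/-- A unitary with finite spectrum is joined to the identity. -/
theorem joined_of_finite (u : unitary B) (h : (spectrum ℂ (u : B)).Finite) : Joined 1 u := by
  have hinf : (Set.range fun θ : ℝ => -Complex.exp (θ * Complex.I)).Infinite := by
    have : Set.InjOn (fun θ : ℝ => -Complex.exp (θ * Complex.I)) (Set.Icc 0 Real.pi) := by
      intro a ha b hb hab
      have := congrArg Complex.re (neg_injective hab)
      rw [Complex.exp_ofReal_mul_I_re, Complex.exp_ofReal_mul_I_re] at this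
      exact Real.injOn_cos ha hb this
    exact ((Set.Icc_infinite Real.pi_pos).image this).mono (Set.image_subset_range _ _)
  obtain ⟨_, ⟨θ, rfl⟩, hθ⟩ := hinf.exists_notMem_finite h
  have hmem : ∀ (t : ℝ) (w : unitary B), Complex.exp (t * Complex.I) • (w : B) ∈ unitary B := by
    intro t w
    have e : star (Complex.exp (t * Complex.I)) * Complex.exp (t * Complex.I) = 1 := by
      rw [Complex.star_def, Complex.conj_mul', Complex.norm_exp_ofReal_mul_I]; simp
    constructor
    · rw [star_smul, smul_mul_smul_comm, e, w.2.1, one_smul]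
    · rw [star_smul, smul_mul_smul_comm, mul_comm, e, w.2.2, one_smul]
  let w : unitary B := ⟨_, hmem (-θ : ℝ) u⟩
  have h1 : Joined 1 w := Unitary.joined _ _ (by
    rw [OneMemClass.coe_one, Unitary.norm_sub_one_lt_two_iff w.2]
    intro hw
    apply hθ
    have e : (u : B) = Complex.exp (θ * Complex.I) • (w : B) := by
      simp [w, smul_smul, ← Complex.exp_add]
    have := (spectrum.smul_mem_smul_iff (a := (w : B)) (s := (-1 : ℂ))
      (r := Units.mk0 _ (Complex.exp_ne_zero (θ * Complex.I)))).2 hw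
    rw [e]
    simpa using this)
  refine h1.trans ⟨⟨⟨fun t => ⟨_, hmem (t * θ : ℝ) w⟩, ?_⟩, ?_, ?_⟩⟩
  · exact Continuous.subtype_mk (by fun_prop) _
  · ext; simp
  · ext; simp [w, smul_smul, ← Complex.exp_add]

/-- The ends of a path of projections are unitarily equivalent. -/
theorem path_proj (q : unitInterval → B) (hq : Continuous q) (h : ∀ t, IsStarProjection (q t))
    (s t : unitInterval) : ∃ u ∈ unitary B, u * q s = q t * u := by
  refine PreconnectedSpace.induction₂' (fun s t => ∃ u ∈ unitary B, u * q s = q t * u)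
    (fun s => ?_) ⟨?_⟩ s t
  · have : ∀ᶠ t in 𝓝 s, ‖q s - q t‖ < 1 := by
      have hc : Continuous fun t => ‖q s - q t‖ := by fun_prop
      exact hc.continuousAt.eventually_lt continuousAt_const (by simp)
    filter_upwards [this] with t ht
    exact ⟨close_proj (h s) (h t) ht, close_proj (h t) (h s) (by rwa [norm_sub_rev])⟩
  · rintro a b c ⟨u, hu, e1⟩ ⟨v, hv, e2⟩
    exact ⟨v * u, mul_mem hv hu, by rw [mul_assoc, e1, ← mul_assoc, e2, mul_assoc]⟩

end CStar

section Mat

open Matrix
open scoped Matrix.Norms.L2Operator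

variable {I J : Type} [Fintype I] [Fintype J] [DecidableEq I] [DecidableEq J]

theorem trace_le_rank {G : Matrix I I ℂ} (hG : G.IsHermitian) {C : ℝ} (hC : ‖G‖ ≤ C) :
    G.trace.re ≤ C * G.rank := by
  classical
  rw [hG.trace_eq_sum_eigenvalues, hG.rank_eq_card_non_zero_eigs, Fintype.card_subtype,
    Complex.re_sum, ← Finset.sum_filter_add_sum_filter_not _ fun i => hG.eigenvalues i ≠ 0,
    Finset.sum_eq_zero (s := Finset.filter (fun i => ¬hG.eigenvalues i ≠ 0) _), add_zero,
    mul_comm, ← nsmul_eq_mul]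
  · refine Finset.sum_le_card_nsmul _ _ _ fun i _ => ?_
    have : Nonempty I := ⟨i⟩
    have h1 : (hG.eigenvalues i : ℂ) ∈ spectrum ℂ G := by
      rw [hG.spectrum_eq_image_range]
      exact ⟨_, ⟨i, rfl⟩, rfl⟩
    exact (Complex.re_le_norm _).trans ((spectrum.norm_le_norm_of_mem h1).trans hC)
  · intro i hi
    have : hG.eigenvalues i = 0 := by simpa using (Finset.mem_filter.1 hi).2
    simp [this]

/-- A projection is `V Vᴴ` for an isometry `V`. -/
theorem proj_factor {p : Matrix I I ℂ} (hp : IsStarProjection p) :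
    ∃ (r : ℕ) (V : Matrix I (Fin r) ℂ), Vᴴ * V = 1 ∧ V * Vᴴ = p ∧ p.trace = r := by
  classical
  have hH : p.IsHermitian := hp.isSelfAdjoint
  have hev : ∀ i, hH.eigenvalues i = 0 ∨ hH.eigenvalues i = 1 := by
    intro i
    have h1 : (hH.eigenvalues i : ℂ) ∈ spectrum ℂ p := by
      rw [hH.spectrum_eq_image_range]
      exact ⟨_, ⟨i, rfl⟩, rfl⟩
    have := hp.isIdempotentElem.spectrum_subset ℂ h1
    simpa using this
  let κ := {i // hH.eigenvalues i = 1}
  let e : Fin (Fintype.card κ) ≃ κ := (Fintype.equivFin κ).symm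
  let U : Matrix I I ℂ := hH.eigenvectorUnitary
  let V : Matrix I (Fin (Fintype.card κ)) ℂ := U.submatrix id fun k => (e k).1
  have h1 : Vᴴ * V = 1 := by
    have : Uᴴ * U = 1 := hH.eigenvectorUnitary.2.1
    rw [conjTranspose_submatrix, ← submatrix_mul _ _ _ id _ Function.bijective_id, this]
    exact submatrix_one _ (Subtype.val_injective.comp e.injective)
  have h2 : V * Vᴴ = p := by
    conv_rhs => rw [hH.spectral_theorem, Unitary.conjStarAlgAut_apply]
    ext a b
    simp only [mul_apply, V, submatrix_apply, conjTranspose_apply, id, diagonal_apply,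
      Function.comp, mul_ite, mul_zero, Finset.sum_ite_eq', Finset.mem_univ, if_true, star_apply]
    rw [e.sum_comp fun k : κ => U a k.1 * star (U b k.1),
      ← Finset.sum_subtype (Finset.univ.filter fun i => hH.eigenvalues i = 1) (by simp)
        fun i => U a i * star (U b i), Finset.sum_filter]
    refine Finset.sum_congr rfl fun i _ => ?_
    rcases hev i with h | h <;> simp [h, U]
  refine ⟨_, V, h1, h2, ?_⟩
  have h3 : (V * Vᴴ).trace = Fintype.card κ := by
    rw [trace_mul_comm, h1]
    simp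
  rwa [h2] at h3

theorem proj_equiv {p : Matrix I I ℂ} {q : Matrix J J ℂ} (hp : IsStarProjection p)
    (hq : IsStarProjection q) (h : p.trace = q.trace) :
    ∃ v : Matrix J I ℂ, vᴴ * v = p ∧ v * vᴴ = q := by
  obtain ⟨r, V, h1, h2, h3⟩ := proj_factor hp
  obtain ⟨r', V', h1', h2', h3'⟩ := proj_factor hq
  obtain rfl : r = r' := by
    rw [h3, h3'] at h
    exact_mod_cast h
  refine ⟨V' * Vᴴ, ?_, ?_⟩
  · rw [conjTranspose_mul, conjTranspose_conjTranspose, Matrix.mul_assoc,
      ← Matrix.mul_assoc V'ᴴ, h1', Matrix.one_mul, h2]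
  · rw [conjTranspose_mul, conjTranspose_conjTranspose, Matrix.mul_assoc,
      ← Matrix.mul_assoc Vᴴ, h1, Matrix.one_mul, h2']

end Mat

end Pool.Agent.Work.MP_501a10_an
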