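import Pool.Agent.Work.MP_501a10_an.Defs
import Mathlib.Data.Matrix.Block

/-!
General facts on the groups `K0` and `K1`.
-/

open Matrix

namespace Pool.Agent.Work.MP_501a10_an

variable {A B : Type} [CStarAlgebra A] [CStarAlgebra B]

theorem dsum_mul {m n : ℕ} (a a' : Matrix (Fin m) (Fin m) A) (b b' : Matrix (Fin n) (Fin n) A) :
    dsum a b * dsum a' b' = dsum (a * a') (b * b') := by
  simp only [dsum, reindex_apply, submatrix_mul_equiv, fromBlocks_multiply]
  simp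

theorem dsum_star {m n : ℕ} (a : Matrix (Fin m) (Fin m) A) (b : Matrix (Fin n) (Fin n) A) :
    star (dsum a b) = dsum (star a) (star b) := by
  simp only [dsum, reindex_apply, star_eq_conjTranspose, conjTranspose_submatrix,
    fromBlocks_conjTranspose, conjTranspose_zero]

theorem dsum_proj (p q : Proj A) : IsStarProjection (dsum p.2.1 q.2.1) :=
  ⟨by rw [IsIdempotentElem, dsum_mul, p.2.2.isIdempotentElem.eq, q.2.2.isIdempotentElem.eq],
    by rw [IsSelfAdjoint, dsum_star, p.2.2.isSelfAdjoint.star_eq, q.2.2.isSelfAdjoint.star_eq]⟩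

theorem K0mk_dsum (p q : Proj A) :
    K0mk ⟨p.1 + q.1, dsum p.2.1 q.2.1, dsum_proj p q⟩ = K0mk p + K0mk q := by
  have h : (QuotientAddGroup.mk (.of ⟨p.1 + q.1, dsum p.2.1 q.2.1, dsum_proj p q⟩ - .of p - .of q) :
      FreeAbelianGroup (Proj A) ⧸ AddSubgroup.closure (K0rel A)) = 0 :=
    (QuotientAddGroup.eq_zero_iff _).2
      (AddSubgroup.subset_closure (Or.inl ⟨p, q, dsum_proj p q, rfl⟩))
  rw [QuotientAddGroup.mk_sub, QuotientAddGroup.mk_sub, sub_sub, sub_eq_zero] at h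
  exact h

theorem K0mk_eq {p q : Proj A} (v : Matrix (Fin q.1) (Fin p.1) A) (hp : vᴴ * v = p.2.1)
    (hq : v * vᴴ = q.2.1) : K0mk p = K0mk q := by
  have h : (QuotientAddGroup.mk (.of p - .of q) :
      FreeAbelianGroup (Proj A) ⧸ AddSubgroup.closure (K0rel A)) = 0 :=
    (QuotientAddGroup.eq_zero_iff _).2
      (AddSubgroup.subset_closure (Or.inr ⟨p, q, v, hp, hq, rfl⟩))
  rw [QuotientAddGroup.mk_sub, sub_eq_zero] at h
  exact h

theorem K0_sub (g : K0 A) : ∃ p q : Proj A, g = K0mk p - K0mk q := by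
  obtain ⟨x, rfl⟩ := QuotientAddGroup.mk_surjective g
  have h0 : K0mk (⟨0, 0, IsStarProjection.zero _⟩ : Proj A) = 0 := by
    have := K0mk_dsum (⟨0, 0, IsStarProjection.zero _⟩ : Proj A) ⟨0, 0, IsStarProjection.zero _⟩
    have e : (⟨0 + 0, dsum (0 : Matrix (Fin 0) (Fin 0) A) (0 : Matrix (Fin 0) (Fin 0) A),
        dsum_proj ⟨0, 0, IsStarProjection.zero _⟩ ⟨0, 0, IsStarProjection.zero _⟩⟩ : Proj A)
        = ⟨0, 0, IsStarProjection.zero _⟩ :=
      congrArg (Sigma.mk 0) (Subtype.ext (by ext i; exact i.elim0))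
    exact left_eq_add.1 (e ▸ this)
  induction x using FreeAbelianGroup.induction_on with
  | zero => exact ⟨⟨0, 0, IsStarProjection.zero _⟩, ⟨0, 0, IsStarProjection.zero _⟩,
      (sub_self _).symm⟩
  | of p => exact ⟨p, ⟨0, 0, IsStarProjection.zero _⟩, by rw [h0, sub_zero]; rfl⟩
  | neg p _ => exact ⟨⟨0, 0, IsStarProjection.zero _⟩, p, by rw [h0, zero_sub]; rfl⟩
  | add x y hx hy =>
    obtain ⟨p, q, h1⟩ := hx
    obtain ⟨p', q', h2⟩ := hy
    refine ⟨⟨_, _, dsum_proj p p'⟩, ⟨_, _, dsum_proj q q'⟩, ?_⟩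
    rw [K0mk_dsum, K0mk_dsum, add_sub_add_comm, ← h1, ← h2]
    rfl

theorem pairing_mk (τ : Tr A) (p : Proj A) : pairing τ (K0mk p) = trM τ p.2.1 :=
  FreeAbelianGroup.lift_apply_of _ _

theorem trM_unitary (τ : Tr A) {n : ℕ} {p q u : Matrix (Fin n) (Fin n) A}
    (hu : star u * u = 1) (hu' : u * star u = 1) (h : u * p = q * u) : trM τ p = trM τ q := by
  have key : ∀ a b : Matrix (Fin n) (Fin n) A, τ.1 (a * b).trace = τ.1 (b * a).trace := by
    intro a b
    simp only [Matrix.trace, Matrix.diag_apply, Matrix.mul_apply, map_sum]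
    rw [Finset.sum_comm]
    exact Finset.sum_congr rfl fun i _ => Finset.sum_congr rfl fun j _ => τ.2.2.2 _ _
  have : τ.1 p.trace = τ.1 q.trace := by
    calc τ.1 p.trace = τ.1 (star u * (u * p)).trace := by rw [← mul_assoc, hu, one_mul]
      _ = τ.1 (q * u * star u).trace := by rw [key, h]
      _ = τ.1 q.trace := by rw [mul_assoc, hu', mul_one]
  rw [trM, this, trM]

theorem K0mk_unitary {n : ℕ} {p q u : Matrix (Fin n) (Fin n) A} (hp : IsStarProjection p)
    (hq : IsStarProjection q) (hu : star u * u = 1) (hu' : u * star u = 1) (h : u * p = q * u) :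
    K0mk ⟨n, p, hp⟩ = K0mk ⟨n, q, hq⟩ := by
  refine K0mk_eq (p := ⟨n, p, hp⟩) (q := ⟨n, q, hq⟩) (u * p) ?_ ?_
  · change star (u * p) * (u * p) = p
    rw [star_mul, hp.isSelfAdjoint.star_eq, mul_assoc, ← mul_assoc (star u), hu, one_mul,
      hp.isIdempotentElem.eq]
  · change u * p * star (u * p) = q
    rw [h, star_mul, hq.isSelfAdjoint.star_eq, mul_assoc, ← mul_assoc u, hu', one_mul,
      hq.isIdempotentElem.eq]

theorem K1_subsingleton (h : ∀ (n : ℕ) (u : unitary (Matrix (Fin n) (Fin n) A)), Joined 1 u) :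
    Subsingleton (K1 A) := by
  have : AddSubgroup.closure (K1rel A) = ⊤ := by
    rw [eq_top_iff]
    rintro x -
    induction x using FreeAbelianGroup.induction_on with
    | zero => exact zero_mem _
    | of u =>
      let o : Uni A := ⟨u.1, 1⟩
      have h1 : FreeAbelianGroup.of u - .of o ∈ AddSubgroup.closure (K1rel A) :=
        AddSubgroup.subset_closure (Or.inl (Or.inr ⟨u.1, u.2, 1, (h _ _).symm, rfl⟩))
      have h2 : FreeAbelianGroup.of o ∈ AddSubgroup.closure (K1rel A) :=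
        AddSubgroup.subset_closure (Or.inr ⟨u.1, rfl⟩)
      have h3 := add_mem h1 h2
      rwa [sub_add_cancel] at h3
    | neg u hu => exact neg_mem hu
    | add x y hx hy => exact add_mem hx hy
  change Subsingleton (FreeAbelianGroup (Uni A) ⧸ AddSubgroup.closure (K1rel A))
  rw [this]
  exact QuotientAddGroup.subsingleton_quotient_top

/-- Two ordered groups embedded with the same positive cone are isomorphic. -/
theorem exists_K0_iso {G : Type} [AddCommGroup G] (κ : K0 A →+ G) (κ' : K0 B →+ G)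
    (hκ : Function.Injective κ) (hκ' : Function.Injective κ')
    (h : κ '' K0pos A = κ' '' K0pos B) :
    ∃ α : K0 A ≃+ K0 B, α '' K0pos A = K0pos B ∧ ∀ g, κ' (α g) = κ g := by
  have hr : κ.range = κ'.range := by
    apply le_antisymm
    · rintro _ ⟨g, rfl⟩
      obtain ⟨p, q, rfl⟩ := K0_sub g
      obtain ⟨a, -, ha⟩ : κ (K0mk p) ∈ κ' '' K0pos B := h ▸ ⟨_, ⟨p, rfl⟩, rfl⟩
      obtain ⟨b, -, hb⟩ : κ (K0mk q) ∈ κ' '' K0pos B := h ▸ ⟨_, ⟨q, rfl⟩, rfl⟩
      exact ⟨a - b, by rw [map_sub, map_sub, ha, hb]⟩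
    · rintro _ ⟨g, rfl⟩
      obtain ⟨p, q, rfl⟩ := K0_sub g
      obtain ⟨a, -, ha⟩ : κ' (K0mk p) ∈ κ '' K0pos A := h ▸ ⟨_, ⟨p, rfl⟩, rfl⟩
      obtain ⟨b, -, hb⟩ : κ' (K0mk q) ∈ κ '' K0pos A := h ▸ ⟨_, ⟨q, rfl⟩, rfl⟩
      exact ⟨a - b, by rw [map_sub, map_sub, ha, hb]⟩
  let α : K0 A ≃+ K0 B := ((AddMonoidHom.ofInjective hκ).trans
    (AddEquiv.addSubgroupCongr hr)).trans (AddMonoidHom.ofInjective hκ').symm
  have hα : ∀ g, κ' (α g) = κ g := fun g =>
    AddMonoidHom.apply_ofInjective_symm hκ' _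
  refine ⟨α, ?_, hα⟩
  apply hκ'.image_injective
  rw [← h, Set.image_image]
  exact Set.image_congr fun g _ => hα g

end Pool.Agent.Work.MP_501a10_an
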