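import Pool.Agent.Work.MP_501a10_an.Traces
import Pool.Agent.Work.MP_501a10_an.KGen
import Mathlib.Topology.ContinuousMap.Units

/-!
K-theory of limits of diagonal systems over spaces with two contractible components.
-/

open Filter Topology Matrix
open scoped Matrix.Norms.L2Operator ComplexOrder

set_option linter.unusedSectionVars false

noncomputable section

namespace Pool.Agent.Work.MP_501a10_an

/-- Spaces with two contractible components. -/
structure Br (Z : ℕ → Type) [∀ n, TopologicalSpace (Z n)] where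
  /-- The component of a point. -/
  br : ∀ n, C(Z n, Bool)
  /-- Base points. -/
  base : ∀ n, Bool → Z n
  br_base : ∀ n β, br n (base n β) = β
  /-- The contraction. -/
  H : ∀ n, C(unitInterval × Z n, Z n)
  H1 : ∀ n z, H n (1, z) = z
  H0 : ∀ n z, H n (0, z) = base n (br n z)

variable {Z : ℕ → Type} [∀ n, TopologicalSpace (Z n)] [∀ n, CompactSpace (Z n)]

namespace Br

variable (b : Br Z)

/-- Functions constant on the components. -/
def cst {M : Type} [TopologicalSpace M] (n : ℕ) (q : Bool → M) : C(Z n, M) :=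
  ⟨fun z => q (b.br n z), (continuous_of_discreteTopology (f := q)).comp (b.br n).2⟩

@[simp] theorem cst_apply {M : Type} [TopologicalSpace M] (n : ℕ) (q : Bool → M) (z : Z n) :
    b.cst n q z = q (b.br n z) := rfl

/-- The normalised sign function. -/
def v (n : ℕ) : C(Z n, ℂ) :=
  b.cst n fun β => (((if β then 1 else -1) * ((n + 2) / (n + 1)) : ℝ) : ℂ)

/-- The deformation of a function along the contraction. -/
def deform {M : Type} [TopologicalSpace M] {n : ℕ} (Q : C(Z n, M)) :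
    C(unitInterval, C(Z n, M)) := (Q.comp (b.H n)).curry

theorem deform_one {M : Type} [TopologicalSpace M] {n : ℕ} (Q : C(Z n, M)) :
    b.deform Q 1 = Q := by
  ext z
  exact congrArg Q (b.H1 n z)

theorem deform_zero {M : Type} [TopologicalSpace M] {n : ℕ} (Q : C(Z n, M)) :
    b.deform Q 0 = b.cst n fun β => Q (b.base n β) := by
  ext z
  exact congrArg Q (b.H0 n z)

end Br

section Pointwise

variable {Y I : Type} [TopologicalSpace Y] [CompactSpace Y] [Fintype I] [DecidableEq I]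

theorem proj_iff {Q : MF Y I I} : IsStarProjection Q ↔ ∀ y, IsStarProjection (Q y) :=
  ⟨fun h y => ⟨congrArg (fun F : MF Y I I => F y) h.isIdempotentElem.eq,
    congrArg (fun F : MF Y I I => F y) h.isSelfAdjoint.star_eq⟩,
  fun h => ⟨ContinuousMap.ext fun y => (h y).isIdempotentElem.eq,
    ContinuousMap.ext fun y => (h y).isSelfAdjoint.star_eq⟩⟩

theorem unitary_iff {Q : MF Y I I} : Q ∈ unitary (MF Y I I) ↔ ∀ y, Q y ∈ unitary _ :=
  ⟨fun h y => ⟨congrArg (fun F : MF Y I I => F y) h.1, congrArg (fun F : MF Y I I => F y) h.2⟩,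
  fun h => ⟨ContinuousMap.ext fun y => (h y).1, ContinuousMap.ext fun y => (h y).2⟩⟩

end Pointwise

theorem map_unitary {B B' : Type} [CStarAlgebra B] [CStarAlgebra B'] (π : B' →⋆ₐ[ℂ] B) {u : B'}
    (hu : u ∈ unitary B') : π u ∈ unitary B :=
  ⟨by rw [← map_star, ← map_mul, hu.1, map_one], by rw [← map_star, ← map_mul, hu.2, map_one]⟩

namespace Lim

variable {S : Sys Z} {A : Type} [CStarAlgebra A] [PartialOrder A] [StarOrderedRing A]
  (Λ : Lim S A) (b : Br Z)

theorem ΨH_approx {N : Type} [Fintype N] [DecidableEq N] (x : CStarMatrix N N A) {ε : ℝ}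
    (hε : 0 < ε) : ∀ᶠ m in atTop, ∃ F, ‖Λ.ΨH N m F - x‖ ≤ ε :=
  (Λ.Ψ_approx (x := x) (U := (Metric.closedBall x ε : Set (CStarMatrix N N A)))
    (Metric.closedBall_mem_nhds (α := CStarMatrix N N A) x hε)).mono
    fun _ ⟨F, hF⟩ => ⟨F, mem_closedBall_iff_norm.1 (hF : Λ.ΨH N _ F ∈ Metric.closedBall x ε)⟩

theorem proj_reduce {N : Type} [Fintype N] [DecidableEq N] {p : Matrix N N A}
    (hp : IsStarProjection p) :
    ∀ᶠ m in atTop, ∃ q : Bool → Matrix (N × Fin (S.k m)) (N × Fin (S.k m)) ℂ,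
      (∀ β, IsStarProjection (q β)) ∧ ∃ u : Matrix N N A, star u * u = 1 ∧ u * star u = 1 ∧
        u * p = Λ.Ψ m (b.cst m q) * u := by
  filter_upwards [Λ.ΨH_approx (CStarMatrix.ofMatrix p) (by norm_num : (0 : ℝ) < 1 / 20)]
  rintro m ⟨F, hF⟩
  have hp' : IsStarProjection (CStarMatrix.ofMatrix p) := hp
  obtain ⟨Q, hQ, hQ'⟩ := proj_near (Λ.ΨH N m) (Λ.ΨH_injective m) hp' hF
  obtain ⟨u₁, hu₁, e₁⟩ := close_proj hp' (hQ.map (Λ.ΨH N m)) hQ'
  obtain ⟨u₂, hu₂, e₂⟩ := path_proj (b.deform Q) (b.deform Q).2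
    (fun t => proj_iff.2 fun z => proj_iff.1 hQ _) 1 0
  rw [b.deform_one, b.deform_zero] at e₂
  have hu := mul_mem (map_unitary (Λ.ΨH N m) hu₂) hu₁
  refine ⟨fun β => Q (b.base m β), fun β => proj_iff.1 hQ _, Λ.ΨH N m u₂ * u₁, hu.1, hu.2, ?_⟩
  change Λ.ΨH N m u₂ * u₁ * CStarMatrix.ofMatrix p
    = Λ.ΨH N m (b.cst m fun β => Q (b.base m β)) * (Λ.ΨH N m u₂ * u₁)
  rw [mul_assoc, e₁, ← mul_assoc, ← map_mul, e₂, map_mul, mul_assoc]

include b in
theorem joined_stage {I : Type} [Fintype I] [DecidableEq I] {m : ℕ} (v : unitary (MF (Z m) I I)) :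
    Joined 1 v := by
  have hd : ∀ t, b.deform v.1 t ∈ unitary (MF (Z m) I I) := fun t =>
    unitary_iff.2 fun z => unitary_iff.1 v.2 _
  have h1 : Joined (1 : unitary (MF (Z m) I I)) ⟨_, hd 0⟩ := by
    refine joined_of_finite _ (((Matrix.finite_spectrum (v.1 (b.base m true))).union
      (Matrix.finite_spectrum (v.1 (b.base m false)))).subset fun c hc => ?_)
    change c ∈ spectrum ℂ (b.deform v.1 0) at hc
    rw [b.deform_zero, spectrum.mem_iff, ContinuousMap.isUnit_iff_forall_isUnit] at hc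
    push Not at hc
    obtain ⟨z, hz⟩ := hc
    have hz' : c ∈ spectrum ℂ (v.1 (b.base m (b.br m z))) := hz
    cases h : b.br m z
    · exact Or.inr (h ▸ hz')
    · exact Or.inl (h ▸ hz')
  have h2 : Joined (⟨_, hd 0⟩ : unitary (MF (Z m) I I)) v :=
    ⟨⟨⟨fun t => ⟨_, hd t⟩, Continuous.subtype_mk (b.deform v.1).2 _⟩, rfl,
      Subtype.ext (b.deform_one v.1)⟩⟩
  exact h1.trans h2

theorem joined_map {B B' : Type} [CStarAlgebra B] [CStarAlgebra B'] (π : B' →⋆ₐ[ℂ] B)
    (hπ : Function.Injective π) (h : ∀ v : unitary B', Joined 1 v) {u : B}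
    (hu : star u * u = 1) (hu' : u * star u = 1) {x : B'} (hx : ‖π x - u‖ ≤ 1 / 4) :
    ∃ γ : unitInterval → B, Continuous γ ∧ γ 0 = 1 ∧ γ 1 = u ∧
      ∀ t, star (γ t) * γ t = 1 ∧ γ t * star (γ t) = 1 := by
  obtain ⟨v, hv, hv'⟩ := unitary_near π hπ ⟨u, hu, hu'⟩ hx
  let T : unitary B' → unitary B := fun w => ⟨π w, map_unitary _ w.2⟩
  have hT : Continuous T :=
    Continuous.subtype_mk
      ((NonUnitalStarAlgHom.isometry π hπ).continuous.comp continuous_subtype_val) _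
  have h3 : Joined (T 1) (T ⟨v, hv⟩) := ⟨(h ⟨v, hv⟩).somePath.map hT⟩
  have h4 : T 1 = 1 := Subtype.ext (map_one π)
  rw [h4] at h3
  obtain ⟨γ⟩ := h3.trans (Unitary.joined ⟨u, hu, hu'⟩ (T ⟨v, hv⟩) hv').symm
  exact ⟨fun t => (γ t).1, continuous_subtype_val.comp γ.continuous, by simp, by simp,
    fun t => (γ t).2⟩

theorem joined_matrix {n : ℕ} (u : unitary (Matrix (Fin n) (Fin n) A))
    (γ : unitInterval → Matrix (Fin n) (Fin n) A) (hc : Continuous γ) (h0 : γ 0 = 1)
    (h1 : γ 1 = u.1) (h : ∀ t, star (γ t) * γ t = 1 ∧ γ t * star (γ t) = 1) : Joined 1 u :=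
  ⟨⟨⟨fun t => ⟨γ t, h t⟩, Continuous.subtype_mk hc _⟩, Subtype.ext h0, Subtype.ext h1⟩⟩

include Λ b in
theorem K1_aux {n : ℕ} (u : CStarMatrix (Fin n) (Fin n) A) (hu : star u * u = 1)
    (hu' : u * star u = 1) :
    ∃ γ : unitInterval → CStarMatrix (Fin n) (Fin n) A, Continuous γ ∧ γ 0 = 1 ∧ γ 1 = u ∧
      ∀ t, star (γ t) * γ t = 1 ∧ γ t * star (γ t) = 1 := by
  obtain ⟨m, F, hF⟩ := (Λ.ΨH_approx u (by norm_num : (0 : ℝ) < 1 / 4)).exists
  have hj : ∀ v : unitary (S.Am m (Fin n) (Fin n)), Joined 1 v := fun v => joined_stage b v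
  exact joined_map (Λ.ΨH (Fin n) m) (Λ.ΨH_injective m) hj hu hu' hF

include Λ b in
theorem K1_trivial : Subsingleton (K1 A) := by
  refine K1_subsingleton fun n u => ?_
  obtain ⟨γ, hc, h0, h1, h⟩ := Λ.K1_aux b (CStarMatrix.ofMatrix u.1) u.2.1 u.2.2
  exact joined_matrix u γ hc h0 h1 h

/-- The barycentric coordinate of a trace. -/
def nu (τ : Tr A) : ℝ := (Λ.mu τ 0 (b.v 0)).re

variable (hv : ∀ n, avg (S.lam n) (b.v n) = b.v (n + 1))

include hv in
theorem nu_eq (τ : Tr A) (m : ℕ) : (Λ.mu τ m (b.v m)).re = Λ.nu b τ := by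
  induction m with
  | zero => rfl
  | succ m ih => rw [← hv, Λ.mu_compat, ih]

include hv in
theorem mu_cst (τ : Tr A) (m : ℕ) (x : Bool → ℝ) :
    (Λ.mu τ m (b.cst m fun β => (x β : ℂ))).re
      = (x true + x false) / 2 + (x true - x false) / 2 * ((m + 1) / (m + 2)) * Λ.nu b τ := by
  have : (b.cst m fun β => (x β : ℂ)) = (((x true + x false) / 2 : ℝ) : ℂ) • 1
      + (((x true - x false) / 2 * ((m + 1) / (m + 2)) : ℝ) : ℂ) • b.v m := by
    ext z
    simp only [Br.cst_apply, Br.v, ContinuousMap.add_apply, ContinuousMap.smul_apply,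
      ContinuousMap.one_apply, smul_eq_mul, mul_one, ← Complex.ofReal_mul, ← Complex.ofReal_add]
    congr 1
    cases b.br m z
    · simp only [Bool.false_eq_true, if_false]; field_simp; ring
    · simp only [if_true]; field_simp; ring
  rw [this, map_add, map_smul, map_smul, (Λ.isState_mu τ m).one, smul_eq_mul, smul_eq_mul,
    Complex.add_re, mul_one, Complex.ofReal_re, Complex.re_ofReal_mul, Λ.nu_eq b hv]

include hv in
theorem exists_nu (β : Bool) : ∃ τ : Tr A, Λ.nu b τ = if β then 1 else -1 := by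
  obtain ⟨σ, ω, hω, hlim⟩ := Λ.exists_trace (fun m => evS (b.base m β)) (fun m => isState_evS _)
    (hyperfilter ℕ) Nat.hyperfilter_le_atTop
  refine ⟨σ, ?_⟩
  have key : ∀ m, ∃ f : S.St m, Λ.ψ m f = Λ.ψ 0 (sc _ (b.v 0)) ∧ ntr (S.k m) f = b.v m := by
    intro m
    induction m with
    | zero => exact ⟨_, rfl, S.ntr_sc 0 _⟩
    | succ m ih =>
      obtain ⟨f, h1, h2⟩ := ih
      exact ⟨S.φ m f, (Λ.compat m f).trans h1, by rw [S.ntr_φ, h2, hv]⟩
  have h1 : Tendsto (fun m : ℕ => (if β then 1 else -1) * (((m : ℝ) + 2) / (m + 1))) atTop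
      (𝓝 ((if β then 1 else -1) * 1)) := by
    refine Tendsto.const_mul _ ?_
    have := tendsto_one_div_add_atTop_nhds_zero_nat (𝕜 := ℝ).const_add 1
    rw [add_zero] at this
    refine this.congr fun m => ?_
    field_simp
    ring
  rw [mul_one] at h1
  refine tendsto_nhds_unique ((Complex.continuous_re.tendsto _).comp (hlim _))
    ((h1.mono_left Nat.hyperfilter_le_atTop).congr fun m => ?_)
  obtain ⟨f, h2, h3⟩ := key m
  simp only [Function.comp]
  rw [← h2, hω, h3]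
  change _ = (b.v m (b.base m β)).re
  simp only [Br.v, Br.cst_apply, b.br_base, Complex.ofReal_re]

include hv in
theorem trM_cst (τ : Tr A) {N : ℕ} (m : ℕ)
    (q : Bool → Matrix (Fin N × Fin (S.k m)) (Fin N × Fin (S.k m)) ℂ) (r : Bool → ℕ)
    (hq : ∀ β, (q β).trace = r β) :
    trM τ (Λ.Ψ m (b.cst m q)) = ((r true : ℝ) / S.k m + r false / S.k m) / 2
      + ((r true : ℝ) / S.k m - r false / S.k m) / 2 * ((m + 1) / (m + 2)) * Λ.nu b τ := by
  rw [trM, Λ.tr_Ψ, ← Λ.mu_cst b hv τ m fun β => (r β : ℝ) / S.k m]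
  congr 2
  ext z
  simp [hq, div_eq_inv_mul]

include hv in
theorem proj_data (p : Proj A) :
    ∀ᶠ m in atTop, ∃ (q : Bool → Matrix (Fin p.1 × Fin (S.k m)) (Fin p.1 × Fin (S.k m)) ℂ)
      (r : Bool → ℕ) (h : IsStarProjection (Λ.Ψ m (b.cst m q))),
      (∀ β, IsStarProjection (q β)) ∧ (∀ β, (q β).trace = r β) ∧
      K0mk p = K0mk ⟨p.1, _, h⟩ ∧ ∀ τ, trM τ p.2.1 = ((r true : ℝ) / S.k m + r false / S.k m) / 2
        + ((r true : ℝ) / S.k m - r false / S.k m) / 2 * ((m + 1) / (m + 2)) * Λ.nu b τ := by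
  filter_upwards [Λ.proj_reduce b p.2.2]
  rintro m ⟨q, hq, u, hu, hu', e⟩
  choose r V h1 h2 h3 using fun β => proj_factor (hq β)
  have h : IsStarProjection (Λ.Ψ m (b.cst m q)) :=
    (proj_iff.2 fun z => hq _ : IsStarProjection (b.cst m q)).map (Λ.ΨH _ m)
  exact ⟨q, r, h, hq, h3, K0mk_unitary p.2.2 h hu hu' e,
    fun τ => by rw [trM_unitary τ hu hu' e, Λ.trM_cst b hv τ m q r h3]⟩

variable {τp τm : Tr A} (hp : Λ.nu b τp = 1) (hm : Λ.nu b τm = -1)

include hv hp hm in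
theorem pairing_formula (τ : Tr A) (g : K0 A) :
    pairing τ g = (pairing τp g + pairing τm g) / 2
      + (pairing τp g - pairing τm g) / 2 * Λ.nu b τ := by
  have key : ∀ p : Proj A, pairing τ (K0mk p) = (pairing τp (K0mk p) + pairing τm (K0mk p)) / 2
      + (pairing τp (K0mk p) - pairing τm (K0mk p)) / 2 * Λ.nu b τ := by
    intro p
    obtain ⟨m, q, r, h, -, -, -, e⟩ := (Λ.proj_data b hv p).exists
    simp only [pairing_mk, e, hp, hm]
    ring
  obtain ⟨p, q, rfl⟩ := K0_sub g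
  simp only [map_sub]
  rw [key p, key q]
  ring

include hv hp hm in
theorem kappa_injective : Function.Injective ((pairing τp).prod (pairing τm)) := by
  refine (injective_iff_map_eq_zero _).2 fun g hg => ?_
  obtain ⟨p, p', rfl⟩ := K0_sub g
  obtain ⟨m, ⟨q, r, h, hq, hr, e1, e⟩, ⟨q', r', h', hq', hr', e1', e'⟩⟩ :=
    ((Λ.proj_data b hv p).and (Λ.proj_data b hv p')).exists
  have h1 := congrArg Prod.fst hg
  have h2 := congrArg Prod.snd hg
  simp only [AddMonoidHom.prod_apply, map_sub, pairing_mk, e, e', hp, hm, Prod.fst_sub,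
    Prod.snd_sub, Prod.fst_zero, Prod.snd_zero] at h1 h2
  have hk : (0 : ℝ) < S.k m := by exact_mod_cast S.kpos m
  have hrr : ∀ β, r β = r' β := by
    have e3 : (r true : ℝ) / S.k m + r false / S.k m = r' true / S.k m + r' false / S.k m := by
      linarith
    have e4 : ((r true : ℝ) / S.k m - r false / S.k m - (r' true / S.k m - r' false / S.k m))
        * ((m + 1) / (m + 2)) = 0 := by linarith
    have e5 := (mul_eq_zero.1 e4).resolve_right (by positivity)
    intro β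
    cases β
    · have : (r false : ℝ) / S.k m = r' false / S.k m := by linarith
      exact_mod_cast (div_left_inj' hk.ne').1 this
    · have : (r true : ℝ) / S.k m = r' true / S.k m := by linarith
      exact_mod_cast (div_left_inj' hk.ne').1 this
  choose w hw hw' using fun β => proj_equiv (hq β) (hq' β) (by rw [hr, hr', hrr])
  rw [e1, e1', sub_eq_zero]
  refine K0mk_eq (p := ⟨p.1, _, h⟩) (q := ⟨p'.1, _, h'⟩) (Λ.Ψ m (b.cst m w)) ?_ ?_
  · rw [← Λ.Ψ_adj, ← Λ.Ψ_mul]
    exact congrArg (Λ.Ψ m) (ContinuousMap.ext fun z => hw _)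
  · rw [← Λ.Ψ_adj, ← Λ.Ψ_mul]
    exact congrArg (Λ.Ψ m) (ContinuousMap.ext fun z => hw' _)

theorem exists_proj (m : ℕ) (r : Bool → ℕ) :
    ∃ (N : ℕ) (q : Bool → Matrix (Fin N × Fin (S.k m)) (Fin N × Fin (S.k m)) ℂ),
      (∀ β, IsStarProjection (q β)) ∧ ∀ β, (q β).trace = r β := by
  have : ∀ β, ∃ T : Finset (Fin (r true + r false) × Fin (S.k m)), T.card = r β := by
    intro β
    obtain ⟨T, -, hT⟩ := Finset.exists_subset_card_eq
      (s := (Finset.univ : Finset (Fin (r true + r false) × Fin (S.k m)))) (n := r β) (by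
        have := S.kpos m
        simp only [Finset.card_univ, Fintype.card_prod, Fintype.card_fin]
        cases β <;> nlinarith)
    exact ⟨T, hT⟩
  choose T hT using this
  refine ⟨_, fun β => diagonal fun a => if a ∈ T β then 1 else 0, fun β => ⟨?_, ?_⟩, fun β => ?_⟩
  · rw [IsIdempotentElem, diagonal_mul_diagonal]
    congr 1
    ext a
    split_ifs <;> simp
  · rw [IsSelfAdjoint, star_eq_conjTranspose, diagonal_conjTranspose]
    congr 1
    ext a
    simp only [Pi.star_apply]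
    split_ifs <;> simp
  · simp [hT]

include hv hp hm in
theorem kappa_cone (hdiv : ∀ d m : ℕ, 0 < d → ∃ m', m ≤ m' ∧ 2 * d * (m' + 1) ∣ S.k m') :
    (pairing τp).prod (pairing τm) '' K0pos A = {w | ∃ (m : ℕ) (x y : ℚ), 0 ≤ x ∧ 0 ≤ y ∧
      w = (((x : ℝ) + y) / 2 + (x - y) / 2 * ((m + 1) / (m + 2)),
        ((x : ℝ) + y) / 2 - (x - y) / 2 * ((m + 1) / (m + 2)))} := by
  ext w
  constructor
  · rintro ⟨_, ⟨p, rfl⟩, rfl⟩
    obtain ⟨m, q, r, h, -, -, -, e⟩ := (Λ.proj_data b hv p).exists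
    refine ⟨m, r true / S.k m, r false / S.k m, by positivity, by positivity, ?_⟩
    ext
    · simp only [AddMonoidHom.prod_apply, pairing_mk, e, hp]; push_cast; ring
    · simp only [AddMonoidHom.prod_apply, pairing_mk, e, hm]; push_cast; ring
  · rintro ⟨m, x, y, hx, hy, rfl⟩
    obtain ⟨m', hmm, c, hc⟩ := hdiv (x.den * y.den * (m + 2)) m (by positivity)
    have hk : (0 : ℚ) < S.k m' := by exact_mod_cast S.kpos m'
    have hint : ∀ σ : ℤ, σ = 1 ∨ σ = -1 → ∃ r : ℕ, (r : ℚ) / S.k m'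
        = (x + y) / 2 + σ * ((x - y) / 2 * ((m + 1) / (m + 2)) * ((m' + 2) / (m' + 1))) := by
      intro σ hσ
      let j : ℤ := (x.num * y.den + y.num * x.den) * (m + 2) * (m' + 1) * c
        + σ * (x.num * y.den - y.num * x.den) * (m + 1) * (m' + 2) * c
      have hj : (j : ℚ) / S.k m'
          = (x + y) / 2 + σ * ((x - y) / 2 * ((m + 1) / (m + 2)) * ((m' + 2) / (m' + 1))) := by
        have hc0 : (c : ℚ) ≠ 0 := by
          rintro h
          rw [hc] at hk
          push_cast at hk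
          simp [h] at hk
        have ex : (x.num : ℚ) = x * x.den := by simp
        have ey : (y.num : ℚ) = y * y.den := by simp
        rw [hc]
        simp only [j]
        push_cast
        rw [ex, ey]
        have := x.den_pos
        have := y.den_pos
        field_simp
      have ht : (0 : ℚ) ≤ (m + 1) / (m + 2) * ((m' + 2) / (m' + 1)) := by positivity
      have ht1 : ((m : ℚ) + 1) / (m + 2) * ((m' + 2) / (m' + 1)) ≤ 1 := by
        rw [div_mul_div_comm, div_le_one (by positivity)]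
        have : (m : ℚ) ≤ m' := by exact_mod_cast hmm
        nlinarith
      have hj0 : (0 : ℚ) ≤ j / S.k m' := by
        rw [hj, mul_assoc]
        rcases hσ with rfl | rfl <;> push_cast <;> nlinarith
      have hj1 : 0 ≤ j := by
        have := (div_nonneg_iff.1 hj0).resolve_right (fun h => absurd h.2 (not_le.2 hk))
        exact_mod_cast this.1
      refine ⟨j.toNat, ?_⟩
      rw [← hj]
      congr 1
      exact_mod_cast congrArg (Int.cast : ℤ → ℚ) (Int.toNat_of_nonneg hj1)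
    obtain ⟨r₁, h₁⟩ := hint 1 (Or.inl rfl)
    obtain ⟨r₂, h₂⟩ := hint (-1) (Or.inr rfl)
    obtain ⟨N, q, hq, hr⟩ := exists_proj (S := S) m' fun β => if β then r₁ else r₂
    have h : IsStarProjection (Λ.Ψ m' (b.cst m' q)) :=
      (proj_iff.2 fun z => hq _ : IsStarProjection (b.cst m' q)).map (Λ.ΨH _ m')
    have h₁' := congrArg (Rat.cast : ℚ → ℝ) h₁
    have h₂' := congrArg (Rat.cast : ℚ → ℝ) h₂
    push_cast at h₁' h₂'
    let P : Proj A := ⟨N, _, h⟩
    have hP : ∀ τ, pairing τ (K0mk P) = _ := fun τ =>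
      (pairing_mk τ P).trans (Λ.trM_cst b hv τ m' q _ hr)
    refine ⟨_, ⟨P, rfl⟩, ?_⟩
    ext
    · simp only [AddMonoidHom.prod_apply, hP, hp, if_true,
        Bool.false_eq_true, if_false, h₁', h₂']
      field_simp
      ring
    · simp only [AddMonoidHom.prod_apply, hP, hm, if_true,
        Bool.false_eq_true, if_false, h₁', h₂']
      field_simp
      ring

end Lim

theorem pairing_one {A : Type} [CStarAlgebra A] (τ : Tr A) : pairing τ (K0one A) = 1 := by
  refine (pairing_mk τ _).trans ?_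
  simp [trM, τ.2.1]

theorem norm_v_le (b : Br Z) (n : ℕ) : ‖b.v n‖ ≤ 2 := by
  refine (ContinuousMap.norm_le _ zero_le_two).2 fun z => ?_
  simp only [Br.v, Br.cst_apply, Complex.norm_real, norm_mul]
  have h1 : ‖(if b.br n z = true then (1 : ℝ) else -1)‖ = 1 := by split_ifs <;> simp
  rw [h1, one_mul, Real.norm_of_nonneg (by positivity), div_le_iff₀ (by positivity)]
  have : (0 : ℝ) ≤ n := Nat.cast_nonneg n
  linarith

/-- Two systems with summably close averaging maps have limits with the same Elliott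
invariant. -/
theorem sameElliott {S S' : Sys Z} {A A' : Type} [CStarAlgebra A] [PartialOrder A]
    [StarOrderedRing A] [CStarAlgebra A'] [PartialOrder A'] [StarOrderedRing A'] (Λ : Lim S A)
    (Λ' : Lim S' A') (b : Br Z) (hv : ∀ n, avg (S.lam n) (b.v n) = b.v (n + 1))
    (hv' : ∀ n, avg (S'.lam n) (b.v n) = b.v (n + 1))
    (hdiv : ∀ d m : ℕ, 0 < d → ∃ m', m ≤ m' ∧ 2 * d * (m' + 1) ∣ S.k m')
    (hdiv' : ∀ d m : ℕ, 0 < d → ∃ m', m ≤ m' ∧ 2 * d * (m' + 1) ∣ S'.k m')
    (Δ : ℕ → ℝ) (hΔ0 : ∀ n, 0 ≤ Δ n)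
    (hΔ : ∀ n g, 2 * ‖avg (S.lam n) g - avg (S'.lam n) g‖ ≤ (Δ n - Δ (n + 1)) * ‖g‖)
    (hmono : ∀ n, Δ (n + 1) ≤ Δ n) (hlim : Tendsto Δ atTop (𝓝 0)) : SameElliott A A' := by
  obtain ⟨τp, hp⟩ := Λ.exists_nu b hv true
  obtain ⟨τm, hm⟩ := Λ.exists_nu b hv false
  obtain ⟨σp, hp'⟩ := Λ'.exists_nu b hv' true
  obtain ⟨σm, hm'⟩ := Λ'.exists_nu b hv' false
  simp only [if_true, Bool.false_eq_true, if_false] at hp hm hp' hm'
  obtain ⟨α, hα, hα'⟩ := exists_K0_iso _ _ (Λ.kappa_injective b hv hp hm)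
    (Λ'.kappa_injective b hv' hp' hm')
    ((Λ.kappa_cone b hv hp hm hdiv).trans (Λ'.kappa_cone b hv' hp' hm' hdiv').symm)
  obtain ⟨γ, hγ, haff⟩ := exists_homeo Λ' Λ hΔ0 hΔ hmono hlim
  have := Λ.K1_trivial b
  have := Λ'.K1_trivial b
  have u1 : Unique (K1 A) := uniqueOfSubsingleton 0
  have u2 : Unique (K1 A') := uniqueOfSubsingleton 0
  refine ⟨α, AddEquiv.ofUnique, γ, hα, ?_, haff, fun τ g => ?_⟩
  · apply Λ'.kappa_injective b hv' hp' hm'
    rw [hα']
    ext <;> simp [pairing_one]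
  · have hnu : Λ.nu b (γ τ) = Λ'.nu b τ := by
      rw [← sub_eq_zero, ← abs_nonpos_iff]
      have h2 : Tendsto (fun n => Δ n * 2) atTop (𝓝 0) := by simpa using hlim.mul_const 2
      refine ge_of_tendsto' h2 fun n => ?_
      rw [← Λ.nu_eq b hv _ n, ← Λ'.nu_eq b hv' _ n, ← Complex.sub_re]
      exact (Complex.abs_re_le_norm _).trans ((hγ τ n _).trans
        (mul_le_mul_of_nonneg_left (norm_v_le b n) (hΔ0 n)))
    have h1 := congrArg Prod.fst (hα' g)
    have h2 := congrArg Prod.snd (hα' g)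
    simp only [AddMonoidHom.prod_apply] at h1 h2
    rw [Λ.pairing_formula b hv hp hm, Λ'.pairing_formula b hv' hp' hm' τ, h1, h2, hnu]

end Pool.Agent.Work.MP_501a10_an
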