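import Pool.Agent.Work.MP_501a10_an.Form
import Pool.Agent.Work.MP_501a10_an.KTheory

/-!
The family of diagonal systems, indexed by sequences of zeros and ones.
-/

open Filter Topology Matrix
open scoped Matrix.Norms.L2Operator ComplexOrder

set_option linter.unusedSectionVars false

noncomputable section

namespace Pool.Agent.Work.MP_501a10_an

/-- The number `2 (n + 2) ^ 2 - 2`. -/
def bq (n : ℕ) : ℕ := 2 * n ^ 2 + 8 * n + 6

/-- The number of coordinate maps. -/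
def ss (n : ℕ) : ℕ := bq n ^ 2 + 3 * bq n + 1

/-- The matrix sizes. -/
def kk (θ : ℕ → ℕ) : ℕ → ℕ
  | 0 => 1
  | n + 1 => kk θ n * ((bq n + 2) * (bq n + 2 + θ n))

/-- The numbers of projective planes. -/
def SS : ℕ → Bool → ℕ
  | 0, _ => 1
  | n + 1, β => ss n * SS n β + if β then (n + 1) * kk 1 (n + 1) else 0

theorem SS_pos (n : ℕ) (β : Bool) : 0 < SS n β := by
  induction n with
  | zero => exact one_pos
  | succ n ih => exact Nat.add_pos_left (Nat.mul_pos (Nat.succ_pos _) ih) _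

theorem kk_pos (θ : ℕ → ℕ) (n : ℕ) : 0 < kk θ n := by
  induction n with
  | zero => exact one_pos
  | succ n ih => rw [kk]; positivity

theorem kk_mono {θ θ' : ℕ → ℕ} (h : θ ≤ θ') (n : ℕ) : kk θ n ≤ kk θ' n := by
  induction n with
  | zero => exact le_rfl
  | succ n ih =>
    have := h n
    rw [kk, kk]
    gcongr

theorem SS_le (n : ℕ) (β : Bool) : SS n false ≤ SS n β := by
  induction n with
  | zero => exact le_rfl
  | succ n ih => exact Nat.add_le_add (Nat.mul_le_mul_left _ ih) (Nat.zero_le _)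

theorem SS_le_kk (θ : ℕ → ℕ) (n : ℕ) : SS n false ≤ kk θ n := by
  induction n with
  | zero => exact le_rfl
  | succ n ih =>
    change ss n * SS n false ≤ kk θ n * _
    rw [mul_comm]
    refine Nat.mul_le_mul ih ?_
    rw [ss]
    nlinarith [Nat.zero_le (θ n), Nat.zero_le (bq n)]

theorem kk_le_SS {θ : ℕ → ℕ} (hθ : θ ≤ 1) (n : ℕ) : n * kk θ n ≤ SS n true := by
  cases n with
  | zero => simp
  | succ n => exact (Nat.mul_le_mul_left _ (kk_mono hθ _)).trans (Nat.le_add_left _ _)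

/-- The spaces. -/
abbrev ZZ (n : ℕ) : Type := Σ β : Bool, Cone (Fin (SS n β))

instance (n : ℕ) : Nonempty (ZZ n) := ⟨⟨true, Cone.apex⟩⟩

/-- The index embeddings. -/
def emb (n : ℕ) (β : Bool) : Fin (ss n) × Fin (SS n β) ↪ Fin (SS (n + 1) β) :=
  Classical.choice (Function.Embedding.nonempty_of_card_le (by
    simp only [Fintype.card_prod, Fintype.card_fin]
    exact Nat.le_add_right _ _))

/-- The coordinate maps. -/
def co (n : ℕ) (j : Fin (ss n)) : C(ZZ (n + 1), ZZ n) :=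
  ⟨fun z => ⟨z.1, Cone.res (fun i => emb n z.1 (j, i)) z.2⟩, continuous_sigma fun β =>
    continuous_sigmaMk.comp (Cone.res fun i => emb n β (j, i)).2⟩

theorem co_surj (n : ℕ) (z : ZZ n) : ∃ j w, co n j w = z := by
  obtain ⟨β, y⟩ := z
  have : Nonempty (Fin (SS n β)) := ⟨⟨0, SS_pos n β⟩⟩
  let j : Fin (ss n) := ⟨0, Nat.succ_pos _⟩
  obtain ⟨r, hr⟩ : Function.HasLeftInverse fun i => emb n β (j, i) :=
    Function.Injective.hasLeftInverse fun a b h => (Prod.ext_iff.1 ((emb n β).injective h)).2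
  exact ⟨j, ⟨β, Cone.res r y⟩, congrArg (Sigma.mk β) (Cone.res_res hr y)⟩

/-- The two components and their contraction. -/
def bb : Br ZZ where
  br n := ⟨Sigma.fst, continuous_sigma fun _ => continuous_const⟩
  base n β := ⟨β, Cone.apex⟩
  br_base _ _ := rfl
  H n := ⟨fun p => ⟨p.2.1, Cone.scale (p.1, p.2.2)⟩, by
    have h : Continuous fun q : Σ β : Bool, Cone (Fin (SS n β)) × unitInterval =>
        (⟨q.1, Cone.scale (q.2.2, q.2.1)⟩ : ZZ n) := continuous_sigma fun β =>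
      continuous_sigmaMk.comp (Cone.scale.2.comp continuous_swap)
    exact (h.comp Homeomorph.sigmaProdDistrib.continuous).comp continuous_swap⟩
  H1 n z := congrArg (Sigma.mk z.1) (Cone.scale_one z.2)
  H0 n z := congrArg (Sigma.mk z.1) (Cone.scale_zero z.2)

/-- A sequence of points lying over a dense set at each stage. -/
def pp : ∀ m, ZZ m := Classical.choose (exists_pts (lam := fun n j => co n j) co_surj)

/-- The evaluation points. -/
def ev (m : ℕ) (β : Bool) : ZZ m := if (pp m).1 = β then pp m else ⟨β, Cone.apex⟩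

theorem ev_br (m : ℕ) (β : Bool) : (ev m β).1 = β := by
  unfold ev
  split_ifs with h
  · exact h
  · rfl

/-- The system attached to a sequence. -/
def sys (θ : ℕ → ℕ) : Sys ZZ where
  k := kk θ
  L n := Fin (ss n) ⊕ (Fin ((bq n + 1) * θ n + 1) ⊕ Fin (bq n + 2 + θ n))
  e n := Fintype.equivOfCardEq (by
    simp only [Fintype.card_prod, Fintype.card_fin, Fintype.card_sum]
    rw [kk, ss]
    ring)
  lam n := Sum.elim (co n)
    (Sum.elim (fun _ => bb.cst (n + 1) (ev n)) fun _ => bb.cst (n + 1) fun β => ev n !β)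
  kpos := kk_pos θ
  surj n z := let ⟨j, w, h⟩ := co_surj n z; ⟨.inl j, w, h⟩

theorem avg_sys (θ : ℕ → ℕ) (n : ℕ) (g : C(ZZ n, ℂ)) (z : ZZ (n + 1)) :
    avg ((sys θ).lam n) g z = (((bq n + 2) * (bq n + 2 + θ n) : ℕ) : ℂ)⁻¹ *
      (∑ j, g (co n j z) + (((bq n + 1) * θ n + 1 : ℕ) * g (ev n z.1)
        + (bq n + 2 + θ n : ℕ) * g (ev n !z.1))) := by
  rw [avg_apply]
  congr 2
  · congr 1
    have := (sys θ).k_succ n
    exact (Nat.eq_of_mul_eq_mul_left (kk_pos θ n) this).symm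
  · change ∑ l : Fin (ss n) ⊕ (Fin ((bq n + 1) * θ n + 1) ⊕ Fin (bq n + 2 + θ n)), _ = _
    rw [Fintype.sum_sum_type, Fintype.sum_sum_type]
    simp only [sys, Sum.elim_inl, Sum.elim_inr, Br.cst_apply, Finset.sum_const, Finset.card_univ,
      Fintype.card_fin, nsmul_eq_mul]
    rfl

theorem hv_sys (θ : ℕ → ℕ) (n : ℕ) : avg ((sys θ).lam n) (bb.v n) = bb.v (n + 1) := by
  ext z
  have e : ∀ m (w : ZZ m),
      bb.v m w = (((if w.1 then 1 else -1) * ((m + 2) / (m + 1)) : ℝ) : ℂ) := fun _ _ => rfl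
  have e1 : ∀ j, (co n j z).1 = z.1 := fun _ => rfl
  rw [avg_sys]
  simp only [e, e1, ev_br, Finset.sum_const, Finset.card_univ, Fintype.card_fin, nsmul_eq_mul]
  have h1 : ((n : ℂ) + 1) ≠ 0 := by exact_mod_cast n.succ_ne_zero
  have h2 : ((n : ℂ) + 1 + 1) ≠ 0 := by exact_mod_cast (n + 1).succ_ne_zero
  have h3 : (((bq n + 2) * (bq n + 2 + θ n) : ℕ) : ℂ) ≠ 0 := Nat.cast_ne_zero.2 (by positivity)
  rw [inv_mul_eq_iff_eq_mul₀ h3]
  cases z.1 <;> simp only [ss, bq] <;> push_cast <;> simp <;> field_simp <;> ring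

theorem hdiv_sys (θ : ℕ → ℕ) (d m : ℕ) (hd : 0 < d) :
    ∃ m', m ≤ m' ∧ 2 * d * (m' + 1) ∣ (sys θ).k m' := by
  have key : ∀ n, 2 * (n + 2).factorial * (n + 2).factorial ∣ kk θ (n + 1) := by
    intro n
    induction n with
    | zero => exact ⟨bq 0 + 2 + θ 0, by simp [kk, bq]⟩
    | succ n ih =>
      obtain ⟨c, hc⟩ := ih
      refine ⟨c * 2 * (bq (n + 1) + 2 + θ (n + 1)), ?_⟩
      rw [kk, hc, Nat.factorial_succ (n + 2)]
      simp only [bq]
      ring
  refine ⟨m + d + 1, by omega, Dvd.dvd.trans ?_ (key (m + d))⟩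
  exact mul_dvd_mul (mul_dvd_mul_left _ (Nat.dvd_factorial hd (by omega)))
    (Nat.dvd_factorial (by omega) le_rfl)

theorem ratio {θ : ℕ → ℕ} (hθ : θ ≤ 1) (n : ℕ) :
    (((bq n + 1) * θ n + 1 : ℕ) + (bq n + 2 + θ n : ℕ) : ℝ)
      ≤ ((bq n + 2) * (bq n + 2 + θ n) : ℕ) * (1 / (n + 1) - 1 / (n + 2)) := by
  have h : θ n = 0 ∨ θ n = 1 := by have := hθ n; simp at this; omega
  have e : (1 / (n + 1) - 1 / (n + 2) : ℝ) = 1 / ((n + 1) * (n + 2)) := by
    field_simp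
    ring
  rw [e, mul_one_div, le_div_iff₀ (by positivity)]
  have : (0 : ℝ) ≤ n := n.cast_nonneg
  rcases h with h | h <;> simp only [h, bq] <;> push_cast <;>
    nlinarith [pow_nonneg this 2, pow_nonneg this 3, pow_nonneg this 4]

theorem avg_close {θ : ℕ → ℕ} (hθ : θ ≤ 1) (n : ℕ) (g : C(ZZ n, ℂ)) (z : ZZ (n + 1)) :
    ‖avg ((sys θ).lam n) g z - (ss n : ℂ)⁻¹ * ∑ j, g (co n j z)‖
      ≤ 2 * (1 / (n + 1) - 1 / (n + 2)) * ‖g‖ := by
  have hr := ratio hθ n
  have hl : (((bq n + 2) * (bq n + 2 + θ n) : ℕ) : ℝ)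
      = ss n + (((bq n + 1) * θ n + 1 : ℕ) + (bq n + 2 + θ n : ℕ)) := by
    simp only [ss]
    push_cast
    ring
  have hl' : (((bq n + 2) * (bq n + 2 + θ n) : ℕ) : ℂ)
      = ss n + (((bq n + 1) * θ n + 1 : ℕ) + (bq n + 2 + θ n : ℕ)) := by exact_mod_cast hl
  have hs : (ss n : ℂ) ≠ 0 := Nat.cast_ne_zero.2 (Nat.succ_ne_zero _)
  have hs' : (0 : ℝ) < ss n := Nat.cast_pos.2 (Nat.succ_pos _)
  have h0 : (0 : ℝ) < ((bq n + 2) * (bq n + 2 + θ n) : ℕ) := Nat.cast_pos.2 (by positivity)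
  have h0' : (((bq n + 2) * (bq n + 2 + θ n) : ℕ) : ℂ) ≠ 0 := by exact_mod_cast h0.ne'
  have hP : ‖(ss n : ℂ)⁻¹ * ∑ j, g (co n j z)‖ ≤ ‖g‖ := by
    rw [norm_mul, norm_inv, Complex.norm_natCast, inv_mul_le_iff₀ hs']
    refine (norm_sum_le _ _).trans ?_
    exact (Finset.sum_le_card_nsmul _ _ ‖g‖ fun l _ => g.norm_coe_le_norm _).trans (by simp)
  rw [avg_sys]
  generalize (bq n + 2) * (bq n + 2 + θ n) = l at *
  generalize (bq n + 1) * θ n + 1 = e at *
  generalize bq n + 2 + θ n = c at *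
  have h1 : (l : ℂ)⁻¹ * (∑ j, g (co n j z) + (e * g (ev n z.1) + c * g (ev n !z.1)))
      - (ss n : ℂ)⁻¹ * ∑ j, g (co n j z) = (l : ℂ)⁻¹ * (e * (g (ev n z.1)
        - (ss n : ℂ)⁻¹ * ∑ j, g (co n j z)) + c * (g (ev n !z.1)
        - (ss n : ℂ)⁻¹ * ∑ j, g (co n j z))) := by
    field_simp
    rw [hl']
    ring
  have h2 : ∀ w, ‖g w - (ss n : ℂ)⁻¹ * ∑ j, g (co n j z)‖ ≤ 2 * ‖g‖ := fun w =>
    (norm_sub_le _ _).trans (by linarith [g.norm_coe_le_norm w])
  rw [h1, norm_mul, norm_inv, Complex.norm_natCast, inv_mul_le_iff₀ h0]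
  refine (norm_add_le _ _).trans ?_
  rw [norm_mul, norm_mul, Complex.norm_natCast, Complex.norm_natCast]
  have h3 := mul_le_mul_of_nonneg_left (h2 (ev n z.1)) e.cast_nonneg
  have h4 := mul_le_mul_of_nonneg_left (h2 (ev n !z.1)) c.cast_nonneg
  have h5 := mul_le_mul_of_nonneg_right hr (norm_nonneg g)
  linarith

theorem same_sys {θ θ' : ℕ → ℕ} (hθ : θ ≤ 1) (hθ' : θ' ≤ 1) {A A' : Type} [CStarAlgebra A]
    [PartialOrder A] [StarOrderedRing A] [CStarAlgebra A'] [PartialOrder A'] [StarOrderedRing A']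
    (Λ : Lim (sys θ) A) (Λ' : Lim (sys θ') A') : SameElliott A A' := by
  refine sameElliott Λ Λ' bb (hv_sys θ) (hv_sys θ') (hdiv_sys θ) (hdiv_sys θ')
    (fun n => 8 * (1 / (n + 1))) (fun n => by positivity) (fun n g => ?_) (fun n => ?_) ?_
  · have h0 : (0 : ℝ) ≤ 1 / (n + 1) - 1 / (n + 2) := by
      rw [sub_nonneg]
      gcongr
      norm_num
    have : ‖avg ((sys θ).lam n) g - avg ((sys θ').lam n) g‖
        ≤ 4 * (1 / (n + 1) - 1 / (n + 2)) * ‖g‖ := by
      refine (ContinuousMap.norm_le _ (by positivity)).2 fun z => ?_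
      refine (norm_sub_le_norm_sub_add_norm_sub _ ((ss n : ℂ)⁻¹ * ∑ j, g (co n j z)) _).trans ?_
      rw [norm_sub_rev ((ss n : ℂ)⁻¹ * _)]
      linarith [avg_close hθ n g z, avg_close hθ' n g z]
    push_cast
    rw [add_assoc, one_add_one_eq_two]
    linarith
  · push_cast
    gcongr
    norm_num
  · simpa using (tendsto_one_div_add_atTop_nhds_zero_nat (𝕜 := ℝ)).const_mul 8

theorem simple_sys {θ : ℕ → ℕ} {A : Type} [CStarAlgebra A] [PartialOrder A] [StarOrderedRing A]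
    (Λ : Lim (sys θ) A) : IsSimple A := by
  refine Λ.isSimple fun n U hU hne => ?_
  obtain ⟨m, z, hz, hr⟩ :=
    Classical.choose_spec (exists_pts (lam := fun n j => co n j) co_surj) n U hU hne
  refine ⟨m, z, hz, pp m, hr.mono fun n j => ⟨.inl j, rfl⟩, fun β => if β then .inr (.inl 0)
    else .inr (.inr ⟨0, by positivity⟩), fun w => ?_⟩
  by_cases h : (pp m).1 = w.1
  · exact ⟨true, if_pos h⟩
  · exact ⟨false, if_pos (Bool.eq_not_iff.2 h)⟩

end Pool.Agent.Work.MP_501a10_an
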