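import Pool.Agent.Work.MP_501a10_an.ProdBU
import Mathlib.Topology.ContinuousMap.StoneWeierstrass
import Mathlib.Topology.MetricSpace.HausdorffDimension
import Mathlib.Analysis.SpecialFunctions.Trigonometric.Inverse
import Mathlib.Analysis.SpecialFunctions.Trigonometric.Deriv
import Mathlib.LinearAlgebra.Complex.FiniteDimensional

/-!
The cone over a product of real projective planes: contractible, of dimension `2 n + 1`, and
carrying an Euler class obstruction of rank `n`.
-/

namespace Pool.Agent.Work.MP_501a10_an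

open Module

/-- Nowhere vanishing functions are dense when the space has a low-dimensional smooth
parametrisation. -/
theorem dense_nonvanishing {Y E : Type} [TopologicalSpace Y] [CompactSpace Y]
    [NormedAddCommGroup E] [NormedSpace ℝ E] [FiniteDimensional ℝ E] (Φ : E → Y)
    (hΦ : Function.Surjective Φ)
    (sep : ∀ x y : Y, x ≠ y → ∃ f : C(Y, ℝ), ContDiff ℝ 1 (f ∘ Φ) ∧ f x ≠ f y)
    (j : ℕ) (hj : finrank ℝ E < 2 * j) (h : Y → Fin j → ℂ) (hh : Continuous h) (η : ℝ)
    (hη : 0 < η) :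
    ∃ h' : Y → Fin j → ℂ, Continuous h' ∧ (∀ y, ‖h' y - h y‖ ≤ η) ∧ ∀ y, h' y ≠ 0 := by
  let 𝒜 : Subalgebra ℝ C(Y, ℝ) :=
    { carrier := {f | ContDiff ℝ 1 (f ∘ Φ)}
      mul_mem' := fun {f g} hf hg =>
        (ContDiff.mul (hf : ContDiff ℝ 1 (f ∘ Φ)) (hg : ContDiff ℝ 1 (g ∘ Φ)) :
          ContDiff ℝ 1 fun x => f (Φ x) * g (Φ x))
      add_mem' := fun {f g} hf hg =>
        (ContDiff.add (hf : ContDiff ℝ 1 (f ∘ Φ)) (hg : ContDiff ℝ 1 (g ∘ Φ)) :
          ContDiff ℝ 1 fun x => f (Φ x) + g (Φ x))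
      algebraMap_mem' := fun r => (contDiff_const : ContDiff ℝ 1 fun _ : E => r) }
  have hsep : 𝒜.SeparatesPoints := by
    intro x y hxy
    obtain ⟨f, hf, hne⟩ := sep x y hxy
    exact ⟨f, ⟨f, hf, rfl⟩, hne⟩
  have h1 := fun i : Fin j => ContinuousMap.exists_mem_subalgebra_near_continuous_of_separatesPoints
    𝒜 hsep (fun y => (h y i).re) (by fun_prop) (η / 4) (by positivity)
  have h2 := fun i : Fin j => ContinuousMap.exists_mem_subalgebra_near_continuous_of_separatesPoints
    𝒜 hsep (fun y => (h y i).im) (by fun_prop) (η / 4) (by positivity)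
  choose a ha using h1
  choose b hb using h2
  let P : Y → Fin j → ℂ := fun y i => ((a i : C(Y, ℝ)) y : ℂ) + ((b i : C(Y, ℝ)) y : ℂ) * Complex.I
  have hP : ContDiff ℝ 1 (P ∘ Φ) := by
    rw [contDiff_pi]
    intro i
    have e1 : ContDiff ℝ 1 (fun x => (((a i : C(Y, ℝ)) (Φ x) : ℝ) : ℂ)) :=
      Complex.ofRealCLM.contDiff.comp (a i).2
    have e2 : ContDiff ℝ 1 (fun x => (((b i : C(Y, ℝ)) (Φ x) : ℝ) : ℂ)) :=
      Complex.ofRealCLM.contDiff.comp (b i).2
    exact e1.add (e2.mul contDiff_const)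
  have hd := hP.dense_compl_range_of_finrank_lt_finrank (by
    rw [Module.finrank_pi_fintype]
    simpa [mul_comm] using hj)
  obtain ⟨c, hc, hc'⟩ := hd.exists_dist_lt 0 (ε := η / 2) (by positivity)
  refine ⟨fun y => P y - c, by fun_prop, fun y => ?_, fun y hy => ?_⟩
  · have : ‖P y - h y‖ ≤ η / 2 := by
      rw [pi_norm_le_iff_of_nonneg (by positivity)]
      intro i
      have e : (P y - h y) i = ((((a i : C(Y, ℝ)) y - (h y i).re : ℝ) : ℂ))
          + (((b i : C(Y, ℝ)) y - (h y i).im : ℝ) : ℂ) * Complex.I := by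
        apply Complex.ext <;> simp [P]
      rw [e]
      refine (norm_add_le _ _).trans ?_
      rw [norm_mul, Complex.norm_I, mul_one, Complex.norm_real, Complex.norm_real]
      linarith [ha i y, hb i y]
    have e : P y - c - h y = (P y - h y) - c := by abel
    rw [e]
    refine (norm_sub_le _ _).trans ?_
    rw [dist_comm, dist_zero_right] at hc'
    linarith
  · obtain ⟨x, rfl⟩ := hΦ y
    exact hc ⟨x, sub_eq_zero.1 hy⟩

/-- The cone over a product of projective planes, as a set. -/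
def ConeSet (ι : Type) : Set (ℝ × (ι → Fin 3 → Fin 3 → ℝ)) :=
  {y | 0 ≤ y.1 ∧ y.1 ≤ 1 ∧
    ∀ i, ∃ u : Fin 3 → ℝ, ∑ a, u a ^ 2 = 1 ∧ ∀ a b, y.2 i a b = y.1 * (u a * u b)}

/-- The cone over a product of projective planes. -/
def Cone (ι : Type) : Type := ConeSet ι

instance (ι : Type) : TopologicalSpace (Cone ι) := inferInstanceAs (TopologicalSpace (Subtype _))

instance (ι : Type) : T2Space (Cone ι) := inferInstanceAs (T2Space (Subtype _))

instance (ι : Type) [Finite ι] : SecondCountableTopology (Cone ι) :=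
  inferInstanceAs (SecondCountableTopology (Subtype _))

theorem isCompact_S2 : IsCompact {u : Fin 3 → ℝ | ∑ a, u a ^ 2 = 1} := by
  refine Metric.isCompact_of_isClosed_isBounded (isClosed_eq (by fun_prop) continuous_const) ?_
  refine (Metric.isBounded_closedBall (x := 0) (r := 1)).subset fun u hu => ?_
  rw [mem_closedBall_zero_iff, pi_norm_le_iff_of_nonneg zero_le_one]
  intro a
  have : u a ^ 2 ≤ 1 := by
    rw [← (hu : ∑ a, u a ^ 2 = 1)]
    exact Finset.single_le_sum (f := fun a => u a ^ 2) (fun _ _ => sq_nonneg _) (Finset.mem_univ a)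
  rw [Real.norm_eq_abs, ← sq_le_one_iff_abs_le_one]
  exact this

instance (ι : Type) : CompactSpace (Cone ι) := by
  refine isCompact_iff_compactSpace.1 (?_ : IsCompact (ConeSet ι))
  have hK : IsCompact (Set.Icc (0 : ℝ) 1 ×ˢ
      Set.pi Set.univ fun _ : ι => {u : Fin 3 → ℝ | ∑ a, u a ^ 2 = 1}) :=
    isCompact_Icc.prod (isCompact_univ_pi fun _ => isCompact_S2)
  have hc : Continuous fun p : ℝ × (ι → Fin 3 → ℝ) =>
      ((p.1, fun i a b => p.1 * (p.2 i a * p.2 i b)) : ℝ × (ι → Fin 3 → Fin 3 → ℝ)) := by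
    fun_prop
  convert hK.image hc using 1
  ext y
  constructor
  · rintro ⟨h0, h1, h⟩
    choose u hu hu' using h
    refine ⟨(y.1, u), ⟨⟨h0, h1⟩, fun i _ => hu i⟩, ?_⟩
    ext i a b
    · rfl
    · exact (hu' i a b).symm
  · rintro ⟨p, ⟨⟨h0, h1⟩, h⟩, rfl⟩
    exact ⟨h0, h1, fun i => ⟨p.2 i, h i trivial, fun _ _ => rfl⟩⟩

namespace Cone

variable {ι ι' : Type}

theorem continuous_val : Continuous (fun y : Cone ι => y.1) := continuous_subtype_val

/-- Pull back along a map of index sets. -/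
def res (e : ι → ι') : C(Cone ι', Cone ι) where
  toFun y := ⟨(y.1.1, fun i => y.1.2 (e i)), y.2.1, y.2.2.1, fun i => y.2.2.2 (e i)⟩
  continuous_toFun := Continuous.subtype_mk (by
    have := continuous_val (ι := ι')
    fun_prop) _

theorem res_res {e : ι → ι'} {r : ι' → ι} (h : ∀ i, r (e i) = i) (y : Cone ι) :
    res e (res r y) = y := by
  apply Subtype.ext
  ext i a b
  · rfl
  · change y.1.2 (r (e i)) a b = _
    rw [h]

/-- The contraction to the apex. -/
def scale : C(unitInterval × Cone ι, Cone ι) where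
  toFun p := ⟨((p.1 : ℝ) * p.2.1.1, fun i a b => (p.1 : ℝ) * p.2.1.2 i a b),
    mul_nonneg p.1.2.1 p.2.2.1, mul_le_one₀ p.1.2.2 p.2.2.1 p.2.2.2.1, fun i => by
      obtain ⟨u, hu, hu'⟩ := p.2.2.2.2 i
      exact ⟨u, hu, fun a b => by simp only [hu']; ring⟩⟩
  continuous_toFun := Continuous.subtype_mk (by
    have := continuous_val (ι := ι)
    fun_prop) _

/-- The apex. -/
def apex : Cone ι := ⟨(0, 0), le_rfl, zero_le_one, fun _ =>
  ⟨Pi.single 0 1, by simp [Fin.sum_univ_three], fun _ _ => by simp⟩⟩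

theorem scale_one (y : Cone ι) : scale (1, y) = y := by
  apply Subtype.ext
  ext i a b
  · exact one_mul _
  · exact one_mul _

theorem scale_zero (y : Cone ι) : scale (0, y) = apex := by
  apply Subtype.ext
  ext i a b
  · exact zero_mul _
  · exact zero_mul _

/-- The point of the base given by unit vectors. -/
def pt (u : ι → Fin 3 → ℝ) (hu : ∀ i, ∑ a, u i a ^ 2 = 1) : Cone ι :=
  ⟨(1, fun i a b => u i a * u i b), zero_le_one, le_rfl, fun i => ⟨u i, hu i, fun _ _ => by simp⟩⟩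

theorem res_pt (e : ι → ι') (u : ι' → Fin 3 → ℝ) (hu : ∀ i, ∑ a, u i a ^ 2 = 1) :
    res e (pt u hu) = pt (fun i => u (e i)) (fun i => hu (e i)) := rfl

/-- Inverse stereographic projection. -/
noncomputable def ster (p : ℝ × ℝ) : Fin 3 → ℝ :=
  fun a => ![2 * p.1, 2 * p.2, 1 - p.1 ^ 2 - p.2 ^ 2] a / (1 + p.1 ^ 2 + p.2 ^ 2)

theorem ster_sq (p : ℝ × ℝ) : ∑ a, ster p a ^ 2 = 1 := by
  have : (1 + p.1 ^ 2 + p.2 ^ 2) ≠ 0 := by positivity
  simp only [ster, Fin.sum_univ_three, Matrix.cons_val_zero, Matrix.cons_val_one,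
    Matrix.cons_val]
  field_simp
  ring

theorem ster_contDiff (a : Fin 3) : ContDiff ℝ 1 (fun p => ster p a) := by
  refine ContDiff.div ?_ (by fun_prop) (fun p => by positivity)
  fin_cases a <;> simp <;> fun_prop

theorem ster_surj (u : Fin 3 → ℝ) (hu : ∑ a, u a ^ 2 = 1) :
    ∃ p, ∀ a b, ster p a * ster p b = u a * u b := by
  have key : ∀ u : Fin 3 → ℝ, ∑ a, u a ^ 2 = 1 → 0 ≤ u 2 → ∃ p, ster p = u := by
    intro u hu h2
    refine ⟨(u 0 / (1 + u 2), u 1 / (1 + u 2)), ?_⟩
    have h : 1 + u 2 ≠ 0 := by positivity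
    rw [Fin.sum_univ_three] at hu
    have e : 1 + (u 0 / (1 + u 2)) ^ 2 + (u 1 / (1 + u 2)) ^ 2 = 2 / (1 + u 2) := by
      field_simp
      linear_combination hu
    ext a
    simp only [ster, e]
    fin_cases a
    · simp only [Fin.zero_eta, Matrix.cons_val_zero]; field_simp
    · simp only [Fin.mk_one, Matrix.cons_val_one, Matrix.cons_val_zero]; field_simp
    · simp only [Fin.reduceFinMk, Matrix.cons_val]
      field_simp
      linear_combination -hu
  rcases le_total 0 (u 2) with h | h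
  · obtain ⟨p, hp⟩ := key u hu h
    exact ⟨p, fun a b => by rw [hp]⟩
  · obtain ⟨p, hp⟩ := key (-u) (by simpa using hu) (by simpa using h)
    exact ⟨p, fun a b => by simp [hp]⟩

/-- Nowhere vanishing functions to `ℂ ^ j` are dense on the cone if `j` exceeds the number of
factors. -/
theorem lowDim [Fintype ι] (j : ℕ) (hj : Fintype.card ι < j) (h : Cone ι → Fin j → ℂ)
    (hh : Continuous h) (η : ℝ) (hη : 0 < η) :
    ∃ h' : Cone ι → Fin j → ℂ, Continuous h' ∧ (∀ y, ‖h' y - h y‖ ≤ η) ∧ ∀ y, h' y ≠ 0 := by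
  let Φ : ℝ × (ι → ℝ × ℝ) → Cone ι := fun p =>
    ⟨((1 + Real.sin p.1) / 2, fun i a b => (1 + Real.sin p.1) / 2 * (ster (p.2 i) a * ster (p.2 i) b)),
      by have := Real.neg_one_le_sin p.1; dsimp only; linarith,
      by have := Real.sin_le_one p.1; dsimp only; linarith,
      fun i => ⟨ster (p.2 i), ster_sq _, fun _ _ => rfl⟩⟩
  have hv := continuous_val (ι := ι)
  refine dense_nonvanishing Φ ?_ ?_ j ?_ h hh η hη
  · rintro ⟨⟨t, y⟩, h0, h1, hy⟩
    choose u hu hu' using id hy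
    choose p hp using fun i => ster_surj (u i) (hu i)
    refine ⟨(Real.arcsin (2 * t - 1), p), Subtype.ext ?_⟩
    have : (1 + Real.sin (Real.arcsin (2 * t - 1))) / 2 = t := by
      dsimp only at h0 h1
      rw [Real.sin_arcsin (by linarith) (by linarith)]; ring
    ext i a b
    · exact this
    · simp only [Φ, this, hp]
      exact (hu' i a b).symm
  · intro x y hxy
    by_cases h1 : x.1.1 = y.1.1
    · have : ∃ i a b, x.1.2 i a b ≠ y.1.2 i a b := by
        by_contra hcon
        push Not at hcon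
        exact hxy (Subtype.ext (Prod.ext h1 (by ext i a b; exact hcon i a b)))
      obtain ⟨i, a, b, hne⟩ := this
      refine ⟨⟨fun z => z.1.2 i a b, by fun_prop⟩, ?_, hne⟩
      have e1 : ContDiff ℝ 1 fun p : ℝ × (ι → ℝ × ℝ) => ster (p.2 i) a :=
        (ster_contDiff a).comp (by fun_prop)
      have e2 : ContDiff ℝ 1 fun p : ℝ × (ι → ℝ × ℝ) => ster (p.2 i) b :=
        (ster_contDiff b).comp (by fun_prop)
      change ContDiff ℝ 1 fun p : ℝ × (ι → ℝ × ℝ) =>
        (1 + Real.sin p.1) / 2 * (ster (p.2 i) a * ster (p.2 i) b)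
      exact ContDiff.mul (by fun_prop) (e1.mul e2)
    · refine ⟨⟨fun z => z.1.1, by fun_prop⟩, ?_, h1⟩
      change ContDiff ℝ 1 fun p : ℝ × (ι → ℝ × ℝ) => (1 + Real.sin p.1) / 2
      fun_prop
  · simp only [finrank_prod, finrank_self, finrank_pi_fintype, Finset.sum_const, Finset.card_univ,
      smul_eq_mul]
    omega

end Cone

end Pool.Agent.Work.MP_501a10_an
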