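import Mathlib.Analysis.CStarAlgebra.CStarMatrix
import Mathlib.Analysis.CStarAlgebra.ContinuousFunctionalCalculus.Basic
import Mathlib.Analysis.SpecialFunctions.Pow.Real
import Mathlib.GroupTheory.FreeAbelianGroup
import Mathlib.GroupTheory.QuotientGroup.Defs
import Mathlib.LinearAlgebra.Matrix.Trace
import Mathlib.RingTheory.TwoSidedIdeal.Lattice
import Mathlib.Topology.Algebra.Module.Spaces.WeakDual
import Mathlib.Topology.Connected.PathConnected
import Mathlib.Topology.ContinuousMap.Star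
import Mathlib.Topology.Instances.Matrix

/-!
Definitions for the statement: simple and AH algebras, the Elliott invariant and the radius of
comparison of a unital C*-algebra.
-/

open scoped ComplexOrder NNReal ENNReal Matrix

namespace Pool.Agent.Work.MP_501a10_an

/-- A unital C*-algebra, with its order. -/
structure CStar : Type 1 where
  /-- The underlying type. -/
  carrier : Type
  [alg : CStarAlgebra carrier]
  [ord : PartialOrder carrier]
  [sor : StarOrderedRing carrier]

attribute [instance] CStar.alg CStar.ord CStar.sor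

variable (A B : Type) [CStarAlgebra A] [CStarAlgebra B]

/-- `A` is nonzero and has no closed two-sided ideals except `0` and `A`. -/
def IsSimple : Prop :=
  Nontrivial A ∧ ∀ I : TwoSidedIdeal A, IsClosed (I : Set A) → I = ⊥ ∨ I = ⊤

/-- `A` is the closure of an increasing union of unital copies of algebras `M_k(C(X))`, `X` a
compact metric space: an inductive limit of such algebras with injective unital maps. -/
def IsAH : Prop :=
  ∃ (X : ℕ → Type) (_ : ∀ n, MetricSpace (X n)) (_ : ∀ n, CompactSpace (X n)) (k : ℕ → ℕ)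
    (ψ : ∀ n, Matrix (Fin (k n)) (Fin (k n)) C(X n, ℂ) →⋆ₐ[ℂ] A),
    (∀ n, Function.Injective (ψ n)) ∧ (∀ n, Set.range (ψ n) ⊆ Set.range (ψ (n + 1))) ∧
      Dense (⋃ n, Set.range (ψ n))

variable {A} in
/-- The block diagonal sum of two square matrices. -/
def dsum {m n : ℕ} (a : Matrix (Fin m) (Fin m) A) (b : Matrix (Fin n) (Fin n) A) :
    Matrix (Fin (m + n)) (Fin (m + n)) A :=
  Matrix.reindex finSumFinEquiv finSumFinEquiv (Matrix.fromBlocks a 0 0 b)

/-- The projections in the matrix algebras over `A`. -/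
def Proj : Type := Σ n : ℕ, {p : Matrix (Fin n) (Fin n) A // IsStarProjection p}

/-- The relations `[p ⊕ q] = [p] + [q]`, and `[p] = [q]` for Murray-von Neumann equivalent
projections. -/
def K0rel : Set (FreeAbelianGroup (Proj A)) :=
  {x | ∃ (p q : Proj A) (h : IsStarProjection (dsum p.2.1 q.2.1)),
    x = .of ⟨p.1 + q.1, dsum p.2.1 q.2.1, h⟩ - .of p - .of q} ∪
  {x | ∃ (p q : Proj A) (v : Matrix (Fin q.1) (Fin p.1) A),
    vᴴ * v = p.2.1 ∧ v * vᴴ = q.2.1 ∧ x = .of p - .of q}

/-- The group `K₀(A)`: the Grothendieck group of the classes of projections. -/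
def K0 : Type := FreeAbelianGroup (Proj A) ⧸ AddSubgroup.closure (K0rel A)

noncomputable instance K0group : AddCommGroup (K0 A) :=
  inferInstanceAs (AddCommGroup (FreeAbelianGroup (Proj A) ⧸ AddSubgroup.closure (K0rel A)))

variable {A} in
/-- The class `[p]` of a projection. -/
noncomputable def K0mk (p : Proj A) : K0 A := QuotientAddGroup.mk (.of p)

/-- The positive cone `K₀(A)₊`. -/
def K0pos : Set (K0 A) := Set.range K0mk

/-- The class `[1_A]`. -/
noncomputable def K0one : K0 A := K0mk ⟨1, 1, IsStarProjection.one _⟩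

/-- The unitaries in the matrix algebras over `A`. -/
def Uni : Type := Σ n : ℕ, unitary (Matrix (Fin n) (Fin n) A)

/-- The relations `[u ⊕ v] = [u] + [v]`, `[u] = [v]` for homotopic unitaries, and `[1] = 0`. -/
def K1rel : Set (FreeAbelianGroup (Uni A)) :=
  {x | ∃ (u v : Uni A) (h : dsum u.2.1 v.2.1 ∈ unitary _),
    x = .of ⟨u.1 + v.1, dsum u.2.1 v.2.1, h⟩ - .of u - .of v} ∪
  {x | ∃ (n : ℕ) (u v : unitary (Matrix (Fin n) (Fin n) A)),
    Joined u v ∧ x = .of ⟨n, u⟩ - .of ⟨n, v⟩} ∪
  {x | ∃ n : ℕ, x = .of ⟨n, 1⟩}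

/-- The group `K₁(A)`. -/
def K1 : Type := FreeAbelianGroup (Uni A) ⧸ AddSubgroup.closure (K1rel A)

noncomputable instance K1group : AddCommGroup (K1 A) :=
  inferInstanceAs (AddCommGroup (FreeAbelianGroup (Uni A) ⧸ AddSubgroup.closure (K1rel A)))

/-- The tracial states, with the weak-* topology. -/
def Tr : Type :=
  {τ : WeakDual ℂ A // τ 1 = 1 ∧ (∀ a, 0 ≤ τ (star a * a)) ∧ ∀ a b, τ (a * b) = τ (b * a)}

instance trTop : TopologicalSpace (Tr A) := inferInstanceAs (TopologicalSpace (Subtype _))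

variable {A} in
/-- The value `τ(a) = ∑ τ(aᵢᵢ)` of a tracial state on a matrix. -/
noncomputable def trM (τ : Tr A) {n : ℕ} (a : Matrix (Fin n) (Fin n) A) : ℝ :=
  (τ.1 a.trace).re

variable {A} in
theorem trM_rel (τ : Tr A) : AddSubgroup.closure (K0rel A) ≤
    (FreeAbelianGroup.lift fun p : Proj A => trM τ p.2.1).ker := by
  rw [AddSubgroup.closure_le]
  rintro x (⟨p, q, h, rfl⟩ | ⟨p, q, v, hp, hq, rfl⟩)
  · have : (dsum p.2.1 q.2.1).trace = p.2.1.trace + q.2.1.trace := by
      simp only [dsum, Matrix.trace, Matrix.diag_apply]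
      rw [← finSumFinEquiv.sum_comp]
      simp
    simp [trM, this]
  · have : τ.1 p.2.1.trace = τ.1 q.2.1.trace := by
      rw [← hp, ← hq]
      simp only [Matrix.trace, Matrix.diag_apply, Matrix.mul_apply, map_sum]
      rw [Finset.sum_comm]
      exact Finset.sum_congr rfl fun i _ => Finset.sum_congr rfl fun j _ => τ.2.2.2 _ _
    simp [trM, this]

variable {A} in
/-- The pairing `ρ(τ, [p] - [q]) = τ(p) - τ(q)`. -/
noncomputable def pairing (τ : Tr A) : K0 A →+ ℝ :=
  QuotientAddGroup.lift _ (FreeAbelianGroup.lift fun p : Proj A => trM τ p.2.1) (trM_rel τ)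

/-- `A` and `B` have the same Elliott invariant. -/
def SameElliott : Prop :=
  ∃ (α : K0 A ≃+ K0 B) (_ : K1 A ≃+ K1 B) (γ : Tr B ≃ₜ Tr A),
    α '' K0pos A = K0pos B ∧ α (K0one A) = K0one B ∧
    (∀ (τ σ υ : Tr B) (t : ℝ), 0 ≤ t → t ≤ 1 →
      (∀ b, υ.1 b = t * τ.1 b + (1 - t) * σ.1 b) →
      ∀ a, (γ υ).1 a = t * (γ τ).1 a + (1 - t) * (γ σ).1 a) ∧
    ∀ (τ : Tr B) (g : K0 A), pairing (γ τ) g = pairing τ (α g)

variable {A} in
/-- The power `a ^ (1 / n)` of a positive element. -/
noncomputable def root (n : ℕ) (a : A) : A := cfc (fun t : ℝ => t ^ (1 / n : ℝ)) a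

variable {A} in
/-- Cuntz subequivalence: `a` is a limit of elements `x b x*`. -/
def Cuntz (a b : A) : Prop := a ∈ closure (Set.range fun x => x * b * star x)

variable [PartialOrder A] [StarOrderedRing A]

variable {A} in
/-- The dimension function `d_τ(a) = lim τ(a ^ (1 / n))` on `M_m(A)`. -/
noncomputable def dim (τ : Tr A) {m : ℕ} (a : CStarMatrix (Fin m) (Fin m) A) : ℝ :=
  Filter.limUnder Filter.atTop fun n : ℕ => trM τ (CStarMatrix.ofMatrix.symm (root n a))

/-- If `d_τ(a) + r < d_τ(b)` for all `τ`, then `a ≾ b`. -/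
def HasComparison (r : ℝ≥0) : Prop :=
  ∀ (m : ℕ) (a b : CStarMatrix (Fin m) (Fin m) A), 0 ≤ a → 0 ≤ b →
    (∀ τ : Tr A, dim τ a + r < dim τ b) → Cuntz a b

/-- The radius of comparison. -/
noncomputable def rc : ℝ≥0∞ := ⨅ (r : ℝ≥0) (_ : HasComparison A r), (r : ℝ≥0∞)

end Pool.Agent.Work.MP_501a10_an
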