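import Pool.Agent.Work.MP_501a10_an.Cone

/-!
The Euler class obstruction on the cone, from the Borsuk-Ulam theorem for products of spheres.
-/

namespace Pool.Agent.Work.MP_501a10_an

open Classical in
/-- Normalisation of a vector. -/
noncomputable def nrm (r : Fin 3 → ℝ) : Fin 3 → ℝ :=
  if r = 0 then Pi.single 0 1 else fun a => r a / √(∑ b, r b ^ 2)

theorem sumsq_pos {r : Fin 3 → ℝ} (h : r ≠ 0) : 0 < ∑ b, r b ^ 2 := by
  obtain ⟨a, ha⟩ := Function.ne_iff.1 h
  exact Finset.sum_pos' (fun _ _ => sq_nonneg _) ⟨a, Finset.mem_univ _, sq_pos_of_ne_zero ha⟩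

theorem nrm_sq (r : Fin 3 → ℝ) : ∑ a, nrm r a ^ 2 = 1 := by
  unfold nrm
  split_ifs with h
  · simp [Fin.sum_univ_three]
  · have := sumsq_pos h
    simp only [div_pow, Real.sq_sqrt this.le, ← Finset.sum_div]
    exact div_self this.ne'

theorem nrm_neg {r : Fin 3 → ℝ} (h : r ≠ 0) : nrm (-r) = -nrm r := by
  ext a
  simp [nrm, h, neg_div]

theorem continuousOn_nrm : ContinuousOn nrm {r | r ≠ 0} := by
  refine ContinuousOn.congr (f := fun r a => r a / √(∑ b, r b ^ 2)) ?_ ?_
  · refine continuousOn_pi.2 fun a => ContinuousOn.div (by fun_prop) (by fun_prop) ?_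
    intro r hr
    exact (Real.sqrt_pos.2 (sumsq_pos hr)).ne'
  · intro r hr
    simp only [nrm, if_neg (show r ≠ 0 from hr)]

theorem core {ι J U : Type} [Fintype ι] [Fintype J] [Fintype U]
    (G : Cone ι × (J → ℂ) → ι → Fin 3 → ℂ) (D : Cone ι × (J → ℂ) → U → ℂ)
    (hG : Continuous G) (hD : Continuous D) (oG : ∀ y v, G (y, -v) = -G (y, v))
    (oD : ∀ y v, D (y, -v) = -D (y, v)) (hcard : Fintype.card U < Fintype.card J) :
    ∃ u hu v, v ≠ 0 ∧ (∀ i, ∑ a, (u i a : ℂ) * G (Cone.pt u hu, v) i a = 0) ∧
      D (Cone.pt u hu, v) = 0 := by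
  classical
  obtain ⟨emb⟩ : Nonempty (Option U ↪ J) :=
    Function.Embedding.nonempty_of_card_le (by simpa using hcard)
  let g : (ι × Bool) ⊕ (U × Bool) → Option ι := Sum.elim (fun p => some p.1) (fun _ => none)
  let χ : (ι × Bool) ⊕ (U × Bool) → Option ι → ZMod 2 :=
    Sum.elim (fun p k => if k = some p.1 ∨ k = none then 1 else 0)
      (fun _ k => if k = none then 1 else 0)
  let ρ : (ι × Bool) ⊕ (U × Bool) → ℕ := Sum.elim (fun _ => 0) (fun _ => 1)
  let raw : (Option ι ⊕ ((ι × Bool) ⊕ (U × Bool)) → ℝ) → ι → Fin 3 → ℝ := fun x i =>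
    ![x (.inl (some i)), x (.inr (.inl (i, false))), x (.inr (.inl (i, true)))]
  let val : (Option ι ⊕ ((ι × Bool) ⊕ (U × Bool)) → ℝ) → Option U → ℂ := fun x o =>
    o.elim (x (.inl none) : ℂ) fun c =>
      (x (.inr (.inr (c, false))) : ℂ) + (x (.inr (.inr (c, true))) : ℂ) * Complex.I
  let vec : (Option ι ⊕ ((ι × Bool) ⊕ (U × Bool)) → ℝ) → J → ℂ := fun x j =>
    ∑ o, if emb o = j then val x o else 0
  let P : (Option ι ⊕ ((ι × Bool) ⊕ (U × Bool)) → ℝ) → Cone ι := fun x =>
    Cone.pt (fun i => nrm (raw x i)) fun i => nrm_sq _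
  let part : Bool → ℂ → ℝ := fun b z => if b then z.im else z.re
  let f : (Option ι ⊕ ((ι × Bool) ⊕ (U × Bool)) → ℝ) → (ι × Bool) ⊕ (U × Bool) → ℝ := fun x =>
    Sum.elim (fun p => part p.2 (∑ a, (nrm (raw x p.1) a : ℂ) * G (P x, vec x) p.1 a))
      (fun p => part p.2 (D (P x, vec x) p.1))
  have hraw : ∀ x ∈ Sph g, ∀ i, raw x i ≠ 0 := by
    intro x hx i h0
    have h := hx (some i)
    have e0 := congrFun h0 0
    have e1 := congrFun h0 1
    have e2 := congrFun h0 2
    simp only [raw, Matrix.cons_val_zero, Matrix.cons_val_one, Matrix.cons_val,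
      Pi.zero_apply] at e0 e1 e2
    rw [Finset.sum_eq_zero] at h
    · exact zero_ne_one h
    · rintro (k | ⟨i', b⟩ | c) hc
      · have : k = some i := (Finset.mem_filter.1 hc).2
        rw [this, e0, abs_zero]
      · have : i' = i := Option.some.inj (Finset.mem_filter.1 hc).2
        subst this
        cases b
        · rw [e1, abs_zero]
        · rw [e2, abs_zero]
      · exact absurd (Finset.mem_filter.1 hc).2 (by simp [grp, g])
  have hvec : ∀ x ∈ Sph g, vec x ≠ 0 := by
    intro x hx h0
    have hv : ∀ o, val x o = 0 := by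
      intro o
      have := congrFun h0 (emb o)
      simpa only [vec, EmbeddingLike.apply_eq_iff_eq, Finset.sum_ite_eq', Finset.mem_univ,
        if_true, Pi.zero_apply] using this
    have h := hx none
    rw [Finset.sum_eq_zero] at h
    · exact zero_ne_one h
    · rintro (k | ⟨i', b⟩ | ⟨c, b⟩) hc
      · have : k = none := (Finset.mem_filter.1 hc).2
        have e := hv none
        simp only [val, Option.elim_none, Complex.ofReal_eq_zero] at e
        rw [this, e, abs_zero]
      · exact absurd (Finset.mem_filter.1 hc).2 (by simp [grp, g])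
      · have e := hv (some c)
        simp only [val, Option.elim_some, Complex.ext_iff] at e
        cases b
        · simpa using e.1
        · simpa using e.2
  have hpart : ∀ b, Continuous (part b) := by
    intro b; cases b <;> simp only [part] <;> simp <;> fun_prop
  have hpneg : ∀ b z, part b (-z) = -part b z := by
    intro b z; cases b <;> simp [part]
  have hcraw : ∀ i, Continuous fun x => raw x i := by
    intro i
    refine continuous_pi fun a => ?_
    fin_cases a <;> simp [raw] <;> fun_prop
  have hcn : ∀ i, ContinuousOn (fun x => nrm (raw x i)) (Sph g) := fun i =>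
    continuousOn_nrm.comp (hcraw i).continuousOn fun x hx => hraw x hx i
  have hcv : Continuous vec := by
    refine continuous_pi fun j => continuous_finsetSum _ fun o _ => ?_
    split_ifs
    · cases o <;> simp only [val, Option.elim_none, Option.elim_some] <;> fun_prop
    · exact continuous_const
  have hcP : ContinuousOn P (Sph g) := by
    refine Topology.IsInducing.subtypeVal.continuousOn_iff.2 ?_
    refine ContinuousOn.prodMk continuousOn_const ?_
    refine continuousOn_pi.2 fun i => continuousOn_pi.2 fun a => continuousOn_pi.2 fun b => ?_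
    exact (continuousOn_pi.1 (hcn i) a).mul (continuousOn_pi.1 (hcn i) b)
  have hcG : ContinuousOn (fun x => G (P x, vec x)) (Sph g) :=
    hG.comp_continuousOn (hcP.prodMk hcv.continuousOn)
  have hcD : ContinuousOn (fun x => D (P x, vec x)) (Sph g) :=
    hD.comp_continuousOn (hcP.prodMk hcv.continuousOn)
  obtain ⟨x, hx, hfx⟩ := prod_bu g χ ρ (by rintro (p | p) <;> simp [χ, g])
    (by rintro (p | p) (q | q) <;> simp +contextual [χ, g, ρ]) f
    (by
      refine continuousOn_pi.2 ?_
      rintro (p | p)
      · refine (hpart p.2).comp_continuousOn (continuousOn_finsetSum _ fun a _ => ?_)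
        exact (Complex.continuous_ofReal.comp_continuousOn (continuousOn_pi.1 (hcn p.1) a)).mul
          (continuousOn_pi.1 (continuousOn_pi.1 hcG p.1) a)
      · exact (hpart p.2).comp_continuousOn (continuousOn_pi.1 hcD p.1))
    (by
      intro k x hx j
      have e1 : ∀ i, nrm (raw (flip g k x) i)
          = if k = some i then -nrm (raw x i) else nrm (raw x i) := by
        intro i
        split_ifs with h
        · rw [← nrm_neg (hraw x hx i)]
          congr 1
          ext a
          fin_cases a <;> simp [raw, flip, grp, g, h]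
        · congr 1
          ext a
          fin_cases a <;> simp [raw, flip, grp, g, Ne.symm h]
      have e2 : P (flip g k x) = P x := by
        apply Subtype.ext
        ext i a b
        · rfl
        · change nrm (raw (flip g k x) i) a * nrm (raw (flip g k x) i) b
            = nrm (raw x i) a * nrm (raw x i) b
          rw [e1]
          split_ifs <;> simp
      have e3 : vec (flip g k x) = if k = none then -vec x else vec x := by
        have : ∀ o, val (flip g k x) o = if k = none then -val x o else val x o := by
          intro o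
          split_ifs with h
          · cases o <;> simp [val, flip, grp, g, h]
            ring
          · cases o <;> simp [val, flip, grp, g, Ne.symm h]
        ext j
        split_ifs with h
        · simp only [vec, this, if_pos h, Pi.neg_apply, ← Finset.sum_neg_distrib]
          refine Finset.sum_congr rfl fun o _ => ?_
          split_ifs <;> simp
        · simp only [vec, this, h, if_false]
      rcases j with p | p
      · simp only [f, Sum.elim_inl, e1, e2, e3, χ]
        by_cases h1 : k = some p.1
        · subst h1
          simp [← hpneg]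
        · by_cases h2 : k = none
          · subst h2
            simp [← hpneg, oG]
          · simp [h1, h2]
      · simp only [f, Sum.elim_inr, e2, e3, χ]
        by_cases h2 : k = none
        · subst h2
          simp [← hpneg, oD]
        · simp [h2])
  refine ⟨fun i => nrm (raw x i), fun i => nrm_sq _, vec x, hvec x hx, fun i => ?_, ?_⟩
  · exact Complex.ext (congrFun hfx (.inl (i, false))) (congrFun hfx (.inl (i, true)))
  · ext c
    exact Complex.ext (congrFun hfx (.inr (c, false))) (congrFun hfx (.inr (c, true)))

end Pool.Agent.Work.MP_501a10_an
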