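import Pool.Agent.Work.MP_501a10_an.Simple
import Pool.Agent.Work.MP_501a10_an.Obstr

/-!
Matrix functions on the cone whose restriction to the base is dominated by a sum of tautological
line bundles and a trivial bundle, and the resulting rank obstruction.
-/

open Matrix
open scoped Matrix.Norms.L2Operator ComplexOrder

set_option linter.unusedSectionVars false

noncomputable section

namespace Pool.Agent.Work.MP_501a10_an

/-- On the base of the cone, `F` factors through the line bundles and a trivial bundle of rank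
`u`. -/
def Form {ι I : Type} [Fintype I] (F : Cone ι → Matrix I I ℂ) (u : ℕ) : Prop :=
  ∃ (U : Type) (_ : Fintype U), Fintype.card U = u ∧
    ∃ (B : (I → ℂ) →ₗ[ℂ] (ι → Fin 3 → ℂ)) (D : (I → ℂ) →ₗ[ℂ] (U → ℂ)),
      ∀ u hu ξ, (∀ i, ∑ a, (u i a : ℂ) * B ξ i a = 0) → D ξ = 0 → F (Cone.pt u hu) *ᵥ ξ = 0

theorem Form.step {ι ι' I I' L₁ L₂ V : Type} [Fintype ι] [Fintype I] [Fintype I'] [Fintype L₁]
    [Fintype L₂] [Fintype V] [DecidableEq L₁] [DecidableEq L₂] {F : Cone ι → Matrix I I ℂ} {u : ℕ}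
    (hF : Form F u) (E : I' ≃ I × (L₁ ⊕ L₂)) (emb : L₁ × ι → ι')
    (hemb : Function.Injective emb) (G : Cone ι' → L₁ ⊕ L₂ → Matrix I I ℂ)
    (h1 : ∀ y j, G y (.inl j) = F (Cone.res (fun i => emb (j, i)) y))
    (D₂ : (I → ℂ) →ₗ[ℂ] (V → ℂ)) (h2 : ∀ y l ξ, D₂ ξ = 0 → G y (.inr l) *ᵥ ξ = 0) :
    Form (fun y => (blockDiagonal (G y)).submatrix E E)
      (Fintype.card L₁ * u + Fintype.card L₂ * Fintype.card V) := by
  classical
  obtain ⟨U, _, rfl, B, D, h⟩ := hF
  let sel : L₁ ⊕ L₂ → (I' → ℂ) →ₗ[ℂ] (I → ℂ) := fun l =>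
    LinearMap.funLeft ℂ ℂ fun i => E.symm (i, l)
  refine ⟨L₁ × U ⊕ L₂ × V, inferInstance, by simp,
    LinearMap.pi fun i' => ∑ p, if emb p = i' then
      (LinearMap.proj p.2).comp (B.comp (sel (.inl p.1))) else 0,
    LinearMap.pi (Sum.elim (fun p => (LinearMap.proj p.2).comp (D.comp (sel (.inl p.1))))
      fun p => (LinearMap.proj p.2).comp (D₂.comp (sel (.inr p.1)))), fun u hu ξ hB hD => ?_⟩
  have key : ∀ l, G (Cone.pt u hu) l *ᵥ sel l ξ = 0 := by
    rintro (j | l)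
    · rw [h1, Cone.res_pt]
      refine h _ _ _ (fun i => ?_) (funext fun c => congrFun hD (.inl (j, c)))
      have := hB (emb (j, i))
      simpa [hemb.eq_iff] using this
    · exact h2 _ _ _ (funext fun c => congrFun hD (.inr (l, c)))
  ext a
  rw [bd_mulVec]
  exact congrFun (key (E a).2) (E a).1

theorem Form.obstruct {ι I J R : Type} [Fintype ι] [Fintype I] [Fintype J] [Fintype R]
    [DecidableEq J] {F : Cone ι → Matrix I I ℂ} {u : ℕ} (hF : Form F u)
    (X : Cone ι → Matrix J I ℂ) {W : Cone ι → Matrix I J ℂ} (hW : Continuous W)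
    (X' : Cone ι → Matrix J R ℂ) {W' : Cone ι → Matrix R J ℂ} (hW' : Continuous W')
    (hu : ∀ y, IsUnit (X y * F y * W y + X' y * W' y)) :
    Fintype.card J ≤ u + Fintype.card R := by
  obtain ⟨U, _, rfl, B, D, h⟩ := hF
  by_contra hcon
  have hc : Continuous fun p : Cone ι × (J → ℂ) => W p.1 *ᵥ p.2 :=
    (hW.comp continuous_fst).matrix_mulVec continuous_snd
  have hc' : Continuous fun p : Cone ι × (J → ℂ) => W' p.1 *ᵥ p.2 :=
    (hW'.comp continuous_fst).matrix_mulVec continuous_snd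
  obtain ⟨u, hu', v, hv, h1, h2⟩ := core (U := U ⊕ R) (fun p => B (W p.1 *ᵥ p.2))
    (fun p => Sum.elim (D (W p.1 *ᵥ p.2)) (W' p.1 *ᵥ p.2))
    (B.continuous_of_finiteDimensional.comp hc)
    (continuous_pi fun c => by
      rcases c with c | c
      · exact (continuous_apply c).comp (D.continuous_of_finiteDimensional.comp hc)
      · exact (continuous_apply c).comp hc')
    (fun y v => by simp only [mulVec_neg, map_neg])
    (fun y v => by
      ext (c | c) <;> simp [mulVec_neg])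
    (by simpa using hcon)
  have h3 := h u hu' _ h1 (funext fun c => congrFun h2 (.inl c))
  have h4 : W' (Cone.pt u hu') *ᵥ v = 0 := funext fun c => congrFun h2 (.inr c)
  apply hv
  apply mulVec_injective_iff_isUnit.2 (hu (Cone.pt u hu'))
  rw [add_mulVec, ← mulVec_mulVec, ← mulVec_mulVec, ← mulVec_mulVec, h3, h4]
  simp

/-- The matrix coordinate of the cone over one projective plane. -/
def yy : MF (Cone Unit) (Fin 3) (Fin 3) :=
  ⟨fun y => Matrix.of fun a b => (y.1.2 () a b : ℂ), continuous_matrix fun a b => by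
    have := Cone.continuous_val (ι := Unit)
    simp only [of_apply]
    fun_prop⟩

/-- The height on the cone. -/
def tt : C(Cone Unit, ℝ) := ⟨fun y => y.1.1, continuous_fst.comp Cone.continuous_val⟩

theorem yy_facts (y : Cone Unit) :
    (yy y)ᴴ = yy y ∧ yy y * yy y = (tt y : ℂ) • yy y ∧ (yy y).trace = tt y := by
  obtain ⟨u, hu, h⟩ := y.2.2.2 ()
  have e : ∀ a b, yy y a b = tt y * (u a * u b) := fun a b => by
    change ((y.1.2 () a b : ℝ) : ℂ) = _
    rw [h]
    push_cast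
    rfl
  have hu' : (u 0 : ℂ) ^ 2 + u 1 ^ 2 + u 2 ^ 2 = 1 := by
    rw [Fin.sum_univ_three] at hu
    exact_mod_cast hu
  refine ⟨?_, ?_, ?_⟩
  · ext a b
    simp [e, mul_comm]
  · ext a b
    simp only [mul_apply, Fin.sum_univ_three, e, Matrix.smul_apply, smul_eq_mul]
    linear_combination (tt y * tt y * u a * u b : ℂ) * hu'
  · simp only [trace, diag_apply, Fin.sum_univ_three, e]
    linear_combination (tt y : ℂ) * hu'

/-- A contraction that is the tautological projection on the base and invertible elsewhere. -/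
def gg : MF (Cone Unit) (Fin 3) (Fin 3) :=
  ⟨fun y => (((1 - tt y ^ 2) / (1 + tt y ^ 2) : ℝ) : ℂ) • 1
      + ((2 * tt y / (1 + tt y ^ 2) : ℝ) : ℂ) • yy y, by
    refine Continuous.add (Continuous.smul (Complex.continuous_ofReal.comp ?_) continuous_const)
      (Continuous.smul (Complex.continuous_ofReal.comp ?_) yy.2)
    · exact Continuous.div (by fun_prop) (by fun_prop) fun y => by positivity
    · exact Continuous.div (by fun_prop) (by fun_prop) fun y => by positivity⟩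

/-- The defect of `gg`. -/
def dd : MF (Cone Unit) (Fin 3) (Fin 3) :=
  ⟨fun y => ((2 * tt y / (1 + tt y ^ 2) : ℝ) : ℂ) • 1
      - ((2 / (1 + tt y ^ 2) : ℝ) : ℂ) • yy y, by
    refine Continuous.sub (Continuous.smul (Complex.continuous_ofReal.comp ?_) continuous_const)
      (Continuous.smul (Complex.continuous_ofReal.comp ?_) yy.2)
    · exact Continuous.div (by fun_prop) (by fun_prop) fun y => by positivity
    · exact Continuous.div (by fun_prop) (by fun_prop) fun y => by positivity⟩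

theorem sq_aux (y : Cone Unit) (α β : ℝ) :
    ((α : ℂ) • 1 + (β : ℂ) • yy y)ᴴ * ((α : ℂ) • 1 + (β : ℂ) • yy y)
      = ((α ^ 2 : ℝ) : ℂ) • 1 + ((2 * α * β + β ^ 2 * tt y : ℝ) : ℂ) • yy y := by
  obtain ⟨h1, h2, -⟩ := yy_facts y
  simp only [conjTranspose_add, conjTranspose_smul, conjTranspose_one, h1, add_mul, mul_add,
    smul_mul_assoc, mul_smul_comm, one_mul, mul_one, h2, RCLike.star_def, Complex.conj_ofReal]
  push_cast
  module

theorem gg_dd : star gg * gg = 1 - star dd * dd := by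
  refine ContinuousMap.ext fun y => ?_
  have h1 := sq_aux y ((1 - tt y ^ 2) / (1 + tt y ^ 2)) (2 * tt y / (1 + tt y ^ 2))
  have h2 := sq_aux y (2 * tt y / (1 + tt y ^ 2)) (-(2 / (1 + tt y ^ 2)))
  rw [Complex.ofReal_neg, neg_smul, ← sub_eq_add_neg] at h2
  refine h1.trans (eq_sub_of_add_eq ?_)
  rw [show (star dd * dd) y = _ from h2]
  have hne : 1 + tt y ^ 2 ≠ 0 := by positivity
  rw [add_add_add_comm, ← add_smul, ← add_smul, ← Complex.ofReal_add, ← Complex.ofReal_add]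
  have e1 : ((1 - tt y ^ 2) / (1 + tt y ^ 2)) ^ 2 + (2 * tt y / (1 + tt y ^ 2)) ^ 2 = 1 := by
    field_simp
    ring
  have e2 : 2 * ((1 - tt y ^ 2) / (1 + tt y ^ 2)) * (2 * tt y / (1 + tt y ^ 2))
      + (2 * tt y / (1 + tt y ^ 2)) ^ 2 * tt y + (2 * (2 * tt y / (1 + tt y ^ 2))
      * -(2 / (1 + tt y ^ 2)) + (-(2 / (1 + tt y ^ 2))) ^ 2 * tt y) = 0 := by
    field_simp
    ring
  rw [e1, e2]
  simp

theorem trace_gg (y : Cone Unit) : 1 ≤ ((star gg * gg) y).trace.re := by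
  have h1 := sq_aux y ((1 - tt y ^ 2) / (1 + tt y ^ 2)) (2 * tt y / (1 + tt y ^ 2))
  have h2 : (star gg * gg) y = _ := h1
  rw [h2, trace_add, trace_smul, trace_smul, (yy_facts y).2.2, trace_one]
  simp only [Fintype.card_fin, smul_eq_mul, Nat.cast_ofNat, Complex.add_re, Complex.re_ofReal_mul,
    Complex.ofReal_re, Complex.re_ofNat]
  have hne : 0 < 1 + tt y ^ 2 := by positivity
  have e : ((1 - tt y ^ 2) / (1 + tt y ^ 2)) ^ 2 * 3 + (2 * ((1 - tt y ^ 2) / (1 + tt y ^ 2))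
      * (2 * tt y / (1 + tt y ^ 2)) + (2 * tt y / (1 + tt y ^ 2)) ^ 2 * tt y) * tt y
      = 1 + 2 * ((1 - tt y ^ 2) / (1 + tt y ^ 2)) ^ 2 := by
    field_simp
    ring
  rw [e]
  nlinarith [sq_nonneg ((1 - tt y ^ 2) / (1 + tt y ^ 2))]

theorem gg_pt (u : Unit → Fin 3 → ℝ) (hu : ∀ i, ∑ a, u i a ^ 2 = 1) (ξ : Fin 3 → ℂ)
    (h : ∑ a, (u () a : ℂ) * ξ a = 0) : (star gg * gg) (Cone.pt u hu) *ᵥ ξ = 0 := by
  have h1 : gg (Cone.pt u hu) = yy (Cone.pt u hu) := by
    have : tt (Cone.pt u hu) = 1 := rfl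
    simp only [gg, ContinuousMap.coe_mk, this]
    norm_num
  have h2 : gg (Cone.pt u hu) *ᵥ ξ = 0 := by
    rw [h1]
    ext a
    change ∑ b, ((u () a * u () b : ℝ) : ℂ) * ξ b = 0
    simp only [Complex.ofReal_mul, mul_assoc, ← Finset.mul_sum, h, mul_zero]
  rw [ContinuousMap.mul_apply, ← mulVec_mulVec, h2, mulVec_zero]

theorem form_gg : Form (fun y => (star gg * gg) y) 0 :=
  ⟨Empty, inferInstance, rfl, LinearMap.pi fun _ => LinearMap.id, 0,
    fun u hu ξ h _ => gg_pt u hu ξ (h ())⟩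

/-- A point of the base. -/
def e0 : Cone Unit := Cone.pt (fun _ => Pi.single 0 1) fun _ => by simp [Fin.sum_univ_three]

theorem gg_e0 (ξ : Fin 3 → ℂ) (h : LinearMap.funLeft ℂ ℂ (fun _ : Unit => (0 : Fin 3)) ξ = 0) :
    (star gg * gg) e0 *ᵥ ξ = 0 := by
  refine gg_pt _ _ _ ?_
  have : ξ 0 = 0 := congrFun h ()
  simp [Fin.sum_univ_three, this]

end Pool.Agent.Work.MP_501a10_an
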