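import Pool.Agent.Work.MP_501a10_an.Traces
import Mathlib.FieldTheory.IsAlgClosed.Spectrum

/-!
An isomorphism invariant measuring comparison at one trace, and general facts on dimension
functions.
-/

open Filter Topology Matrix
open scoped ComplexOrder

set_option linter.unusedSectionVars false

noncomputable section

namespace Pool.Agent.Work.MP_501a10_an

section Invariant

variable {A B : Type} [CStarAlgebra A] [CStarAlgebra B]

/-- The pull back of a trace. -/
def Tr.comap (π : B ≃⋆ₐ[ℂ] A) (τ : Tr A) : Tr B :=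
  ⟨(τ.1 : A →L[ℂ] ℂ).comp ⟨(π : B →ₗ[ℂ] A), (StarAlgEquiv.isometry π).continuous⟩,
    (congrArg τ.1 (map_one π)).trans τ.2.1,
    fun b => by
      have := τ.2.2.1 (π b)
      rwa [← map_star, ← map_mul] at this,
    fun a b => by
      have := τ.2.2.2 (π a) (π b)
      rwa [← map_mul, ← map_mul] at this⟩

theorem trM_comap (π : B ≃⋆ₐ[ℂ] A) (τ : Tr A) {n : ℕ} (a : Matrix (Fin n) (Fin n) B) :
    trM (τ.comap π) a = trM τ (a.map π) :=
  congrArg (fun x => (τ.1 x).re) (AddMonoidHom.map_trace π a)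

/-- The numbers `t` such that, for some trace `τ`, every contraction with all traces at least
one dominates the unit after adding a projection of trace at most `t`. -/
def RR (A : Type) [CStarAlgebra A] : Set ℝ :=
  {t | ∃ τ : Tr A, ∀ y : Matrix (Fin 3) (Fin 3) A, (∀ σ : Tr A, 1 ≤ trM σ (1 - yᴴ * y)) →
    ∃ (p : Matrix (Fin 1) (Fin 1) A) (w : Matrix (Fin 3) (Fin 1) A),
      IsStarProjection p ∧ trM τ p ≤ t ∧ IsUnit (wᴴ * (1 - yᴴ * y) * w + p)}

theorem map_defect (π : A ≃⋆ₐ[ℂ] B) (y : Matrix (Fin 3) (Fin 3) A) :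
    (1 - yᴴ * y).map π = 1 - (y.map π)ᴴ * y.map π := by
  rw [Matrix.map_sub _ (map_sub π), Matrix.map_one _ (map_zero π) (map_one π), Matrix.map_mul,
    conjTranspose_map π (map_star π)]

theorem RR_mono (π : A ≃⋆ₐ[ℂ] B) : RR A ⊆ RR B := by
  rintro t ⟨τ, h⟩
  refine ⟨τ.comap π.symm, fun y hy => ?_⟩
  obtain ⟨p, w, hp, ht, hu⟩ := h (y.map π.symm) fun σ => by
    rw [← map_defect, ← trM_comap]
    exact hy _
  have hyy : (y.map π.symm).map π = y := by
    ext i j
    simp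
  refine ⟨p.map π, w.map π, ⟨?_, ?_⟩, ?_, ?_⟩
  · rw [IsIdempotentElem, ← Matrix.map_mul, hp.isIdempotentElem.eq]
  · rw [IsSelfAdjoint, star_eq_conjTranspose, ← conjTranspose_map π (map_star π)]
    exact congrArg (fun q => Matrix.map q π) hp.isSelfAdjoint.star_eq
  · rw [trM_comap]
    convert ht using 2
    ext i j
    simp
  · have := hu.map (π : A →+* B).mapMatrix
    change IsUnit (Matrix.map _ π) at this
    rwa [Matrix.map_add _ (map_add π), Matrix.map_mul, Matrix.map_mul, map_defect, hyy,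
      conjTranspose_map π (map_star π)] at this

theorem sr_decomp (Y : B) {η : ℝ} (hη : 0 ≤ η) :
    ∃ s r : B, star s = s ∧ star r = r ∧ s * s - r * r = 1 - star Y * Y - (η : ℂ) • 1 ∧
      s * r = 0 ∧ ‖s * s‖ ≤ 1 := by
  have he : IsSelfAdjoint (star Y * Y) := .star_mul_self Y
  refine ⟨cfc (fun t : ℝ => √(1 - η - t)) (star Y * Y),
    cfc (fun t : ℝ => √(t - (1 - η))) (star Y * Y), (cfc_predicate _ _ : IsSelfAdjoint _),
    (cfc_predicate _ _ : IsSelfAdjoint _), ?_, ?_, ?_⟩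
  · have e : 1 - star Y * Y - (η : ℂ) • 1 = cfc (fun t : ℝ => 1 - η - t) (star Y * Y) := by
      rw [cfc_sub _ _ _, cfc_const _ _, cfc_id' ℝ _, map_sub, map_one, Complex.coe_smul,
        Algebra.algebraMap_eq_smul_one, sub_right_comm]
    rw [← cfc_mul _ _ _, ← cfc_mul _ _ _, ← cfc_sub _ _ _, e]
    refine cfc_congr fun t _ => ?_
    rcases le_total t (1 - η) with h | h
    · simp [Real.sqrt_eq_zero_of_nonpos (sub_nonpos.2 h), Real.mul_self_sqrt (sub_nonneg.2 h)]
    · simp [Real.sqrt_eq_zero_of_nonpos (sub_nonpos.2 h), Real.mul_self_sqrt (sub_nonneg.2 h)]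
  · rw [← cfc_mul _ _ _, ← cfc_zero ℝ (star Y * Y)]
    refine cfc_congr fun t _ => ?_
    rcases le_total t (1 - η) with h | h
    · simp [Real.sqrt_eq_zero_of_nonpos (sub_nonpos.2 h)]
    · simp [Real.sqrt_eq_zero_of_nonpos (sub_nonpos.2 h)]
  · rw [← cfc_mul _ _ _]
    refine norm_cfc_le zero_le_one fun t ht => ?_
    have := spectrum_star_mul_self_nonneg t ht
    rcases le_total t (1 - η) with h | h
    · rw [Real.mul_self_sqrt (sub_nonneg.2 h), Real.norm_of_nonneg (sub_nonneg.2 h)]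
      linarith
    · simp [Real.sqrt_eq_zero_of_nonpos (sub_nonpos.2 h)]

end Invariant

variable {A : Type} [CStarAlgebra A] [PartialOrder A] [StarOrderedRing A]

theorem rect_nonneg {N : Type} [Fintype N] (v : Matrix N (Fin 1) A) :
    0 ≤ CStarMatrix.ofMatrix (vᴴ * v) := by
  have : CStarMatrix.ofMatrix (vᴴ * v) = ∑ i, star (CStarMatrix.ofMatrix (of fun _ b => v i b))
      * (CStarMatrix.ofMatrix (of fun _ b => v i b) : CStarMatrix (Fin 1) (Fin 1) A) := by
    change vᴴ * v = ∑ i, (of fun (_ : Fin 1) b => v i b)ᴴ * (of fun _ b => v i b)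
    ext a b
    simp [mul_apply, Matrix.sum_apply]
  rw [this]
  exact Finset.sum_nonneg fun i _ => star_mul_self_nonneg _

theorem exists_sq {x : A} (hx : 0 ≤ x) : ∃ d, x = star d * d :=
  CStarAlgebra.nonneg_iff_eq_star_mul_self.1 hx

theorem root_proj {a : A} (ha : IsStarProjection a) {n : ℕ} (hn : 0 < n) : root n a = a := by
  have := ha.isSelfAdjoint
  rw [root]
  conv_rhs => rw [← cfc_id' ℝ a]
  refine cfc_congr fun t ht => ?_
  rcases ha.isIdempotentElem.spectrum_subset ℝ ht with rfl | rfl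
  · exact Real.zero_rpow (by positivity)
  · exact Real.one_rpow _

theorem root_facts {b : A} (h0 : 0 ≤ b) (h1 : b ≤ 1) :
    (Monotone fun n : ℕ => root (n + 1) b) ∧ (∀ n, root n b ≤ 1) ∧ root (0 + 1) b = b := by
  have hs : ∀ t ∈ spectrum ℝ b, 0 ≤ t ∧ t ≤ 1 := fun t ht =>
    ⟨spectrum_nonneg_of_nonneg h0 ht, (CFC.le_one_iff (R := ℝ) b).1 h1 t ht⟩
  have hc : ∀ n : ℕ, Continuous fun t : ℝ => t ^ (1 / n : ℝ) := fun n =>
    Real.continuous_rpow_const (by positivity)
  refine ⟨fun n n' hn => ?_, fun n => cfc_le_one _ _ fun t ht =>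
    Real.rpow_le_one (hs t ht).1 (hs t ht).2 (by positivity), ?_⟩
  · refine cfc_mono (fun t ht => ?_) (hc _).continuousOn (hc _).continuousOn
    refine Real.rpow_le_rpow_of_exponent_ge' (hs t ht).1 (hs t ht).2 (by positivity) ?_
    push_cast
    gcongr
  · rw [root]
    conv_rhs => rw [← cfc_id' ℝ b]
    exact cfc_congr fun t _ => by simp

theorem trM_mono (τ : Tr A) {m : ℕ} {a b : CStarMatrix (Fin m) (Fin m) A} (h : a ≤ b) :
    trM τ (CStarMatrix.ofMatrix.symm a) ≤ trM τ (CStarMatrix.ofMatrix.symm b) := by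
  obtain ⟨d, hd⟩ := exists_sq (sub_nonneg.2 h)
  have h1 : 0 ≤ τ.1 (Matrix.trace (CStarMatrix.ofMatrix.symm (star d * d))) := by
    change 0 ≤ τ.1 (∑ i, ∑ j, star (d j i) * d j i)
    simp only [map_sum]
    exact Finset.sum_nonneg fun i _ => Finset.sum_nonneg fun j _ => τ.2.2.1 _
  rw [← hd] at h1
  change 0 ≤ τ.1 (Matrix.trace (CStarMatrix.ofMatrix.symm b - CStarMatrix.ofMatrix.symm a)) at h1
  rw [trace_sub, map_sub, sub_nonneg] at h1
  exact h1.1

theorem dim_proj (τ : Tr A) {m : ℕ} {a : CStarMatrix (Fin m) (Fin m) A}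
    (ha : IsStarProjection a) : dim τ a = trM τ (CStarMatrix.ofMatrix.symm a) := by
  refine Tendsto.limUnder_eq (tendsto_const_nhds.congr' ?_)
  filter_upwards [eventually_gt_atTop 0] with n hn
  rw [root_proj ha hn]

theorem le_dim (τ : Tr A) {m : ℕ} {b : CStarMatrix (Fin m) (Fin m) A} (h0 : 0 ≤ b)
    (h1 : b ≤ 1) : trM τ (CStarMatrix.ofMatrix.symm b) ≤ dim τ b := by
  obtain ⟨h2, h3, h4⟩ := root_facts h0 h1
  have hmono : Monotone fun n : ℕ => trM τ (CStarMatrix.ofMatrix.symm (root (n + 1) b)) :=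
    fun n n' hn => trM_mono τ (h2 hn)
  have hbdd : BddAbove (Set.range fun n : ℕ =>
      trM τ (CStarMatrix.ofMatrix.symm (root (n + 1) b))) := by
    refine ⟨trM (n := m) τ (CStarMatrix.ofMatrix.symm 1), ?_⟩
    rintro _ ⟨n, rfl⟩
    exact trM_mono τ (h3 _)
  have hlim := (tendsto_add_atTop_iff_nat
    (f := fun n : ℕ => trM τ (CStarMatrix.ofMatrix.symm (root n b))) 1).1
    (tendsto_atTop_ciSup hmono hbdd)
  rw [dim, hlim.limUnder_eq]
  refine le_trans (le_of_eq ?_) (le_ciSup hbdd 0)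
  rw [h4]

end Pool.Agent.Work.MP_501a10_an
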