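import Mathlib.Algebra.Colimit.DirectLimit
import Mathlib.Analysis.CStarAlgebra.Hom
import Mathlib.Analysis.Normed.Module.Completion
import Mathlib.Analysis.Normed.Unbundled.RingSeminorm

/-!
Completions of pre-C*-algebras and inductive limits of sequences of C*-algebras.
-/

open UniformSpace

namespace Pool.Agent.Work.MP_501a10_an

section Compl

variable (E : Type) [NormedRing E] [StarRing E] [NormedAlgebra ℂ E] [StarModule ℂ E] [CStarRing E]

/-- The completion of a pre-C*-algebra. -/
def Compl : Type := Completion E

noncomputable instance : NormedRing (Compl E) := inferInstanceAs (NormedRing (Completion E))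

noncomputable instance : CompleteSpace (Compl E) := inferInstanceAs (CompleteSpace (Completion E))

noncomputable instance : Algebra ℂ (Compl E) := inferInstanceAs (Algebra ℂ (Completion E))

noncomputable instance : NormedAlgebra ℂ (Compl E) where
  norm_smul_le r x := norm_smul_le (β := Completion E) r x

omit [NormedAlgebra ℂ E] [StarModule ℂ E] in
theorem uc_star : UniformContinuous (star : E → E) := (star_isometry (E := E)).uniformContinuous

noncomputable instance : Star (Compl E) := ⟨Completion.map star⟩

/-- The canonical map. -/
noncomputable def toCompl (x : E) : Compl E := (x : Completion E)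

variable {E}

omit [NormedAlgebra ℂ E] [StarModule ℂ E] in
theorem star_toCompl (x : E) : star (toCompl E x) = toCompl E (star x) :=
  Completion.map_coe (uc_star E) x

omit [NormedAlgebra ℂ E] [StarModule ℂ E] [CStarRing E] in
theorem cont_star : Continuous (star : Compl E → Compl E) := Completion.continuous_map

omit [StarRing E] [NormedAlgebra ℂ E] [StarModule ℂ E] [CStarRing E] in
theorem dense_toCompl : DenseRange (toCompl E) := Completion.denseRange_coe

omit [StarRing E] [NormedAlgebra ℂ E] [StarModule ℂ E] [CStarRing E] in
theorem toCompl_mul (x y : E) : toCompl E (x * y) = toCompl E x * toCompl E y :=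
  Completion.coe_mul x y

omit [StarRing E] [NormedAlgebra ℂ E] [StarModule ℂ E] [CStarRing E] in
theorem toCompl_add (x y : E) : toCompl E (x + y) = toCompl E x + toCompl E y :=
  Completion.coe_add x y

omit [StarRing E] [StarModule ℂ E] [CStarRing E] in
theorem toCompl_smul (r : ℂ) (x : E) : toCompl E (r • x) = r • toCompl E x :=
  Completion.coe_smul r x

omit [StarRing E] [NormedAlgebra ℂ E] [StarModule ℂ E] [CStarRing E] in
theorem norm_toCompl (x : E) : ‖toCompl E x‖ = ‖x‖ := Completion.norm_coe x

noncomputable instance : StarRing (Compl E) where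
  star_involutive x := by
    have := cont_star (E := E)
    refine dense_toCompl.induction_on x (isClosed_eq (this.comp this) continuous_id) fun a => ?_
    rw [star_toCompl, star_toCompl, star_star]
  star_mul x y := by
    have := cont_star (E := E)
    refine dense_toCompl.induction_on₂ (p := fun x y => star (x * y) = star y * star x)
      (isClosed_eq (this.comp continuous_mul)
        ((this.comp continuous_snd).mul (this.comp continuous_fst))) (fun a b => ?_) x y
    rw [← toCompl_mul, star_toCompl, star_toCompl, star_toCompl, star_mul, toCompl_mul]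
  star_add x y := by
    have := cont_star (E := E)
    refine dense_toCompl.induction_on₂ (p := fun x y => star (x + y) = star x + star y)
      (isClosed_eq (this.comp continuous_add)
        ((this.comp continuous_fst).add (this.comp continuous_snd))) (fun a b => ?_) x y
    rw [← toCompl_add, star_toCompl, star_toCompl, star_toCompl, star_add, toCompl_add]

noncomputable instance : CStarAlgebra (Compl E) where
  norm_mul_self_le x := by
    have := cont_star (E := E)
    refine dense_toCompl.induction_on x (isClosed_le (continuous_norm.mul continuous_norm)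
      (this.mul continuous_id).norm) fun a => ?_
    rw [star_toCompl, ← toCompl_mul, norm_toCompl, norm_toCompl]
    exact CStarRing.norm_mul_self_le a
  star_smul r x := by
    have := cont_star (E := E)
    refine dense_toCompl.induction_on x (isClosed_eq (this.comp (continuous_const_smul r))
      (by exact this.const_smul (star r))) fun a => ?_
    rw [← toCompl_smul, star_toCompl, star_toCompl, star_smul, toCompl_smul]

/-- The canonical map as a star algebra homomorphism. -/
noncomputable def toComplHom : E →⋆ₐ[ℂ] Compl E where
  toFun := toCompl E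
  map_one' := rfl
  map_mul' := toCompl_mul
  map_zero' := rfl
  map_add' := toCompl_add
  commutes' _ := rfl
  map_star' x := (star_toCompl x).symm

end Compl

section Lim

variable {B : ℕ → Type} [∀ n, CStarAlgebra (B n)] (φ : ∀ n, B n →⋆ₐ[ℂ] B (n + 1))

/-- The iterated connecting maps. -/
noncomputable def iter (i j : ℕ) (h : i ≤ j) : B i →⋆ₐ[ℂ] B j :=
  Nat.leRecOn h (fun {k} g => (φ k).comp g) (StarAlgHom.id ℂ (B i))

theorem iter_self (i : ℕ) : iter φ i i le_rfl = StarAlgHom.id ℂ (B i) := Nat.leRecOn_self _

theorem iter_succ (i j : ℕ) (h : i ≤ j) :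
    iter φ i (j + 1) (Nat.le_succ_of_le h) = (φ j).comp (iter φ i j h) := Nat.leRecOn_succ h _

instance : DirectedSystem B (iter φ · · ·) where
  map_self i x := by rw [iter_self]; rfl
  map_map k j i hij hjk x := by
    induction k, hjk using Nat.le_induction with
    | base => rw [iter_self]; rfl
    | succ k hjk ih => rw [iter_succ φ j k hjk, iter_succ φ i k (hij.trans hjk)]; simp [ih]

theorem iter_injective (hφ : ∀ n, Function.Injective (φ n)) (i j : ℕ) (h : i ≤ j) :
    Function.Injective (iter φ i j h) := by
  induction j, h using Nat.le_induction with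
  | base => rw [iter_self]; exact fun _ _ h => h
  | succ k hjk ih => rw [iter_succ φ i k hjk]; exact (hφ k).comp ih

/-- Existence of the inductive limit of a sequence of C*-algebras with injective maps. -/
theorem exists_limit (hφ : ∀ n, Function.Injective (φ n)) :
    ∃ (A : Type) (_ : CStarAlgebra A) (ψ : ∀ n, B n →⋆ₐ[ℂ] A),
      (∀ n, Function.Injective (ψ n)) ∧ (∀ n a, ψ (n + 1) (φ n a) = ψ n a) ∧
        Dense (⋃ n, Set.range (ψ n)) := by
  let D := DirectLimit B (iter φ)
  let nm : D → ℝ := DirectLimit.lift (iter φ) (fun i (x : B i) => ‖x‖) fun i j h x =>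
    (NonUnitalStarAlgHom.norm_map (iter φ i j h) (iter_injective φ hφ i j h) x).symm
  have nm_def : ∀ i (x : B i), nm ⟦⟨i, x⟩⟧ = ‖x‖ := fun _ _ => rfl
  let N : RingNorm D :=
    { toFun := nm
      map_zero' := by rw [DirectLimit.zero_def 0, nm_def, norm_zero]
      add_le' := DirectLimit.induction₂ _ fun i x y => by
        rw [DirectLimit.add_def, nm_def, nm_def, nm_def]; exact norm_add_le _ _
      neg' := DirectLimit.induction _ fun i x => by
        rw [DirectLimit.neg_def, nm_def, nm_def, norm_neg]
      mul_le' := DirectLimit.induction₂ _ fun i x y => by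
        rw [DirectLimit.mul_def, nm_def, nm_def, nm_def]; exact norm_mul_le _ _
      eq_zero_of_map_eq_zero' := DirectLimit.induction _ fun i x h => by
        rw [nm_def, norm_eq_zero] at h
        rw [h, DirectLimit.zero_def i] }
  let _ : NormedRing D := N.toNormedRing
  have norm_def : ∀ i (x : B i), ‖(⟦⟨i, x⟩⟧ : D)‖ = ‖x‖ := fun _ _ => rfl
  let _ : NormedAlgebra ℂ D :=
    { norm_smul_le := fun r => DirectLimit.induction _ fun i x => by
        rw [DirectLimit.smul_def, norm_def, norm_def]; exact norm_smul_le _ _ }
  have _ : CStarRing D :=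
    { norm_mul_self_le := DirectLimit.induction _ fun i x => by
        rw [DirectLimit.star_def, DirectLimit.mul_def, norm_def, norm_def]
        exact CStarRing.norm_mul_self_le x }
  let o : ∀ n, B n →⋆ₐ[ℂ] D := fun n =>
    { DirectLimit.Algebra.of B (iter φ) n with map_star' := fun _ => rfl }
  have o_def : ∀ n x, o n x = ⟦⟨n, x⟩⟧ := fun _ _ => rfl
  refine ⟨Compl D, inferInstance, fun n => toComplHom.comp (o n), fun n => ?_, fun n a => ?_, ?_⟩
  · refine (injective_iff_map_eq_zero _).2 fun a ha => ?_
    have : ‖toCompl D (o n a)‖ = 0 := norm_eq_zero.2 ha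
    rwa [norm_toCompl, o_def, norm_def, norm_eq_zero] at this
  · change toCompl D (o (n + 1) (φ n a)) = toCompl D (o n a)
    congr 1
    rw [o_def, o_def, DirectLimit.eq_of_le (f := (iter φ · · ·)) ⟨n, a⟩ (n + 1) (Nat.le_succ n),
      iter_succ φ n n le_rfl, iter_self]
    rfl
  · refine dense_toCompl.mono ?_
    rintro _ ⟨x, rfl⟩
    obtain ⟨i, x, rfl⟩ := DirectLimit.exists_eq_mk _ x
    exact Set.mem_iUnion.2 ⟨i, x, rfl⟩

end Lim

end Pool.Agent.Work.MP_501a10_an
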