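import Pool.Agent.Work.MP_501a10_an.Conc
import Pool.Agent.Work.MP_501a10_an.Inv

/-!
Failure of comparison in the limits: the lower bound for the invariant and the infinite radius
of comparison.
-/

open Filter Topology Matrix
open scoped Matrix.Norms.L2Operator ComplexOrder

set_option linter.unusedSectionVars false

noncomputable section

namespace Pool.Agent.Work.MP_501a10_an

theorem IsState.le_re {Y : Type} [TopologicalSpace Y] [CompactSpace Y] {μ : C(Y, ℂ) →ₗ[ℂ] ℂ}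
    (hμ : IsState μ) {g : C(Y, ℂ)} {c : ℝ} (h : ∀ y, (c : ℂ) ≤ g y) : c ≤ (μ g).re := by
  have := hμ.pos (g - (c : ℂ) • 1) fun y => by simpa using h y
  rw [map_sub, map_smul, hμ.one, smul_eq_mul, mul_one, sub_nonneg] at this
  exact this.1

theorem trace_gstep {Y Y' I I' L : Type} [TopologicalSpace Y] [TopologicalSpace Y'] [Fintype I]
    [Fintype I'] [Fintype L] [DecidableEq L] (e : I' ≃ I × L) (lam : L → C(Y', Y)) (F : MF Y I I)
    (z : Y') : (gstep e e lam F z).trace = ∑ l, (F (lam l z)).trace := by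
  rw [← trace_blockDiagonal]
  exact e.sum_comp fun a => blockDiagonal (fun l => F (lam l z)) a a

variable {A : Type} [CStarAlgebra A] [PartialOrder A] [StarOrderedRing A]

section General

variable {Z : ℕ → Type} [∀ n, TopologicalSpace (Z n)] [∀ n, CompactSpace (Z n)] {S : Sys Z}
  (Λ : Lim S A)

theorem Lim.approx4' {N : Type} [Fintype N] {x : Matrix (Fin 1) N A} {w : Matrix N (Fin 1) A}
    {x' w' : Matrix (Fin 1) (Fin 1) A} {U : Set ((Matrix (Fin 1) N A × Matrix N (Fin 1) A) ×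
      (Matrix (Fin 1) (Fin 1) A × Matrix (Fin 1) (Fin 1) A))} (hU : U ∈ 𝓝 ((x, w), (x', w'))) :
    ∀ᶠ m in atTop, ∃ (X : S.Am m (Fin 1) N) (W : S.Am m N (Fin 1))
      (X' W' : S.Am m (Fin 1) (Fin 1)), ((Λ.Ψ m X, Λ.Ψ m W), (Λ.Ψ m X', Λ.Ψ m W')) ∈ U := by
  obtain ⟨U₁, h₁, U₂, h₂, hU⟩ := mem_nhds_prod_iff.1 hU
  obtain ⟨V₁, k₁, V₂, k₂, hU₁⟩ := mem_nhds_prod_iff.1 h₁
  obtain ⟨V₃, k₃, V₄, k₄, hU₂⟩ := mem_nhds_prod_iff.1 h₂
  filter_upwards [Λ.Ψ_approx k₁, Λ.Ψ_approx k₂, Λ.Ψ_approx k₃, Λ.Ψ_approx k₄]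
  rintro m ⟨X, hX⟩ ⟨W, hW⟩ ⟨X', hX'⟩ ⟨W', hW'⟩
  exact ⟨X, W, X', W', hU (Set.mk_mem_prod (hU₁ (Set.mk_mem_prod hX hW))
    (hU₂ (Set.mk_mem_prod hX' hW')))⟩

theorem isOpen_near {T N : Type} [TopologicalSpace T] [Fintype N] [DecidableEq N]
    {f : T → Matrix N N A} (hf : Continuous f) (a : CStarMatrix N N A) (ε : ℝ) :
    IsOpen {q | ‖CStarMatrix.ofMatrix (f q) - a‖ < ε} :=
  isOpen_lt ((CStarMatrix.ofMatrixL.continuous.comp hf).sub continuous_const).norm continuous_const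

theorem Lim.approx4 {N : Type} [Fintype N] {x : Matrix (Fin 1) N A} {h : Matrix N N A}
    {w : Matrix N (Fin 1) A} {x' p w' : Matrix (Fin 1) (Fin 1) A}
    (hlt : ‖CStarMatrix.ofMatrix (x * h * w + x' * p * w') - 1‖ < 1) :
    ∀ᶠ m in atTop, ∃ (X : S.Am m (Fin 1) N) (W : S.Am m N (Fin 1))
      (X' W' : S.Am m (Fin 1) (Fin 1)), ‖CStarMatrix.ofMatrix
      (Λ.Ψ m X * h * Λ.Ψ m W + Λ.Ψ m X' * p * Λ.Ψ m W') - 1‖ < 1 := by
  have hc : Continuous fun q : (Matrix (Fin 1) N A × Matrix N (Fin 1) A) ×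
      (Matrix (Fin 1) (Fin 1) A × Matrix (Fin 1) (Fin 1) A) =>
      q.1.1 * h * q.1.2 + q.2.1 * p * q.2.2 :=
    ((continuous_fst.fst.matrix_mul continuous_const).matrix_mul continuous_fst.snd).add
      ((continuous_snd.fst.matrix_mul continuous_const).matrix_mul continuous_snd.snd)
  exact Λ.approx4' ((isOpen_near hc 1 1).mem_nhds (x := ((x, w), (x', w'))) hlt)

theorem Lim.unit_stage {m : ℕ} {T : S.Am m (Fin 1) (Fin 1)}
    (h : ‖CStarMatrix.ofMatrix (Λ.Ψ m T) - 1‖ < 1) (z : Z m) : IsUnit (T z) := by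
  rw [← Λ.ΨH_apply, ← map_one (Λ.ΨH (Fin 1) m), ← map_sub,
    NonUnitalStarAlgHom.norm_map (Λ.ΨH (Fin 1) m) (Λ.ΨH_injective m)] at h
  exact (ContinuousMap.isUnit_iff_forall_isUnit T).1 (isUnit_of_norm_sub_one h) z

theorem Lim.proj_stage {m : ℕ} {Q : S.Am m (Fin 1) (Fin 1)} (h : IsStarProjection (Λ.Ψ m Q)) :
    IsStarProjection Q :=
  ⟨Λ.ΨH_injective m ((map_mul _ Q Q).trans h.isIdempotentElem.eq),
    Λ.ΨH_injective m ((map_star _ Q).trans h.isSelfAdjoint.star_eq)⟩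

theorem Br.factor (b : Br Z) {I : Type} [Fintype I] [DecidableEq I] {m : ℕ} {Q : MF (Z m) I I}
    (hQ : IsStarProjection Q) (β : Bool) : ∃ (r : ℕ) (V : MF (Z m) (Fin r) I),
      ∀ z, b.br m z = β → Q z = (V z)ᴴ * V z ∧ (Q z).trace = r := by
  obtain ⟨U, hU, e⟩ := path_proj (b.deform Q) (b.deform Q).2
    (fun t => proj_iff.2 fun z => proj_iff.1 hQ _) 1 0
  rw [b.deform_one, b.deform_zero] at e
  obtain ⟨r, V, -, h2, h3⟩ := proj_factor (proj_iff.1 hQ (b.base m β))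
  refine ⟨r, mmul (.const _ Vᴴ) U, fun z hz => ?_⟩
  have h4 : U z * Q z = V * Vᴴ * U z := by
    rw [h2, ← hz]
    exact congrArg (fun F : MF (Z m) I I => F z) e
  have h5 := unitary_iff.1 hU z
  have h6 : Q z = star (U z) * (V * Vᴴ * U z) := by rw [← h4, ← mul_assoc, h5.1, one_mul]
  refine ⟨?_, ?_⟩
  · rw [h6]
    simp [Matrix.mul_assoc, star_eq_conjTranspose]
  · rw [h6, trace_mul_comm, mul_assoc, h5.2, mul_one, h2, h3]

end General

variable {θ : ℕ → ℕ} (hθ : θ ≤ 1) (Λ : Lim (sys θ) A)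

include hθ in
theorem form_lift {N : Type} [Fintype N] [DecidableEq N] {n : ℕ} {G : (sys θ).Am n N N}
    {β : Bool} {u : ℕ} (hG : Form (fun y => G ⟨β, y⟩) u) {m : ℕ} (hm : n ≤ m) :
    ∃ (G' : (sys θ).Am m N N) (u' : ℕ), Λ.Ψ m G' = Λ.Ψ n G ∧ Form (fun y => G' ⟨β, y⟩) u' ∧
      (u' : ℝ) / kk θ m ≤ u / kk θ n + Fintype.card N * (1 / (n + 1) - 1 / (m + 1)) := by
  induction m, hm using Nat.le_induction with
  | base => exact ⟨G, u, rfl, hG, by simp⟩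
  | succ m _ ih =>
    obtain ⟨G', u', h1, h2, h3⟩ := ih
    refine ⟨(sys θ).step m G', _, (Λ.Ψ_step m G').trans h1,
      h2.step (amp N ((sys θ).e m)) (emb m β) (emb m β).injective
        (fun y l => G' ((sys θ).lam m l ⟨β, y⟩)) (fun _ _ => rfl) LinearMap.id
        (fun y l ξ h => by rw [show ξ = 0 from h, mulVec_zero]), ?_⟩
    have hr := ratio hθ m
    have hk : (0 : ℝ) < kk θ m := Nat.cast_pos.2 (kk_pos θ m)
    have hl : (0 : ℝ) < ((bq m + 2) * (bq m + 2 + θ m) : ℕ) := Nat.cast_pos.2 (by positivity)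
    have hs : (ss m : ℝ) ≤ ((bq m + 2) * (bq m + 2 + θ m) : ℕ) := by
      rw [Nat.cast_le, ss]
      nlinarith [Nat.zero_le (θ m), Nat.zero_le (bq m)]
    simp only [Fintype.card_fin, Fintype.card_sum, Fintype.card_prod]
    change ((_ + _ * (_ * kk θ m) : ℕ) : ℝ) / (kk θ m * _ : ℕ) ≤ _
    generalize (bq m + 2) * (bq m + 2 + θ m) = l at *
    generalize (bq m + 1) * θ m + 1 = e at *
    generalize bq m + 2 + θ m = c at *
    have h4 : ((ss m * u' + (e + c) * (Fintype.card N * kk θ m) : ℕ) : ℝ) / (kk θ m * l : ℕ)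
        = ss m / l * (u' / kk θ m) + Fintype.card N * ((e + c) / l) := by
      push_cast
      field_simp
    have h5 : (ss m : ℝ) / l * (u' / kk θ m) ≤ u' / kk θ m :=
      mul_le_of_le_one_left (by positivity) ((div_le_one hl).2 hs)
    have h6 := mul_le_mul_of_nonneg_left ((div_le_iff₀' hl).2 hr) (Fintype.card N).cast_nonneg
    rw [h4]
    push_cast
    rw [add_assoc (m : ℝ), one_add_one_eq_two]
    linarith

include hθ in
theorem obstruct {N : Type} [Fintype N] [DecidableEq N] {n : ℕ} {G : (sys θ).Am n N N}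
    {β : Bool} {u : ℕ} (hG : Form (fun y => G ⟨β, y⟩) u) {x : Matrix (Fin 1) N A}
    {w : Matrix N (Fin 1) A} {x' p w' : Matrix (Fin 1) (Fin 1) A} (hp : IsStarProjection p)
    (hlt : ‖CStarMatrix.ofMatrix (x * Λ.Ψ n G * w + x' * p * w') - 1‖ < 1) :
    ∀ᶠ m in atTop, ∀ Q, Λ.Ψ m Q = p → ∀ y,
      ((1 - u / kk θ n - Fintype.card N * (1 / (n + 1)) : ℝ) : ℂ) ≤ ntr (kk θ m) Q ⟨β, y⟩ := by
  filter_upwards [Λ.approx4 hlt, eventually_ge_atTop n]
  rintro m ⟨X, W, X', W', h⟩ hm Q rfl y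
  obtain ⟨G', u', h1, h2, h3⟩ := form_lift hθ Λ hG hm
  rw [← h1, ← Λ.Ψ_mul, ← Λ.Ψ_mul, ← Λ.Ψ_mul, ← Λ.Ψ_mul, ← Λ.Ψ_add] at h
  obtain ⟨r, V, hV⟩ := bb.factor (Λ.proj_stage hp) β
  have h4 := h2.obstruct (fun y => X ⟨β, y⟩) (W := fun y => W ⟨β, y⟩) (W.2.comp continuous_sigmaMk)
    (fun y => X' ⟨β, y⟩ * (V ⟨β, y⟩)ᴴ) (W' := fun y => V ⟨β, y⟩ * W' ⟨β, y⟩)
    ((mmul V W').2.comp continuous_sigmaMk) fun y => by
      have := Λ.unit_stage h ⟨β, y⟩
      simp only [ContinuousMap.add_apply, mmul_apply, (hV ⟨β, y⟩ rfl).1, Matrix.mul_assoc] at this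
      simpa only [Matrix.mul_assoc] using this
  simp only [Fintype.card_prod, Fintype.card_fin, one_mul] at h4
  have hk : (0 : ℝ) < kk θ m := Nat.cast_pos.2 (kk_pos θ m)
  have h5 : (kk θ m : ℝ) ≤ u' + r := by exact_mod_cast h4
  have h6 : (1 : ℝ) ≤ u' / kk θ m + r / kk θ m := by rwa [← add_div, le_div_iff₀ hk, one_mul]
  have h7 : (0 : ℝ) ≤ Fintype.card N * (1 / (m + 1)) := by positivity
  rw [ntr_apply, (hV ⟨β, y⟩ rfl).2, ← div_eq_inv_mul]
  have h8 : ((r : ℂ) / kk θ m) = ((r / kk θ m : ℝ) : ℂ) := by push_cast; rfl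
  rw [h8, Complex.real_le_real]
  linarith

/-- The eigenvalue maps of the test elements. -/
def lamO {n : ℕ} {L₁ : Type} (L₂ : Type) (f : ∀ β, L₁ → Fin (SS n β)) :
    L₁ ⊕ L₂ → C(ZZ n, Cone Unit) :=
  Sum.elim (fun j => ⟨fun z => Cone.res (fun _ => f z.1 j) z.2,
    continuous_sigma fun β => (Cone.res fun _ => f β j).2⟩) fun _ => .const _ e0

theorem exists_test {n : ℕ} (N L₁ L₂ : Type) [Fintype N] [DecidableEq N] [Fintype L₁]
    [Fintype L₂] (f : ∀ β, L₁ → Fin (SS n β)) {M : ℕ} (hN : Fintype.card N = 3 * M)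
    (hL : Fintype.card L₁ + Fintype.card L₂ = M * kk θ n) :
    ∃ (G : (sys θ).Am n N N) (g d : Matrix N N A), Λ.Ψ n G = gᴴ * g ∧ Λ.Ψ n G = 1 - dᴴ * d ∧
      (∀ σ : Tr A, M ≤ (σ.1 (Λ.Ψ n G).trace).re) ∧
      ∀ β, Function.Injective (f β) → Form (fun y => G ⟨β, y⟩) (Fintype.card L₂) := by
  classical
  let E : N × Fin ((sys θ).k n) ≃ Fin 3 × (L₁ ⊕ L₂) := Fintype.equivOfCardEq (by
    simp only [Fintype.card_prod, Fintype.card_fin, Fintype.card_sum, hN, hL, mul_assoc]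
    rfl)
  let π := (Λ.ΨH N n).comp (gstepHom E (lamO L₂ f))
  refine ⟨gstep E E (lamO L₂ f) (star gg * gg), π gg, π dd, ?_, ?_, fun σ => ?_, fun β hβ => ?_⟩
  · exact (map_mul π _ _).trans (congrArg (· * π gg) (map_star π gg))
  · change π (star gg * gg) = 1 - star (π dd) * π dd
    rw [gg_dd, map_sub, map_one, map_mul, map_star]
  · rw [Λ.tr_Ψ]
    refine (Λ.isState_mu σ n).le_re fun z => ?_
    have hk : (0 : ℂ) < kk θ n := Nat.cast_pos.2 (kk_pos θ n)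
    rw [ntr_apply, trace_gstep]
    refine (le_inv_mul_iff₀ hk).2 (le_trans (le_of_eq ?_)
      (Finset.card_nsmul_le_sum _ _ 1 fun l _ => ⟨trace_gg _, ?_⟩))
    · simp [hL, mul_comm]
    · exact (posSemidef_conjTranspose_mul_self (gg _)).trace_nonneg.2
  · have := form_gg.step E (fun p : L₁ × Unit => f β p.1)
      (fun a b h => Prod.ext (hβ h) rfl) (fun y l => (star gg * gg) (lamO L₂ f l ⟨β, y⟩))
      (fun _ _ => rfl) _ (fun y l ξ h => gg_e0 ξ h)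
    rw [mul_zero, zero_add, Fintype.card_unit, mul_one] at this
    exact this

include hθ Λ in
theorem not_mem_RR {t t' : ℝ} (h : ∀ n, t' ≤ SS n false / kk θ n) (ht : t < t') : t ∉ RR A := by
  rintro ⟨τ, hτ⟩
  obtain ⟨n, hn⟩ := exists_nat_one_div_lt (by linarith : 0 < (t' - t) / 3)
  obtain ⟨G, g, d, -, h1, h2, h3⟩ := exists_test Λ (Fin 3) (Fin (SS n false))
    (Fin (kk θ n - SS n false)) (fun β => Fin.castLE (SS_le n β)) (M := 1) (by simp)
    (by simpa using Nat.add_sub_of_le (SS_le_kk θ n))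
  obtain ⟨p, w, hp, hpt, hu⟩ := hτ d fun σ => by simpa [← h1, trM] using h2 σ
  obtain ⟨v, hv⟩ := hu.exists_left_inv
  obtain ⟨m₀, q, hq, u, hu1, hu2, e⟩ := (Λ.proj_reduce bb hp).exists
  have hQ : IsStarProjection (Λ.Ψ m₀ (bb.cst m₀ q)) :=
    (proj_iff.2 fun z => hq _ : IsStarProjection (bb.cst m₀ q)).map (Λ.ΨH _ m₀)
  have hlt : ‖CStarMatrix.ofMatrix (v * wᴴ * Λ.Ψ n G * w
      + v * star u * Λ.Ψ m₀ (bb.cst m₀ q) * u) - 1‖ < 1 := by
    have : v * wᴴ * Λ.Ψ n G * w + v * star u * Λ.Ψ m₀ (bb.cst m₀ q) * u = 1 := by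
      rw [← hv, h1, mul_assoc (v * star u), ← e, mul_assoc v, ← mul_assoc (star u), hu1, one_mul,
        Matrix.mul_add]
      simp only [Matrix.mul_assoc]
    rw [this]
    exact (norm_eq_zero.2 (sub_self _)).trans_lt one_pos
  obtain ⟨m, hm, hm'⟩ := ((eventually_all.2 fun β => obstruct hθ Λ
    (h3 β (Fin.castLE_injective _)) hQ hlt).and (eventually_ge_atTop m₀)).exists
  obtain ⟨Q, hQ'⟩ := Λ.Ψ_lift hm' (bb.cst m₀ q)
  have h4 := (Λ.isState_mu τ m).le_re fun z => hm z.1 Q hQ' z.2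
  erw [← Λ.tr_Ψ] at h4
  have h5 : trM τ p = (τ.1 (Λ.Ψ m Q).trace).re := by rw [trM_unitary τ hu1 hu2 e, hQ', trM]
  have hk : (0 : ℝ) < kk θ n := Nat.cast_pos.2 (kk_pos θ n)
  rw [Fintype.card_fin, Fintype.card_fin, Nat.cast_sub (SS_le_kk θ n), sub_div,
    div_self hk.ne'] at h4
  push_cast at h4
  linarith [h n]

include hθ Λ in
theorem rc_top : rc A = ⊤ := by
  refine iInf_eq_top.2 fun r => iInf_eq_top.2 fun hr => False.elim ?_
  obtain ⟨M, hM⟩ := exists_nat_gt (1 + (r : ℝ))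
  have hM0 : 0 < M := by
    have : (0 : ℝ) < M := by linarith [r.coe_nonneg]
    exact_mod_cast this
  have hle : M * kk θ (3 * M) ≤ SS (3 * M) true :=
    (Nat.mul_le_mul_right _ (by omega)).trans (kk_le_SS hθ _)
  obtain ⟨G, g, d, h0, h1, h2, h3⟩ := exists_test Λ (Fin (3 * M)) (Fin (M * kk θ (3 * M))) Empty
    (fun β => Bool.rec (fun _ => ⟨0, SS_pos _ _⟩) (Fin.castLE hle) β) (M := M) (by simp) (by simp)
  let E : Matrix (Fin 1) (Fin (3 * M)) A := of fun _ j => if j = ⟨0, by omega⟩ then 1 else 0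
  have hE : E * Eᴴ = 1 := by
    ext i j
    simp [E, mul_apply, apply_ite star, one_apply, Subsingleton.elim i j]
  have ha : IsStarProjection (CStarMatrix.ofMatrix (Eᴴ * E)) := by
    refine ⟨?_, ?_⟩
    · change Eᴴ * E * (Eᴴ * E) = Eᴴ * E
      rw [Matrix.mul_assoc, ← Matrix.mul_assoc E, hE, Matrix.one_mul]
    · change (Eᴴ * E)ᴴ = Eᴴ * E
      rw [conjTranspose_mul, conjTranspose_conjTranspose]
  have hb0 : 0 ≤ CStarMatrix.ofMatrix (Λ.Ψ _ G) :=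
    h0 ▸ star_mul_self_nonneg (CStarMatrix.ofMatrix g)
  have hb1 : CStarMatrix.ofMatrix (Λ.Ψ _ G) ≤ 1 :=
    h1 ▸ sub_le_self 1 (star_mul_self_nonneg (CStarMatrix.ofMatrix d))
  have hC := hr _ _ _ ha.nonneg hb0 fun τ => by
    have e1 : trM τ (Eᴴ * E) = 1 := by
      simp [trM, Matrix.trace, E, mul_apply, apply_ite star, τ.2.1]
    rw [dim_proj τ ha]
    exact (e1 ▸ hM).trans_le ((h2 τ).trans (le_dim τ hb0 hb1))
  have hc : Continuous fun c : CStarMatrix (Fin (3 * M)) (Fin (3 * M)) A =>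
      E * CStarMatrix.ofMatrix.symm c * Eᴴ :=
    (continuous_const.matrix_mul CStarMatrix.ofMatrixL.symm.continuous).matrix_mul
      continuous_const
  obtain ⟨_, hx, x, rfl⟩ := mem_closure_iff.1 hC _ (isOpen_near hc 1 1) (by
    change ‖CStarMatrix.ofMatrix (E * (Eᴴ * E) * Eᴴ) - 1‖ < 1
    rw [← Matrix.mul_assoc, hE, Matrix.one_mul, hE]
    exact (norm_eq_zero.2 (sub_self _)).trans_lt one_pos)
  obtain ⟨x, rfl⟩ := CStarMatrix.ofMatrix.surjective x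
  have hlt : ‖CStarMatrix.ofMatrix (E * x * Λ.Ψ _ G * (xᴴ * Eᴴ) + 0 * 0 * 0) - 1‖ < 1 := by
    have hx' : ‖CStarMatrix.ofMatrix (E * (x * Λ.Ψ _ G * xᴴ) * Eᴴ) - 1‖ < 1 := hx
    simpa only [Matrix.mul_assoc, mul_zero, add_zero] using hx'
  obtain ⟨m, hm⟩ := (obstruct hθ Λ (h3 true (Fin.castLE_injective _)) (.zero _) hlt).exists
  have := (hm 0 (map_zero (Λ.ΨH _ m)) Cone.apex).1
  simp only [Fintype.card_empty, Nat.cast_zero, zero_div, sub_zero, Fintype.card_fin, map_zero,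
    Complex.ofReal_re, ContinuousMap.zero_apply, Complex.zero_re, mul_one_div, sub_nonpos] at this
  rw [one_le_div (by positivity)] at this
  linarith

end Pool.Agent.Work.MP_501a10_an
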