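import Pool.Agent.Work.MP_501a10_an.Upper
import Mathlib.Data.Rat.Denumerable

/-!
The limits attached to different real parameters are not isomorphic.
-/

open Filter Topology

noncomputable section

namespace Pool.Agent.Work.MP_501a10_an

theorem half_le {θ : ℕ → ℕ} (hθ : θ ≤ 1) (m : ℕ) :
    (m + 2) * kk θ m ≤ 2 * (m + 1) * SS m false := by
  induction m with
  | zero => exact le_rfl
  | succ m ih =>
    have h : (m + 1) * (m + 3) * ((bq m + 2) * (bq m + 2 + θ m)) ≤ (m + 2) ^ 2 * ss m := by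
      have h1 : θ m ≤ 1 := hθ m
      refine (Nat.mul_le_mul_left _ (Nat.mul_le_mul_left _ (Nat.add_le_add_left h1 _))).trans ?_
      simp only [ss, bq]
      nlinarith [Nat.zero_le m, Nat.zero_le (m ^ 2), Nat.zero_le (m ^ 3), Nat.zero_le (m ^ 4)]
    change (m + 1 + 2) * (kk θ m * _) ≤ 2 * (m + 1 + 1) * (ss m * SS m false)
    refine Nat.le_of_mul_le_mul_left ?_ (by positivity : 0 < (m + 1) * (m + 2))
    have := Nat.mul_le_mul ih h
    linarith

theorem ratio_anti (θ : ℕ → ℕ) : Antitone fun m => (SS m false : ℝ) / kk θ m := by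
  refine antitone_nat_of_succ_le fun m => ?_
  rw [div_le_div_iff₀ (Nat.cast_pos.2 (kk_pos θ _)) (Nat.cast_pos.2 (kk_pos θ _))]
  have h : ss m ≤ (bq m + 2) * (bq m + 2 + θ m) := by
    rw [ss]
    nlinarith [Nat.zero_le (θ m), Nat.zero_le (bq m)]
  have : ss m * SS m false * kk θ m ≤ SS m false * (kk θ m * ((bq m + 2) * (bq m + 2 + θ m))) := by
    have := Nat.mul_le_mul_left (SS m false * kk θ m) h
    linarith
  exact_mod_cast this

theorem gap {θ θ' : ℕ → ℕ} (h : θ ≤ θ') {n : ℕ} (h0 : θ n = 0) (h1 : θ' n = 1) {m : ℕ}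
    (hm : n + 1 ≤ m) : kk θ m * (bq n + 3) ≤ kk θ' m * (bq n + 2) := by
  induction m, hm using Nat.le_induction with
  | base =>
    rw [kk, kk, h0, h1]
    have := Nat.mul_le_mul_right ((bq n + 2) * (bq n + 2) * (bq n + 3)) (kk_mono h n)
    linarith
  | succ m _ ih =>
    rw [kk, kk]
    have := Nat.mul_le_mul ih
      (Nat.mul_le_mul_left (bq m + 2) (Nat.add_le_add_left (h m) (bq m + 2)))
    linarith

theorem separate {θ θ' : ℕ → ℕ} (h : θ ≤ θ') (hθ' : θ' ≤ 1) {n : ℕ} (h0 : θ n = 0)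
    (h1 : θ' n = 1) {A A' : Type} [CStarAlgebra A] [PartialOrder A] [StarOrderedRing A]
    [CStarAlgebra A'] [PartialOrder A'] [StarOrderedRing A'] (Λ : Lim (sys θ) A)
    (Λ' : Lim (sys θ') A') : ∃ t, t ∈ RR A' ∧ t ∉ RR A := by
  have hk : ∀ θ m, (0 : ℝ) < kk θ m := fun θ m => Nat.cast_pos.2 (kk_pos θ m)
  have hb : BddBelow (Set.range fun m => (SS m false : ℝ) / kk θ m) :=
    ⟨0, by rintro _ ⟨m, rfl⟩; positivity⟩
  set r := ⨅ m, (SS m false : ℝ) / kk θ m with hr
  have r1 : 1 / 2 ≤ r := le_ciInf fun m => by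
    have : ((m : ℝ) + 2) * kk θ m ≤ 2 * (m + 1) * SS m false := by
      exact_mod_cast half_le (h.trans hθ') m
    rw [le_div_iff₀ (hk θ m)]
    have h2 : (0 : ℝ) < m + 1 := by positivity
    nlinarith [hk θ m]
  have r2 : r ≤ 1 := (ciInf_le hb 0).trans (by simp [SS, kk])
  set c : ℝ := (bq n + 2) / (bq n + 3) with hc
  have c0 : 0 < c := by positivity
  have c1 : c < 1 := (div_lt_one (by positivity)).2 (by linarith)
  obtain ⟨m₁, hm₁⟩ := exists_lt_of_ciInf_lt (f := fun m => (SS m false : ℝ) / kk θ m)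
    (a := (2 * c + 1) / 3 * r / c) (by rw [lt_div_iff₀ c0]; nlinarith)
  refine ⟨(c + 2) / 3 * r, mem_RR Λ' (t' := (2 * c + 1) / 3 * r) ?_ (by nlinarith) (by nlinarith),
    not_mem_RR (h.trans hθ') Λ (ciInf_le hb) (by nlinarith)⟩
  filter_upwards [eventually_ge_atTop m₁, eventually_ge_atTop (n + 1)] with m hm hm'
  have g1 : (kk θ m : ℝ) * (bq n + 3) ≤ kk θ' m * (bq n + 2) := by exact_mod_cast gap h h0 h1 hm'
  have g2 : (SS m false : ℝ) / kk θ' m ≤ SS m false / kk θ m * c := by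
    rw [hc, div_mul_div_comm, div_le_div_iff₀ (hk _ _) (mul_pos (hk _ _) (by positivity)),
      mul_assoc, mul_comm _ (kk θ' m : ℝ)]
    exact mul_le_mul_of_nonneg_left g1 (by positivity)
  have g3 := (lt_div_iff₀ c0).1 ((ratio_anti θ hm).trans_lt hm₁)
  linarith

/-- The zero-one sequence attached to a real number. -/
def th (x : ℝ) (n : ℕ) : ℕ := if (((Denumerable.eqv ℚ).symm n : ℚ) : ℝ) < x then 1 else 0

theorem th_le (x : ℝ) : th x ≤ 1 := fun n => by
  unfold th
  split_ifs <;> simp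

theorem main : ∃ A : ℝ → CStar,
    (∀ i, IsSimple (A i).carrier ∧ TopologicalSpace.SeparableSpace (A i).carrier ∧
      IsAH (A i).carrier ∧ rc (A i).carrier = ⊤) ∧
    (∀ i j, SameElliott (A i).carrier (A j).carrier) ∧
    ∀ i j, Nonempty ((A i).carrier ≃⋆ₐ[ℂ] (A j).carrier) → i = j := by
  choose A hA using fun x => (sys (th x)).exists_lim
  have Λ := fun x => Classical.choice (hA x)
  have key : ∀ x y, x < y → ∃ t, t ∈ RR (A y).carrier ∧ t ∉ RR (A x).carrier := by
    intro x y hxy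
    obtain ⟨q, h1, h2⟩ := exists_rat_btwn hxy
    refine separate (n := Denumerable.eqv ℚ q) (fun n => ?_) (th_le y) ?_ ?_ (Λ x) (Λ y)
    · unfold th
      split_ifs with a b
      · exact le_rfl
      · exact absurd (a.trans hxy) b
      · exact Nat.zero_le _
      · exact le_rfl
    · rw [th, Equiv.symm_apply_apply, if_neg h1.not_gt]
    · rw [th, Equiv.symm_apply_apply, if_pos h2]
  refine ⟨A, fun x => ⟨simple_sys (Λ x), (Λ x).separable, (Λ x).isAH, rc_top (th_le x) (Λ x)⟩,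
    fun x y => same_sys (th_le x) (th_le y) (Λ x) (Λ y), ?_⟩
  rintro x y ⟨π⟩
  rcases lt_trichotomy x y with h | h | h
  · obtain ⟨t, h1, h2⟩ := key x y h
    exact absurd (RR_mono π.symm h1) h2
  · exact h
  · obtain ⟨t, h1, h2⟩ := key y x h
    exact absurd (RR_mono π h1) h2

end Pool.Agent.Work.MP_501a10_an
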