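import Pool.Agent.Lib.BorsukUlam.Chains
import Mathlib.Analysis.InnerProductSpace.PiL2
import Mathlib.Topology.UniformSpace.HeineCantor
import Mathlib.Topology.MetricSpace.Pseudo.Pi
import Mathlib.Data.Finset.Max

/-!
A Borsuk-Ulam theorem for products of spheres with a triangular system of sign characters.
-/

namespace Pool.Agent.Work.MP_501a10_an

open Finsupp Pool.Agent.Lib.BorsukUlam

section Alg

variable {X : Type}

theorem bd_pr' (f g : X → X) (c : Chain X) :
    bd (pr f g c) + pr f g (bd c) = push f c + push g c := by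
  have := chain_ext (F := bd ∘ₗ pr f g + pr f g ∘ₗ bd) (G := push f + push g)
    (fun l => by simpa [pr_single, bd_single] using bd_pr0 f g l) c
  simpa using this

theorem push_pr0 (ν f g : X → X) (hf : ∀ x, ν (f x) = f (ν x)) (hg : ∀ x, ν (g x) = g (ν x))
    (l : List X) : push ν (pr0 f g l) = pr0 f g (l.map ν) := by
  induction l with
  | nil => simp [pr0]
  | cons x l ih =>
    have : ν ∘ g = g ∘ ν := funext hg
    simp [pr0, push_cone, ih, hf, hg, this]

theorem push_pr (ν f g : X → X) (hf : ∀ x, ν (f x) = f (ν x)) (hg : ∀ x, ν (g x) = g (ν x))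
    (c : Chain X) : push ν (pr f g c) = pr f g (push ν c) := by
  have := chain_ext (F := push ν ∘ₗ pr f g) (G := pr f g ∘ₗ push ν)
    (fun l => by simp [pr_single, push_pr0 ν f g hf hg]) c
  simpa using this

theorem W_map' (ν : X → X) (ss : List (X → ZMod 2))
    (h : ∀ s ∈ ss, ∃ a, ∀ x, s (ν x) = s x + a) (l : List X) : W ss (l.map ν) = W ss l := by
  induction ss generalizing l with
  | nil =>
    match l with
    | [] => rfl
    | [_] => rfl
    | _ :: _ :: _ => rfl
  | cons s ss ih =>
    match l with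
    | [] => rfl
    | [_] => rfl
    | x :: y :: l =>
      have e := ih (fun s hs => h s (List.mem_cons_of_mem _ hs)) (y :: l)
      obtain ⟨a, hs⟩ := h s List.mem_cons_self
      simp only [List.map_cons] at e
      simp only [List.map_cons, W, e, hs]
      have z : a + a = 0 := CharTwo.add_self_eq_zero a
      linear_combination (W ss (y :: l)) * z

theorem U_sym' (ν : X → X) (s : X → ZMod 2) (a : ZMod 2) (hs : ∀ x, s (ν x) = s x + a)
    (ss : List (X → ZMod 2)) (h : ∀ s ∈ ss, ∃ a, ∀ x, s (ν x) = s x + a) (c : Chain X) :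
    ext1 (U s ss) (c + push ν c) = a * ext1 (W ss) c := by
  have := chain_ext (F := ext1 (U s ss) ∘ₗ (LinearMap.id + push ν)) (G := a • ext1 (W ss))
    (fun l => by
      cases l with
      | nil => simp [U, W_nil]
      | cons x l =>
        have e := W_map' ν ss h (x :: l)
        simp only [List.map_cons] at e
        simp only [LinearMap.comp_apply, LinearMap.add_apply, LinearMap.id_apply, push_single,
          map_add, ext1_single, List.map_cons, U, e, hs, LinearMap.smul_apply,
          smul_eq_mul]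
        have z := CharTwo.add_self_eq_zero (s x * W ss (x :: l))
        linear_combination z) c
  simpa using this

/-- The span of the chains `y + ν y` for `ν` in a set of maps. -/
noncomputable def Aug (N : Set (X → X)) : Submodule (ZMod 2) (Chain X) :=
  Submodule.span (ZMod 2) {c | ∃ ν ∈ N, ∃ y, c = y + push ν y}

theorem map_aug {M : Type} [AddCommGroup M] [Module (ZMod 2) M] (F : Chain X →ₗ[ZMod 2] M)
    (P : Submodule (ZMod 2) M) (N : Set (X → X))
    (h : ∀ ν ∈ N, ∀ y, F (y + push ν y) ∈ P) (c : Chain X) (hc : c ∈ Aug N) : F c ∈ P := by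
  have : Aug N ≤ P.comap F := by
    rw [Aug, Submodule.span_le]
    rintro _ ⟨ν, hν, y, rfl⟩
    exact h ν hν y
  exact this hc

theorem mem_aug {N : Set (X → X)} {ν : X → X} (hν : ν ∈ N) (y : Chain X) :
    y + push ν y ∈ Aug N := Submodule.subset_span ⟨ν, hν, y, rfl⟩

/-- The filling step. -/
theorem fill (ν : X → X) (N N' : Set (X → X)) (hν : ∀ x, ν (ν x) = x)
    (hN : ∀ μ ∈ N, μ = ν ∨ μ ∈ N') (hc : ∀ μ ∈ N', ∀ x, μ (ν x) = ν (μ x))
    (F : ℕ → X → X) (M : ℕ) (hF0 : F 0 = id) (hFM : ∀ x, F M (ν x) = F M x)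
    (hF : ∀ μ ∈ N', ∀ j x, μ (F j x) = F j (μ x)) (h : Chain X) (a : ZMod 2)
    (hh : bd h + single [] a ∈ Aug N) :
    bd (∑ j ∈ Finset.range M, pr (F j) (F (j + 1)) (h + push ν h)) + (h + push ν h)
      ∈ Aug N' := by
  set c := h + push ν h with hcdef
  have hνν : ν ∘ ν = id := funext hν
  have hbc : bd c ∈ Aug N' := by
    have : bd c
        = (LinearMap.id + push ν : Chain X →ₗ[ZMod 2] Chain X) (bd h + single [] a) := by
      have z := add_self_chain (single [] a : Chain X)
      simp only [hcdef, map_add, LinearMap.add_apply, LinearMap.id_apply, push_bd, push_single,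
        List.map_nil]
      linear_combination (norm := abel1) -z
    rw [this]
    refine map_aug _ _ N ?_ _ hh
    intro μ hμ y
    rcases hN μ hμ with rfl | hμ'
    · have z := add_self_chain y
      have z2 := add_self_chain (push μ y)
      have : (LinearMap.id + push μ : Chain X →ₗ[ZMod 2] Chain X) (y + push μ y) = 0 := by
        simp only [LinearMap.add_apply, LinearMap.id_apply, map_add, push_push, hνν, push_id]
        linear_combination (norm := abel1) z + z2
      rw [this]; exact Submodule.zero_mem _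
    · have e : μ ∘ ν = ν ∘ μ := funext (hc μ hμ')
      have : (LinearMap.id + push ν : Chain X →ₗ[ZMod 2] Chain X) (y + push μ y)
          = (y + push ν y) + push μ (y + push ν y) := by
        simp only [LinearMap.add_apply, LinearMap.id_apply, map_add, push_push, e]
      rw [this]; exact mem_aug hμ' _
  have key : ∀ K, bd (∑ j ∈ Finset.range K, pr (F j) (F (j + 1)) c)
      + (push (F 0) c + push (F K) c) ∈ Aug N' := by
    intro K
    induction K with
    | zero => simp [add_self_chain]
    | succ K ih =>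
      have h1 : pr (F K) (F (K + 1)) (bd c) ∈ Aug N' := by
        refine map_aug _ _ N' ?_ _ hbc
        intro μ hμ y
        rw [map_add, ← push_pr μ _ _ (hF μ hμ K) (hF μ hμ (K + 1))]
        exact mem_aug hμ _
      have h2 := bd_pr' (F K) (F (K + 1)) c
      have z := add_self_chain (push (F (K + 1)) c)
      have z2 := add_self_chain (pr (F K) (F (K + 1)) (bd c))
      have : bd (∑ j ∈ Finset.range (K + 1), pr (F j) (F (j + 1)) c)
          + (push (F 0) c + push (F (K + 1)) c)
          = (bd (∑ j ∈ Finset.range K, pr (F j) (F (j + 1)) c)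
            + (push (F 0) c + push (F K) c)) + pr (F K) (F (K + 1)) (bd c) := by
        rw [Finset.sum_range_succ, map_add]
        linear_combination (norm := abel1) h2 + z - z2
      rw [this]
      exact Submodule.add_mem _ ih h1
  have hM : push (F M) c = 0 := by
    have : F M ∘ ν = F M := funext hFM
    rw [hcdef, map_add, push_push, this, add_self_chain]
  have := key M
  rwa [hF0, push_id, hM, add_zero] at this

end Alg

variable {κ Λ : Type} [Fintype κ] [Fintype Λ] [DecidableEq κ] [DecidableEq Λ]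

/-- The group of a coordinate. -/
def grp (g : Λ → κ) : κ ⊕ Λ → κ := Sum.elim id g

/-- The product of the l1 spheres. -/
def Sph (g : Λ → κ) : Set (κ ⊕ Λ → ℝ) :=
  {x | ∀ k, ∑ c with grp g c = k, |x c| = 1}

/-- The antipodal map of one factor. -/
def flip (g : Λ → κ) (k : κ) (x : κ ⊕ Λ → ℝ) : κ ⊕ Λ → ℝ :=
  fun c => if grp g c = k then -x c else x c

/-- The antipodal map of one factor, on labelled points. -/
def nu' (g : Λ → κ) (k : κ) (p : (κ ⊕ Λ → ℝ) × (κ → ZMod 2)) : (κ ⊕ Λ → ℝ) × (κ → ZMod 2) :=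
  (flip g k p.1, p.2 + Pi.single k 1)

omit [Fintype κ] [Fintype Λ] [DecidableEq Λ] in
theorem abs_flip (g : Λ → κ) (k : κ) (x : κ ⊕ Λ → ℝ) (c : κ ⊕ Λ) : |flip g k x c| = |x c| := by
  unfold flip; split_ifs <;> simp

omit [DecidableEq Λ] in
theorem flip_mem (g : Λ → κ) (k : κ) (x : κ ⊕ Λ → ℝ) : flip g k x ∈ Sph g ↔ x ∈ Sph g := by
  simp [Sph, abs_flip]

/-- Small lists of points supported on a set of coordinates. -/
def Small' (g : Λ → κ) (S : Finset Λ) (ε : ℝ) (l : List ((κ ⊕ Λ → ℝ) × (κ → ZMod 2))) : Prop :=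
  ∀ p ∈ l, (p.1 ∈ Sph g ∧ ∀ j ∉ S, p.1 (.inr j) = 0) ∧ ∀ q ∈ l, dist p.1 q.1 ≤ ε

/-- The contraction of one factor to a new pole. -/
def contr (g : Λ → κ) (j : Λ) (t : ℝ) (x : κ ⊕ Λ → ℝ) : κ ⊕ Λ → ℝ :=
  fun c => if grp g c = g j then (1 - t) * x c + (if c = .inr j then t else 0) else x c

omit [DecidableEq Λ] in
theorem abs_le_of_mem {g : Λ → κ} {x : κ ⊕ Λ → ℝ} (hx : x ∈ Sph g) (c : κ ⊕ Λ) : |x c| ≤ 1 := by
  rw [← hx (grp g c)]
  exact Finset.single_le_sum (f := fun c => |x c|) (fun _ _ => abs_nonneg _) (by simp)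

theorem contr_mem {g : Λ → κ} {j : Λ} {x : κ ⊕ Λ → ℝ} (hx : x ∈ Sph g) (hj : x (.inr j) = 0)
    {t : ℝ} (h0 : 0 ≤ t) (h1 : t ≤ 1) : contr g j t x ∈ Sph g := by
  intro k
  by_cases hk : k = g j
  · subst hk
    have : ∀ c ∈ Finset.univ.filter (fun c => grp g c = g j), |contr g j t x c|
        = (1 - t) * |x c| + (if c = .inr j then t else 0) := by
      intro c hc
      have hc' : grp g c = g j := by simpa using hc
      by_cases h : c = .inr j
      · subst h; simp [contr, hc', hj, abs_of_nonneg h0]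
      · simp [contr, hc', h, abs_mul, abs_of_nonneg (sub_nonneg.2 h1)]
    rw [Finset.sum_congr rfl this, Finset.sum_add_distrib, ← Finset.mul_sum, hx (g j),
      Finset.sum_ite_eq', if_pos (by exact Finset.mem_filter.2 ⟨Finset.mem_univ _, rfl⟩)]
    ring
  · rw [← hx k]
    refine Finset.sum_congr rfl fun c hc => ?_
    have hc' : grp g c = k := by simpa using hc
    simp [contr, hc', hk]

theorem contr_dist {g : Λ → κ} (j : Λ) (x : κ ⊕ Λ → ℝ) {y : κ ⊕ Λ → ℝ} (hy : y ∈ Sph g)
    {t t' : ℝ} (h0 : 0 ≤ t) (h1 : t ≤ 1) :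
    dist (contr g j t x) (contr g j t' y) ≤ dist x y + 2 * |t' - t| := by
  rw [dist_pi_le_iff (by positivity)]
  intro c
  have hd := dist_le_pi_dist x y c
  have h4 := abs_nonneg (t' - t)
  unfold contr
  split_ifs with h h'
  · rw [Real.dist_eq] at hd ⊢
    have : (1 - t) * x c + t - ((1 - t') * y c + t')
        = (1 - t) * (x c - y c) + (t' - t) * (y c - 1) := by ring
    rw [this]
    refine (abs_add_le _ _).trans ?_
    rw [abs_mul, abs_mul, abs_of_nonneg (sub_nonneg.2 h1)]
    have h2 : |y c - 1| ≤ 2 := (abs_sub _ _).trans (by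
      have := abs_le_of_mem hy c; simp only [abs_one]; linarith)
    have h3 := abs_nonneg (x c - y c)
    nlinarith
  · rw [Real.dist_eq] at hd ⊢
    have : (1 - t) * x c + 0 - ((1 - t') * y c + 0)
        = (1 - t) * (x c - y c) + (t' - t) * y c := by ring
    rw [this]
    refine (abs_add_le _ _).trans ?_
    rw [abs_mul, abs_mul, abs_of_nonneg (sub_nonneg.2 h1)]
    have h2 := abs_le_of_mem hy c
    have h3 := abs_nonneg (x c - y c)
    nlinarith
  · linarith

omit [Fintype κ] [Fintype Λ] [DecidableEq Λ] in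
theorem nu'_nu' (g : Λ → κ) (k : κ) (p : (κ ⊕ Λ → ℝ) × (κ → ZMod 2)) :
    nu' g k (nu' g k p) = p := by
  ext c
  · simp only [nu', flip]; split_ifs <;> simp
  · have z : (1 : ZMod 2) + 1 = 0 := rfl
    simp only [nu', Pi.add_apply, Pi.single_apply]
    split_ifs <;> simp [add_assoc, z]

omit [Fintype κ] [Fintype Λ] [DecidableEq Λ] in
theorem nu'_comm (g : Λ → κ) (k k' : κ) (p : (κ ⊕ Λ → ℝ) × (κ → ZMod 2)) :
    nu' g k (nu' g k' p) = nu' g k' (nu' g k p) := by
  ext c
  · simp only [nu', flip]; split_ifs <;> simp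
  · simp only [nu', Pi.add_apply]; ring

theorem exists_chain' (g : Λ → κ) (χ : Λ → κ → ZMod 2) (ρ : Λ → ℕ) (h1 : ∀ j, χ j (g j) = 1)
    (h2 : ∀ j j', g j' ≠ g j → χ j (g j') ≠ 0 → ρ j < ρ j') (S : Finset Λ) :
    ∀ ε : ℝ, 0 < ε → ∃ (l : List Λ) (h : Chain ((κ ⊕ Λ → ℝ) × (κ → ZMod 2))) (a : ZMod 2),
      (∀ j ∈ S, j ∈ l) ∧ h ∈ Supp (Small' g S ε) ∧
      bd h + single [] a ∈ Aug {ν | ∃ j ∈ S, ν = nu' g (g j)} ∧
      ∀ s : Λ → (κ ⊕ Λ → ℝ) × (κ → ZMod 2) → ZMod 2,
        (∀ j k p, s j (nu' g k p) = s j p + χ j k) → ext1 (W (l.map s)) h = 1 := by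
  induction S using Finset.induction_on_max_value ρ with
  | empty =>
    intro ε hε
    refine ⟨[], single [(Sum.elim 1 0, 0)] 1, 1, by simp, single_mem_supp _ _ ?_, ?_, ?_⟩
    · intro p hp
      simp only [List.mem_singleton] at hp
      subst hp
      refine ⟨⟨fun k => ?_, by simp⟩, ?_⟩
      · rw [Finset.sum_filter, Fintype.sum_sum_type]
        simp [grp]
      · intro q hq
        simp only [List.mem_singleton] at hq
        subst hq
        simpa using hε.le
    · have : (bd (single [((Sum.elim 1 0 : κ ⊕ Λ → ℝ), (0 : κ → ZMod 2))] 1))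
          = single [] 1 := by simp [bd_single, bd0]
      rw [this, add_self_chain]
      exact Submodule.zero_mem _
    · intro s _
      simp [W]
  | insert j S hjS hmax ih =>
    intro ε hε
    obtain ⟨l, h, a, hl, hs, hb, hw⟩ := ih (ε / 2) (by positivity)
    obtain ⟨M, hM⟩ := exists_nat_gt (4 / ε)
    have hM0 : (0 : ℝ) < M := lt_trans (by positivity) hM
    have hM0' : M ≠ 0 := by rintro rfl; simp at hM0
    let F : ℕ → (κ ⊕ Λ → ℝ) × (κ → ZMod 2) → (κ ⊕ Λ → ℝ) × (κ → ZMod 2) :=
      fun i p => (contr g j ((i : ℝ) / M) p.1, if i = 0 then p.2 else Function.update p.2 (g j) 0)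
    have hF0 : F 0 = id := by
      funext p
      ext c
      · simp [F, contr]
      · simp [F]
    have hFM : ∀ p, F M (nu' g (g j) p) = F M p := by
      intro p
      ext c
      · simp only [F, contr, nu', flip, div_self hM0.ne']
        split_ifs <;> simp
      · simp only [F, hM0', if_false, nu', Function.update_apply, Pi.add_apply, Pi.single_apply]
        split_ifs <;> simp
    set N' : Set ((κ ⊕ Λ → ℝ) × (κ → ZMod 2) → (κ ⊕ Λ → ℝ) × (κ → ZMod 2)) :=
      {ν | ∃ j' ∈ S, g j' ≠ g j ∧ ν = nu' g (g j')} with hN'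
    have hfill := fill (nu' g (g j)) _ N' (nu'_nu' g (g j))
      (by
        rintro μ ⟨j', hj', rfl⟩
        by_cases e : g j' = g j
        · exact Or.inl (by rw [e])
        · exact Or.inr ⟨j', hj', e, rfl⟩)
      (by rintro μ ⟨j', -, -, rfl⟩ p; exact nu'_comm g _ _ p) F M hF0 hFM
      (by
        rintro μ ⟨j', -, e, rfl⟩ i p
        ext c
        · simp only [F, contr, nu', flip]
          by_cases e1 : grp g c = g j
          · have e2 : grp g c ≠ g j' := fun e2 => e (e2.symm.trans e1)
            simp [e1, e.symm]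
          · simp [e1]
        · simp only [F, nu']
          split_ifs
          · rfl
          · simp only [Pi.add_apply, Function.update_apply, Pi.single_apply]
            by_cases e1 : c = g j
            · simp [e1, e.symm]
            · simp [e1]) h a hb
    set c := h + push (nu' g (g j)) h with hc
    set h' := ∑ i ∈ Finset.range M, pr (F i) (F (i + 1)) c with hh'
    have hbd : bd h' = c + (bd h' + c) := by
      have z := add_self_chain c
      linear_combination (norm := abel1) -z
    refine ⟨j :: l, h', 0, ?_, ?_, ?_, ?_⟩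
    · intro j' hj'
      rcases Finset.mem_insert.1 hj' with rfl | hj'
      · simp
      · exact List.mem_cons_of_mem _ (hl j' hj')
    · have hz : c ∈ Supp (Small' g S (ε / 2)) := by
        refine Submodule.add_mem _ hs (map_mem_of_supp _ _ _ ?_ _ hs)
        intro l hl
        rw [push_single]
        refine single_mem_supp _ _ ?_
        intro p hp
        obtain ⟨p', hp', rfl⟩ := List.mem_map.1 hp
        refine ⟨⟨(flip_mem g _ _).2 (hl p' hp').1.1, fun j' hj' => ?_⟩, ?_⟩
        · simp [nu', flip, (hl p' hp').1.2 j' hj']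
        intro q hq
        obtain ⟨q', hq', rfl⟩ := List.mem_map.1 hq
        refine le_trans ?_ ((hl p' hp').2 q' hq')
        rw [dist_pi_le_iff dist_nonneg]
        intro c
        refine le_trans (le_of_eq ?_) (dist_le_pi_dist p'.1 q'.1 c)
        simp only [nu', flip]
        split_ifs <;> simp
      refine Submodule.sum_mem _ ?_
      intro i hi
      rw [Finset.mem_range] at hi
      refine map_mem_of_supp _ _ _ ?_ _ hz
      intro l hl
      rw [pr_single]
      refine Finsupp.supported_mono ?_ (pr0_mem _ _ l)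
      intro l' hl'
      have hj1 : ((i + 1 : ℕ) : ℝ) / M ≤ 1 := by
        rw [div_le_one hM0]; exact_mod_cast hi
      have hj0 : (i : ℝ) / M ≤ 1 := by
        rw [div_le_one hM0]; exact_mod_cast hi.le
      have aux : ∀ y ∈ l', ∃ x ∈ l, ∃ t : ℝ, 0 ≤ t ∧ t ≤ 1 ∧ (i : ℝ) / M ≤ t ∧
          t ≤ (i : ℝ) / M + 1 / M ∧ y.1 = contr g j t x.1 := by
        intro y hy
        obtain ⟨x, hx, h | h⟩ := hl' y hy
        · refine ⟨x, hx, (i : ℝ) / M, by positivity, hj0, le_rfl, ?_, by rw [h]⟩
          have : (0 : ℝ) ≤ 1 / M := by positivity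
          linarith
        · refine ⟨x, hx, ((i + 1 : ℕ) : ℝ) / M, by positivity, hj1, ?_, ?_, by rw [h]⟩
          · gcongr; omega
          · push_cast; rw [add_div]
      intro p hp
      obtain ⟨x, hx, t, ht0, ht1, ht2, ht3, hpx⟩ := aux p hp
      refine ⟨⟨by rw [hpx]; exact contr_mem (hl x hx).1.1 ((hl x hx).1.2 j hjS) ht0 ht1, ?_⟩, ?_⟩
      · intro j' hj'
        rw [Finset.mem_insert, not_or] at hj'
        simp [hpx, contr, (hl x hx).1.2 j' hj'.2, hj'.1]
      intro q hq
      obtain ⟨y, hy, t', -, -, ht2', ht3', hqy⟩ := aux q hq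
      rw [hpx, hqy]
      refine (contr_dist j x.1 (hl y hy).1.1 ht0 ht1).trans ?_
      have h1 := (hl x hx).2 y hy
      have h2 : |t' - t| ≤ 1 / M := by rw [abs_le]; constructor <;> linarith
      have h3 : 1 / (M : ℝ) ≤ ε / 4 := by
        rw [div_lt_iff₀ hε] at hM
        rw [div_le_div_iff₀ hM0 (by norm_num)]
        linarith
      linarith
    · rw [Finsupp.single_zero, add_zero, hbd]
      refine Submodule.add_mem _ (mem_aug (by exact ⟨j, Finset.mem_insert_self _ _, rfl⟩) h) ?_
      refine Submodule.span_mono ?_ hfill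
      rintro _ ⟨_, ⟨j', hj', -, rfl⟩, y, rfl⟩
      exact ⟨_, ⟨j', Finset.mem_insert_of_mem hj', rfl⟩, y, rfl⟩
    · intro s hs'
      have hall : ∀ k, ∀ s' ∈ l.map s, ∃ a, ∀ x, s' (nu' g k x) = s' x + a := by
        intro k s' hs''
        obtain ⟨j', -, rfl⟩ := List.mem_map.1 hs''
        exact ⟨_, hs' j' k⟩
      have h0 : ext1 (U (s j) (l.map s)) (bd h' + c) ∈ (⊥ : Submodule (ZMod 2) (ZMod 2)) := by
        refine map_aug _ _ N' ?_ _ hfill
        rintro _ ⟨j', hj', e, rfl⟩ y
        have : χ j (g j') = 0 := by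
          by_contra hne
          exact absurd (h2 j j' e hne) (not_lt.2 (hmax j' hj'))
        rw [U_sym' _ _ _ (hs' j (g j')) _ (hall _), this, zero_mul]
        exact Submodule.zero_mem _
      rw [Submodule.mem_bot] at h0
      rw [List.map_cons, ← U_bd, hbd, map_add, h0, add_zero, hc,
        U_sym' _ _ _ (hs' j (g j)) _ (hall _), h1, one_mul]
      exact hw s hs'

omit [DecidableEq Λ] in
theorem isCompact_Sph (g : Λ → κ) : IsCompact (Sph g) := by
  refine Metric.isCompact_of_isClosed_isBounded ?_ ?_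
  · have : Sph g = ⋂ k, {x | ∑ c with grp g c = k, |x c| = 1} := by
      ext x; simp [Sph]
    rw [this]
    exact isClosed_iInter fun k => isClosed_eq (by fun_prop) continuous_const
  · refine (Metric.isBounded_closedBall (x := 0) (r := 1)).subset fun x hx => ?_
    rw [mem_closedBall_zero_iff, pi_norm_le_iff_of_nonneg zero_le_one]
    exact fun c => abs_le_of_mem hx c

/-- Borsuk-Ulam for products of spheres. -/
theorem prod_bu (g : Λ → κ) (χ : Λ → κ → ZMod 2) (ρ : Λ → ℕ) (h1 : ∀ j, χ j (g j) = 1)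
    (h2 : ∀ j j', g j' ≠ g j → χ j (g j') ≠ 0 → ρ j < ρ j')
    (f : (κ ⊕ Λ → ℝ) → Λ → ℝ) (hf : ContinuousOn f (Sph g))
    (heq : ∀ k, ∀ x ∈ Sph g, ∀ j, f (flip g k x) j = if χ j k = 0 then f x j else -f x j) :
    ∃ x ∈ Sph g, f x = 0 := by
  classical
  by_contra hne
  push Not at hne
  have hc := isCompact_Sph g
  have hne' : (Sph g).Nonempty := ⟨Sum.elim 1 0, fun k => by
    rw [Finset.sum_filter, Fintype.sum_sum_type]
    simp [grp]⟩
  obtain ⟨x0, hx0, hmin⟩ := hc.exists_isMinOn hne' hf.norm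
  have hm : 0 < ‖f x0‖ := norm_pos_iff.2 (hne x0 hx0)
  obtain ⟨δ, hδ, hu⟩ := Metric.uniformContinuousOn_iff_le.1
    (hc.uniformContinuousOn_of_continuous hf) (‖f x0‖ / 2) (by positivity)
  obtain ⟨l, h, a, hl, hs, -, hw⟩ := exists_chain' g χ ρ h1 h2 Finset.univ δ hδ
  let sg : Λ → (κ ⊕ Λ → ℝ) × (κ → ZMod 2) → ZMod 2 := fun j p =>
    if p.1 ∈ Sph g ∧ 0 < f p.1 j then 1 else if p.1 ∈ Sph g ∧ f p.1 j < 0 then 0
      else ∑ k, χ j k * p.2 k
  have h1 := hw sg (by
    intro j k p
    have z : (1 : ZMod 2) + 1 = 0 := rfl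
    have hsum : ∑ k', χ j k' * (nu' g k p).2 k' = ∑ k', χ j k' * p.2 k' + χ j k := by
      simp [nu', mul_add, Finset.sum_add_distrib, Pi.single_apply]
    have hχ : χ j k = 0 ∨ χ j k = 1 := by
      generalize χ j k = b
      revert b
      decide
    have hmem : (nu' g k p).1 ∈ Sph g ↔ p.1 ∈ Sph g := flip_mem g k p.1
    by_cases hp : p.1 ∈ Sph g
    · have e : f (nu' g k p).1 j = if χ j k = 0 then f p.1 j else -f p.1 j := heq k p.1 hp j
      simp only [sg, hmem, hp, true_and, e, hsum]
      rcases hχ with h | h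
      · simp [h]
      · rcases lt_trichotomy (f p.1 j) 0 with h' | h' | h'
        · simp [h, h', h'.not_gt]
        · simp [h, h']
        · simp [h, h', h'.not_gt, z]
    · simp only [sg, hmem, hp, false_and, if_false, hsum])
  have h0 : ext1 (W (l.map sg)) h ∈ (⊥ : Submodule (ZMod 2) (ZMod 2)) := by
    refine map_mem_of_supp _ _ _ ?_ _ hs
    intro l' hl'
    rw [ext1_single, one_smul, Submodule.mem_bot]
    cases l' with
    | nil => exact W_nil _
    | cons p l' =>
      have hp := hl' p List.mem_cons_self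
      have hpm : ‖f x0‖ ≤ ‖f p.1‖ := hmin hp.1.1
      obtain ⟨j, hj⟩ : ∃ j, ‖f x0‖ / 2 < |f p.1 j| := by
        by_contra hcon
        push Not at hcon
        have : ‖f p.1‖ ≤ ‖f x0‖ / 2 :=
          (pi_norm_le_iff_of_nonneg (by positivity)).2 (fun j => by simpa using hcon j)
        linarith
      have hq : ∀ q ∈ p :: l', q.1 ∈ Sph g ∧ |f p.1 j - f q.1 j| ≤ ‖f x0‖ / 2 := by
        intro q hq
        have hq1 := (hl' q hq).1.1
        refine ⟨hq1, ?_⟩
        have := hu p.1 hp.1.1 q.1 hq1 (hp.2 q hq)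
        exact (dist_le_pi_dist (f p.1) (f q.1) j).trans this
      have hmem : sg j ∈ l.map sg := List.mem_map.2 ⟨j, hl j (Finset.mem_univ _), rfl⟩
      rcases lt_abs.1 hj with hj | hj
      · refine W_eq_zero _ (sg j) hmem 1 _ ?_
        intro q hq'
        obtain ⟨a, b⟩ := hq q hq'
        have : 0 < f q.1 j := by rw [abs_le] at b; linarith [b.2]
        simp [sg, a, this]
      · refine W_eq_zero _ (sg j) hmem 0 _ ?_
        intro q hq'
        obtain ⟨a, b⟩ := hq q hq'
        have : f q.1 j < 0 := by rw [abs_le] at b; linarith [b.1]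
        simp [sg, a, this, this.not_gt]
  rw [Submodule.mem_bot, h1] at h0
  exact one_ne_zero h0

end Pool.Agent.Work.MP_501a10_an
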