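import Pool.Agent.Work.MP_501a10_an.Traces
import Mathlib.Topology.ContinuousMap.SecondCountableSpace
import Mathlib.Topology.Metrizable.Urysohn
import Mathlib.Topology.Metrizable.Uniformity

/-!
Simplicity, separability and the AH property of limits of diagonal systems.
-/

open Filter Topology Matrix
open scoped Matrix.Norms.L2Operator ComplexOrder

set_option linter.unusedSectionVars false

noncomputable section

namespace Pool.Agent.Work.MP_501a10_an

section Vec

variable {I I' L : Type} [Fintype I] [Fintype I'] [Fintype L] [DecidableEq L]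

theorem bd_mulVec (e : I' ≃ I × L) (G : L → Matrix I I ℂ) (ξ : I' → ℂ) (a : I') :
    ((blockDiagonal G).submatrix e e *ᵥ ξ) a
      = (G (e a).2 *ᵥ fun i => ξ (e.symm (i, (e a).2))) (e a).1 := by
  simp only [mulVec, dotProduct, submatrix_apply]
  rw [← e.symm.sum_comp, Fintype.sum_prod_type]
  refine Finset.sum_congr rfl fun i _ => ?_
  simp [blockDiagonal_apply]

/-- A vector placed in one block. -/
def ext (e : I' ≃ I × L) (l : L) (ξ : I → ℂ) : I' → ℂ :=
  fun b => if (e b).2 = l then ξ (e b).1 else 0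

theorem qf_ext (e : I' ≃ I × L) (G : L → Matrix I I ℂ) (l : L) (ξ : I → ℂ) :
    star (ext e l ξ) ⬝ᵥ (blockDiagonal G).submatrix e e *ᵥ ext e l ξ = star ξ ⬝ᵥ G l *ᵥ ξ := by
  simp only [dotProduct, bd_mulVec]
  rw [← e.symm.sum_comp, Fintype.sum_prod_type]
  refine Finset.sum_congr rfl fun i _ => ?_
  rw [Finset.sum_eq_single l]
  · simp [ext]
  · intro l' _ h
    simp [ext, h]
  · simp

theorem ext_unit [DecidableEq I] [DecidableEq I'] (e : I' ≃ I × L) (l : L) {ξ : I → ℂ}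
    (h : star ξ ⬝ᵥ ξ = 1) : star (ext e l ξ) ⬝ᵥ ext e l ξ = 1 := by
  have := qf_ext e 1 l ξ
  rwa [blockDiagonal_one, submatrix_one_equiv, one_mulVec, Pi.one_apply, one_mulVec, h] at this

theorem exists_unit_vec [DecidableEq I] (M : Matrix I I ℂ) {c : ℝ} (hc : 0 ≤ c) (h : c < ‖M‖) :
    ∃ ξ : I → ℂ, star ξ ⬝ᵥ ξ = 1 ∧ c ^ 2 < (star ξ ⬝ᵥ (Mᴴ * M) *ᵥ ξ).re := by
  have key : ∀ x : EuclideanSpace ℂ I, star x.ofLp ⬝ᵥ x.ofLp = (‖x‖ ^ 2 : ℝ) := by
    intro x
    rw [dotProduct_comm, ← EuclideanSpace.inner_eq_star_dotProduct, inner_self_eq_norm_sq_to_K]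
    simp
  by_contra hcon
  push Not at hcon
  refine absurd h (not_lt.2 ?_)
  rw [cstar_norm_def]
  refine ContinuousLinearMap.opNorm_le_of_unit_norm hc fun x hx => ?_
  have h1 := hcon x.ofLp (by rw [key, hx]; simp)
  rw [← mulVec_mulVec, dotProduct_mulVec, ← star_mulVec] at h1
  have h2 := key (toEuclideanCLM (n := I) (𝕜 := ℂ) M x)
  rw [ofLp_toEuclideanCLM] at h2
  rw [h2, Complex.ofReal_re] at h1
  exact le_of_sq_le_sq h1 hc

theorem sum_conj [DecidableEq I] (M : Matrix I I ℂ) (ξ : I → ℂ) :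
    ∑ i, vecMulVec (Pi.single i 1) (star ξ) * M * (vecMulVec (Pi.single i 1) (star ξ))ᴴ
      = (star ξ ⬝ᵥ M *ᵥ ξ) • (1 : Matrix I I ℂ) := by
  ext a b
  simp only [Matrix.sum_apply, mul_apply, vecMulVec_apply, conjTranspose_apply, Matrix.smul_apply,
    one_apply, smul_eq_mul, dotProduct, mulVec, Pi.star_apply, star_mul', star_star]
  rw [Finset.sum_eq_single a]
  · by_cases h : a = b
    · subst h
      simp only [Pi.single_eq_same, one_mul, star_one, if_true, mul_one, Finset.sum_mul,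
        Finset.mul_sum, mul_assoc]
      exact Finset.sum_comm
    · simp [h, Pi.single_eq_of_ne' h]
  · intro i _ h
    simp [Pi.single_eq_of_ne' h]
  · simp

end Vec

/-- Points of a later stage lying over a given point. -/
inductive Reach {Z L : ℕ → Type} (lam : ∀ n, L n → Z (n + 1) → Z n) (n : ℕ) (z : Z n) :
    ∀ m, Z m → Prop
  | refl : Reach lam n z n z
  | step {m : ℕ} {w : Z (m + 1)} (l : L m) : Reach lam n z m (lam m l w) → Reach lam n z (m + 1) w

theorem Reach.mono {Z L L' : ℕ → Type} {lam : ∀ n, L n → Z (n + 1) → Z n}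
    {lam' : ∀ n, L' n → Z (n + 1) → Z n} (h : ∀ n l, ∃ l', lam' n l' = lam n l) {n m : ℕ}
    {z : Z n} {w : Z m} (hr : Reach lam n z m w) : Reach lam' n z m w := by
  induction hr with
  | refl => exact .refl
  | step l _ ih =>
    obtain ⟨l', hl⟩ := h _ l
    exact .step l' (hl ▸ ih)

theorem exists_reach {Z L : ℕ → Type} {lam : ∀ n, L n → Z (n + 1) → Z n}
    (h : ∀ n z, ∃ l w, lam n l w = z) {n m : ℕ} (hnm : n ≤ m) (z : Z n) :
    ∃ w, Reach lam n z m w := by
  induction m, hnm using Nat.le_induction with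
  | base => exact ⟨z, .refl⟩
  | succ m _ ih =>
    obtain ⟨w, hw⟩ := ih
    obtain ⟨l, w', rfl⟩ := h m w
    exact ⟨w', .step l hw⟩

theorem exists_pts {Z L : ℕ → Type} [∀ n, TopologicalSpace (Z n)]
    [∀ n, TopologicalSpace.SeparableSpace (Z n)] [∀ n, Nonempty (Z n)]
    {lam : ∀ n, L n → Z (n + 1) → Z n} (h : ∀ n z, ∃ l w, lam n l w = z) :
    ∃ p : ∀ m, Z m, ∀ n (U : Set (Z n)), IsOpen U → U.Nonempty →
      ∃ m, ∃ z ∈ U, Reach lam n z m (p m) := by
  choose p hp using fun m => exists_reach h (Nat.unpair_left_le m)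
    (TopologicalSpace.denseSeq (Z m.unpair.1) m.unpair.2)
  refine ⟨p, fun n U hU hne => ?_⟩
  obtain ⟨i, hi⟩ := (TopologicalSpace.denseRange_denseSeq (Z n)).exists_mem_open hU hne
  have key : ∀ (q : ℕ × ℕ) m, q = m.unpair →
      Reach lam q.1 (TopologicalSpace.denseSeq (Z q.1) q.2) m (p m) := by
    rintro q m rfl
    exact hp m
  exact ⟨_, _, hi, key (n, i) _ (Nat.unpair_pair n i).symm⟩

variable {Z : ℕ → Type} [∀ n, TopologicalSpace (Z n)] [∀ n, CompactSpace (Z n)]

namespace Lim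

variable {S : Sys Z} {A : Type} [CStarAlgebra A] [PartialOrder A] [StarOrderedRing A]
  (Λ : Lim S A)

theorem reach_vec {n m : ℕ} {z : Z n} {w : Z m} (h : Reach (fun n l => S.lam n l) n z m w)
    (f : S.St n) {ξ : Fin (S.k n) → ℂ} (hξ : star ξ ⬝ᵥ ξ = 1) :
    ∃ (f' : S.St m) (ξ' : Fin (S.k m) → ℂ), Λ.ψ m f' = Λ.ψ n f ∧ star ξ' ⬝ᵥ ξ' = 1 ∧
      star ξ' ⬝ᵥ (star f' * f') w *ᵥ ξ' = star ξ ⬝ᵥ (star f * f) z *ᵥ ξ := by
  induction h with
  | refl => exact ⟨f, ξ, rfl, hξ, rfl⟩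
  | @step m w l _ ih =>
    obtain ⟨f', ξ', h1, h2, h3⟩ := ih
    refine ⟨S.φ m f', ext (S.e m) l ξ', (Λ.compat m f').trans h1, ext_unit _ _ h2, ?_⟩
    rw [← map_star, ← map_mul, ← h3]
    exact qf_ext (S.e m) (fun l => (star f' * f') (S.lam m l w)) l ξ'

theorem sc_nonneg (n : ℕ) {g : C(Z n, ℂ)} (hg : ∀ z, 0 ≤ g z) : 0 ≤ Λ.ψ n (sc _ g) := by
  let s : C(Z n, ℂ) := ⟨fun z => (√(g z).re : ℝ), by fun_prop⟩
  have : g = star s * s := by
    ext z
    have h := hg z
    simp only [s, ContinuousMap.mul_apply, ContinuousMap.star_apply, ContinuousMap.coe_mk,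
      RCLike.star_def, Complex.conj_ofReal, ← Complex.ofReal_mul]
    rw [Real.mul_self_sqrt (by simpa using h.1)]
    exact Complex.ext rfl (by simpa using h.2.symm)
  rw [this, map_mul, map_mul, map_star, map_star]
  exact star_mul_self_nonneg _

include Λ in
theorem isSimple [Nonempty (Z 0)]
    (hS : ∀ n (U : Set (Z n)), IsOpen U → U.Nonempty → ∃ m, ∃ z ∈ U, ∃ w₀,
      Reach (fun n l => S.lam n l) n z m w₀ ∧
      ∃ l : Bool → S.L m, ∀ w, ∃ β, S.lam m (l β) w = w₀) : IsSimple A := by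
  refine ⟨?_, fun I _ => ?_⟩
  · have : Nonempty (Fin (S.k 0)) := ⟨⟨0, S.kpos 0⟩⟩
    exact (Λ.inj 0).nontrivial
  rw [or_iff_not_imp_left]
  intro hI
  obtain ⟨a, haI, ha⟩ : ∃ a ∈ I, a ≠ 0 := by
    by_contra hcon
    push Not at hcon
    exact hI (eq_bot_iff.2 fun a ha => hcon a ha)
  have hc : 0 < ‖a‖ / 2 := by positivity
  set δ := (‖a‖ / 2) ^ 2 / 4 with hδ
  have hU : {y : A | ‖star y * y - star a * a‖ < δ ∧ ‖a‖ / 2 < ‖y‖} ∈ 𝓝 a := by
    refine IsOpen.mem_nhds (IsOpen.and (isOpen_lt (by fun_prop) continuous_const)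
      (isOpen_lt continuous_const continuous_norm)) ⟨?_, by linarith⟩
    simp only [sub_self, norm_zero]
    positivity
  obtain ⟨n, f, hf1, hf2⟩ := (Λ.ψ_approx hU).exists
  rw [NonUnitalStarAlgHom.norm_map (Λ.ψ n) (Λ.inj n)] at hf2
  obtain ⟨z₀, hz₀⟩ : ∃ z, ‖a‖ / 2 < ‖f z‖ := by
    by_contra hcon
    push Not at hcon
    exact absurd hf2 (not_lt.2 ((ContinuousMap.norm_le _ hc.le).2 hcon))
  obtain ⟨ξ, hξ, hξ'⟩ := exists_unit_vec (f z₀) hc.le hz₀
  obtain ⟨m, z, hz, w₀, hr, l, hl⟩ := hS n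
    {z | (‖a‖ / 2) ^ 2 < (star ξ ⬝ᵥ (star f * f) z *ᵥ ξ).re}
    (isOpen_lt continuous_const (Complex.continuous_re.comp
      (continuous_const.dotProduct ((star f * f).2.matrix_mulVec continuous_const)))) ⟨z₀, hξ'⟩
  obtain ⟨f', ξ', h1, h2, h3⟩ := Λ.reach_vec hr f hξ
  let X : Bool → Fin (S.k (m + 1)) → S.St (m + 1) := fun β i =>
    .const _ (vecMulVec (Pi.single i 1) (star (ext (S.e m) (l β) ξ')))
  let g : S.St m → Bool → C(Z (m + 1), ℂ) := fun F β =>
    ⟨fun w => star ξ' ⬝ᵥ F (S.lam m (l β) w) *ᵥ ξ',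
      continuous_const.dotProduct ((F.2.comp (S.lam m (l β)).2).matrix_mulVec continuous_const)⟩
  have hX : ∀ (F : S.St m) β, ∑ i, X β i * S.φ m F * star (X β i) = sc _ (g F β) := by
    intro F β
    refine ContinuousMap.ext fun w => ?_
    rw [ContinuousMap.sum_apply, sc_apply]
    refine (sum_conj (S.φ m F w) _).trans ?_
    congr 1
    exact qf_ext (S.e m) (fun l => F (S.lam m l w)) (l β) ξ'
  let T : A := ∑ β, ∑ i, Λ.ψ _ (X β i) * (star a * a) * star (Λ.ψ _ (X β i))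
  have hT : T ∈ I := sum_mem fun β _ => sum_mem fun i _ =>
    I.mul_mem_right _ _ (I.mul_mem_left _ _ (I.mul_mem_left _ _ haI))
  let F : S.St m := star f' * f' - (δ : ℂ) • 1
  have hF : Λ.ψ (m + 1) (S.φ m F) ≤ star a * a := by
    have hsa : IsSelfAdjoint (star (Λ.ψ n f) * Λ.ψ n f - star a * a) :=
      (IsSelfAdjoint.star_mul_self _).sub (IsSelfAdjoint.star_mul_self _)
    have h4 := hsa.le_algebraMap_norm_self.trans
      (algebraMap_mono A hf1.le)
    rw [Λ.compat, map_sub, map_mul, map_star, h1, map_smul, map_one, sub_le_comm,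
      Complex.coe_smul, ← Algebra.algebraMap_eq_smul_one]
    exact h4
  have h5 : Λ.ψ (m + 1) (sc _ (∑ β, g F β)) ≤ T := by
    rw [map_sum, map_sum]
    refine Finset.sum_le_sum fun β _ => ?_
    rw [← hX, map_sum]
    refine Finset.sum_le_sum fun i _ => ?_
    rw [map_mul, map_mul, map_star]
    exact star_right_conjugate_le_conjugate hF _
  have h6 : algebraMap ℝ A (2 * δ) ≤ Λ.ψ (m + 1) (sc _ (∑ β, g F β)) := by
    have := Λ.sc_nonneg (m + 1) (g := ∑ β, g F β - ((2 * δ : ℝ) : ℂ) • 1) fun w => ?_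
    · rwa [map_sub, map_sub, map_smul, map_smul, map_one, map_one, sub_nonneg, Complex.coe_smul,
        ← Algebra.algebraMap_eq_smul_one] at this
    have e : ∀ β, g F β w = star ξ' ⬝ᵥ (star f' * f') (S.lam m (l β) w) *ᵥ ξ' - δ := by
      intro β
      simp only [g, F, ContinuousMap.coe_mk]
      rw [ContinuousMap.sub_apply, ContinuousMap.smul_apply, ContinuousMap.one_apply, sub_mulVec, dotProduct_sub, smul_mulVec, one_mulVec, dotProduct_smul, h2, smul_eq_mul,
        mul_one]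
    have e0 : ∀ y, 0 ≤ star ξ' ⬝ᵥ (star f' * f') y *ᵥ ξ' := fun y =>
      (posSemidef_conjTranspose_mul_self (f' y)).dotProduct_mulVec_nonneg ξ'
    have e1 : ((4 * δ : ℝ) : ℂ) ≤ star ξ' ⬝ᵥ (star f' * f') w₀ *ᵥ ξ' := by
      refine ⟨?_, (e0 w₀).2⟩
      rw [h3, Complex.ofReal_re]
      have : (‖a‖ / 2) ^ 2 < _ := hz
      linarith
    obtain ⟨β, hβ⟩ := hl w
    rw [← hβ] at e1
    rw [ContinuousMap.sub_apply, Fintype.sum_bool, ContinuousMap.add_apply, e, e,
      ContinuousMap.smul_apply, ContinuousMap.one_apply, smul_eq_mul, mul_one]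
    simp only [Complex.ofReal_mul, Complex.ofReal_ofNat] at e1 ⊢
    cases β
    · linear_combination e1 + e0 (S.lam m (l true) w)
    · linear_combination e1 + e0 (S.lam m (l false) w)
  have hu : IsUnit T := CStarAlgebra.isUnit_of_le _ (h6.trans h5)
    (isStrictlyPositive_algebraMap (by positivity))
  obtain ⟨v, hv⟩ := hu.exists_left_inv
  exact (TwoSidedIdeal.one_mem_iff _).1 (hv ▸ I.mul_mem_left v _ hT)

include Λ in
theorem separable [∀ n, SecondCountableTopology (Z n)] [∀ n, T2Space (Z n)] :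
    TopologicalSpace.SeparableSpace A := by
  rw [← TopologicalSpace.isSeparable_univ_iff, ← Λ.dense.closure_eq]
  refine TopologicalSpace.IsSeparable.closure (.iUnion fun n => ?_)
  exact TopologicalSpace.isSeparable_range
    (NonUnitalStarAlgHom.isometry (Λ.ψ n) (Λ.inj n)).continuous

/-- Matrices of functions as matrix functions. -/
def toMF {Y I : Type} [TopologicalSpace Y] [Fintype I] [DecidableEq I] :
    Matrix I I C(Y, ℂ) →⋆ₐ[ℂ] MF Y I I where
  toFun M := ⟨fun y => Matrix.of fun a b => M a b y, continuous_matrix fun a b => (M a b).2⟩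
  map_one' := by
    ext y a b
    simp only [ContinuousMap.coe_mk, of_apply, ContinuousMap.one_apply, one_apply]
    split_ifs <;> rfl
  map_mul' M N := by
    ext y a b
    simp [mul_apply]
  map_zero' := rfl
  map_add' M N := rfl
  commutes' c := by
    ext y a b
    simp only [ContinuousMap.coe_mk, of_apply, Algebra.algebraMap_eq_smul_one,
      ContinuousMap.smul_apply, ContinuousMap.one_apply, Matrix.smul_apply, one_apply]
    split_ifs <;> simp
  map_star' M := rfl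

theorem toMF_bijective {Y I : Type} [TopologicalSpace Y] [Fintype I] [DecidableEq I] :
    Function.Bijective (toMF (Y := Y) (I := I)) :=
  ⟨fun M N h => by
    ext a b y
    exact congrArg (fun F : MF Y I I => F y a b) h,
  fun F => ⟨Matrix.of fun a b => ⟨fun y => F y a b, F.2.matrix_elem a b⟩, rfl⟩⟩

include Λ in
theorem isAH [∀ n, SecondCountableTopology (Z n)] [∀ n, T2Space (Z n)] : IsAH A := by
  have hr : ∀ n, Set.range ((Λ.ψ n).comp toMF) = Set.range (Λ.ψ n) := fun n =>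
    toMF_bijective.2.range_comp (Λ.ψ n)
  refine ⟨Z, fun n => TopologicalSpace.metrizableSpaceMetric (Z n), inferInstance, S.k,
    fun n => (Λ.ψ n).comp toMF, fun n => (Λ.inj n).comp toMF_bijective.1, fun n => ?_, ?_⟩
  · rw [hr, hr]
    rintro _ ⟨f, rfl⟩
    exact ⟨_, Λ.compat n f⟩
  · simp only [hr]
    exact Λ.dense

end Lim

end Pool.Agent.Work.MP_501a10_an
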