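import Mathlib.LinearAlgebra.Matrix.Rank
import Mathlib.LinearAlgebra.Matrix.NonsingularInverse
import Mathlib.LinearAlgebra.Matrix.DotProduct
import Mathlib.Topology.Instances.Matrix
import Mathlib.Topology.ContinuousMap.Compact
import Mathlib.Topology.Baire.Lemmas
import Mathlib.Analysis.Complex.Order
import Mathlib.Analysis.RCLike.Basic
import Mathlib.Analysis.Complex.Basic

/-!
Splitting off trivial summands from a matrix function of large rank over a space of small
dimension.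
-/

open Matrix
open scoped ComplexOrder

namespace Pool.Agent.Work.MP_501a10_an

variable {I J : Type} [Fintype I] [Fintype J]

omit [Fintype I] in
theorem rank_add_le' (a b : Matrix I J ℂ) : (a + b).rank ≤ a.rank + b.rank := by
  unfold Matrix.rank
  refine le_trans (Submodule.finrank_mono ?_)
    (Submodule.finrank_add_le_finrank_add_finrank _ _)
  rintro _ ⟨v, rfl⟩
  rw [mulVecLin_add]
  exact Submodule.add_mem_sup ⟨v, rfl⟩ ⟨v, rfl⟩

omit [Fintype I] in
theorem exists_inj (g : Matrix I J ℂ) {j : ℕ} (hj : j ≤ g.rank) :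
    ∃ e : Matrix J (Fin j) ℂ, ∀ v, (g * e) *ᵥ v = 0 → v = 0 := by
  obtain ⟨b, hb⟩ := exists_linearIndependent_of_le_finrank hj
  choose x hx using fun i => (b i).2
  refine ⟨Matrix.of fun a i => x i a, fun v hv => ?_⟩
  have : ∑ i, v i • b i = 0 := by
    apply Subtype.ext
    rw [Submodule.coe_sum, Submodule.coe_zero, ← hv]
    ext a
    simp only [Submodule.coe_smul, ← hx, mulVecLin_apply, Finset.sum_apply, Pi.smul_apply,
      smul_eq_mul, mulVec, dotProduct, mul_apply, of_apply]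
    exact Finset.sum_congr rfl fun i _ => mul_comm _ _
  ext i
  exact Fintype.linearIndependent_iff.1 hb v this i

variable {Y : Type} [TopologicalSpace Y] [CompactSpace Y]

theorem exists_vec {j : ℕ}
    (hlow : ∀ h : Y → Fin j → ℂ, Continuous h → ∀ η : ℝ, 0 < η →
      ∃ h' : Y → Fin j → ℂ, Continuous h' ∧ (∀ y, ‖h' y - h y‖ ≤ η) ∧ ∀ y, h' y ≠ 0)
    (g : Y → Matrix I J ℂ) (hg : Continuous g) (hr : ∀ y, j ≤ (g y).rank) :
    ∃ ξ : Y → J → ℂ, Continuous ξ ∧ ∀ y, g y *ᵥ ξ y ≠ 0 := by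
  choose e he using fun y => exists_inj (g y) (hr y)
  let M : Y → Y → Matrix (Fin j) (Fin j) ℂ := fun y₀ y => (g y₀ * e y₀)ᴴ * (g y * e y₀)
  have hM : ∀ y₀, Continuous (M y₀) := fun y₀ =>
    continuous_const.matrix_mul (hg.matrix_mul continuous_const)
  have hdet : ∀ y₀, 0 < ‖(M y₀ y₀).det‖ := by
    intro y₀
    rw [norm_pos_iff]
    intro h0
    obtain ⟨v, hv, hv'⟩ := Matrix.exists_mulVec_eq_zero_iff.2 h0
    exact hv (he y₀ v ((conjTranspose_mul_self_mulVec_eq_zero _ _).1 hv'))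
  have hcd : ∀ y₀, Continuous fun y => (M y₀ y).det := fun y₀ => (hM y₀).matrix_det
  let K : Y → Set Y := fun y₀ => {y | ‖(M y₀ y₀).det‖ / 2 ≤ ‖(M y₀ y).det‖}
  obtain ⟨t, ht⟩ := isCompact_univ.elim_finite_subcover
    (fun y₀ => {y | ‖(M y₀ y₀).det‖ / 2 < ‖(M y₀ y).det‖})
    (fun y₀ => isOpen_lt continuous_const (hcd y₀).norm)
    (fun y _ => Set.mem_iUnion.2 ⟨y, by
      have := hdet y
      change ‖(M y y).det‖ / 2 < ‖(M y y).det‖
      linarith⟩)
  let O : Y → Set C(Y, J → ℂ) := fun y₀ => {ξ | ∀ y ∈ K y₀, g y *ᵥ ξ y ≠ 0}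
  have hO : ∀ y₀, IsOpen (O y₀) := by
    intro y₀
    let T : C(Y, J → ℂ) → C(Y, I → ℂ) := fun ξ => ⟨fun y => g y *ᵥ ξ y, hg.matrix_mulVec ξ.2⟩
    have hT : Continuous T := ContinuousMap.continuous_of_continuous_uncurry _
      ((hg.comp continuous_snd).matrix_mulVec continuous_eval)
    have hK : IsCompact (K y₀) := (isClosed_le continuous_const (hcd y₀).norm).isCompact
    exact (ContinuousMap.isOpen_setOfPred_mapsTo hK (isOpen_compl_singleton (x := 0))).preimage hT
  have hD : ∀ y₀, Dense (O y₀) := by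
    intro y₀ ξ
    let N : Y → Matrix (Fin j) (Fin j) ℂ := fun y =>
      (star (M y₀ y).det / ((max (‖(M y₀ y).det‖) (‖(M y₀ y₀).det‖ / 2) : ℝ) : ℂ) ^ 2) •
        (M y₀ y).adjugate
    have hpos : ∀ y, 0 < max (‖(M y₀ y).det‖) (‖(M y₀ y₀).det‖ / 2) := fun y =>
      lt_max_of_lt_right (by have := hdet y₀; positivity)
    have hN : Continuous N := by
      refine Continuous.smul (Continuous.div (hcd y₀).star ?_ fun y => ?_) (hM y₀).matrix_adjugate
      · exact (Complex.continuous_ofReal.comp ((hcd y₀).norm.max continuous_const)).pow 2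
      · exact pow_ne_zero _ (Complex.ofReal_ne_zero.2 (hpos y).ne')
    have hMN : ∀ y ∈ K y₀, M y₀ y * N y = 1 := by
      intro y hy
      have h1 : max (‖(M y₀ y).det‖) (‖(M y₀ y₀).det‖ / 2) = ‖(M y₀ y).det‖ := max_eq_left hy
      have h2 := hpos y
      rw [h1] at h2
      simp only [N, h1, Matrix.mul_smul, mul_adjugate, smul_smul]
      have : star (M y₀ y).det / ((‖(M y₀ y).det‖ : ℝ) : ℂ) ^ 2 * (M y₀ y).det = 1 := by
        rw [div_mul_eq_mul_div, div_eq_one_iff_eq (pow_ne_zero _ (Complex.ofReal_ne_zero.2 h2.ne'))]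
        exact Complex.conj_mul' _
      rw [this, one_smul]
    let F : C(Y, Fin j → ℂ) → C(Y, J → ℂ) := fun δ =>
      ⟨fun y => ξ y + (e y₀ * N y) *ᵥ δ y,
        ξ.2.add ((continuous_const.matrix_mul hN).matrix_mulVec δ.2)⟩
    have hF : Continuous F := ContinuousMap.continuous_of_continuous_uncurry _
      ((ξ.2.comp continuous_snd).add
        (((continuous_const.matrix_mul hN).comp continuous_snd).matrix_mulVec continuous_eval))
    let h : Y → Fin j → ℂ := fun y => ((g y₀ * e y₀)ᴴ * g y) *ᵥ ξ y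
    have hh : Continuous h := (continuous_const.matrix_mul hg).matrix_mulVec ξ.2
    have h0 : (0 : C(Y, Fin j → ℂ)) ∈ closure {δ : C(Y, Fin j → ℂ) | ∀ y, h y + δ y ≠ 0} := by
      rw [Metric.mem_closure_iff]
      intro ε hε
      obtain ⟨h', hc, hn, hne⟩ := hlow h hh (ε / 2) (by positivity)
      refine ⟨⟨fun y => h' y - h y, hc.sub hh⟩, fun y => by simpa using hne y, ?_⟩
      rw [dist_comm, dist_zero_right]
      exact lt_of_le_of_lt ((ContinuousMap.norm_le _ (by positivity)).2 hn) (by linarith)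
    have hF0 : F 0 = ξ := by
      ext y a
      simp [F]
    rw [← hF0]
    refine map_mem_closure hF h0 fun δ hδ y hy hz => hδ y ?_
    have : (g y₀ * e y₀)ᴴ *ᵥ (g y *ᵥ (ξ y + (e y₀ * N y) *ᵥ δ y)) = h y + δ y := by
      rw [mulVec_add, mulVec_add, mulVec_mulVec, mulVec_mulVec, mulVec_mulVec]
      congr 1
      have := hMN y hy
      simp only [M, Matrix.mul_assoc] at this ⊢
      rw [this, one_mulVec]
    rw [← this]
    change (g y₀ * e y₀)ᴴ *ᵥ (g y *ᵥ F δ y) = 0
    rw [hz, mulVec_zero]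
  have := (t.finite_toSet.image O).dense_sInter (by rintro _ ⟨y, -, rfl⟩; exact hO y)
    (by rintro _ ⟨y, -, rfl⟩; exact hD y)
  obtain ⟨ξ, hξ⟩ := this.nonempty
  refine ⟨ξ, ξ.2, fun y => ?_⟩
  obtain ⟨y₀, hy₀, hy⟩ := Set.mem_iUnion₂.1 (ht (Set.mem_univ y))
  exact hξ _ ⟨y₀, hy₀, rfl⟩ y
    (le_of_lt (hy : ‖(M y₀ y₀).det‖ / 2 < ‖(M y₀ y).det‖) : ‖(M y₀ y₀).det‖ / 2 ≤ ‖(M y₀ y).det‖)

/-- Splitting off a trivial summand of rank `i`. -/
theorem split {S : ℕ}
    (hlow : ∀ h : Y → Fin (S + 1) → ℂ, Continuous h → ∀ η : ℝ, 0 < η →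
      ∃ h' : Y → Fin (S + 1) → ℂ, Continuous h' ∧ (∀ y, ‖h' y - h y‖ ≤ η) ∧ ∀ y, h' y ≠ 0)
    (i : ℕ) (g : Y → Matrix I J ℂ) (hg : Continuous g) (hr : ∀ y, S + i ≤ (g y).rank) :
    ∃ w : Y → Matrix J (Fin i) ℂ, Continuous w ∧ ∀ y v, (g y * w y) *ᵥ v = 0 → v = 0 := by
  induction i generalizing g with
  | zero => exact ⟨fun _ => 0, continuous_const, fun _ v _ => Subsingleton.elim _ _⟩
  | succ i ih =>
    obtain ⟨ξ, hξ, hne⟩ := exists_vec hlow g hg fun y => le_trans (by omega) (hr y)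
    let η : Y → I → ℂ := fun y => g y *ᵥ ξ y
    have hη : Continuous η := hg.matrix_mulVec hξ
    let g₁ : Y → Matrix I J ℂ := fun y =>
      (star (η y) ⬝ᵥ η y) • g y - vecMulVec (η y) (star (η y) ᵥ* g y)
    have hg₁ : Continuous g₁ := (((hη.star).dotProduct hη).smul hg).sub
      (hη.matrix_vecMulVec ((hη.star).matrix_vecMul hg))
    have hc : ∀ y, star (η y) ⬝ᵥ η y ≠ 0 := fun y h => hne y (dotProduct_star_self_eq_zero.1 h)
    have hact : ∀ y u, g₁ y *ᵥ u = (star (η y) ⬝ᵥ η y) • (g y *ᵥ u)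
        - (star (η y) ⬝ᵥ (g y *ᵥ u)) • η y := by
      intro y u
      simp only [g₁, sub_mulVec, smul_mulVec, vecMulVec_mulVec, dotProduct_mulVec,
        op_smul_eq_smul]
    obtain ⟨w, hw, hinj⟩ := ih g₁ hg₁ fun y => by
      have h1 : (star (η y) ⬝ᵥ η y) • g y = g₁ y + vecMulVec (η y) (star (η y) ᵥ* g y) := by
        simp [g₁]
      have h2 := rank_add_le' (g₁ y) (vecMulVec (η y) (star (η y) ᵥ* g y))
      have h3 := rank_vecMulVec_le (η y) (star (η y) ᵥ* g y)
      rw [← h1, rank_smul_of_mem_nonZeroDivisors _ (mem_nonZeroDivisors_of_ne_zero (hc y))] at h2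
      have := hr y
      omega
    refine ⟨fun y => Matrix.of fun a => Fin.cons (ξ y a) (w y a), ?_, fun y v hv => ?_⟩
    · refine continuous_matrix fun a k => ?_
      refine Fin.cases ?_ (fun k => ?_) k
      · exact (continuous_apply a).comp hξ
      · simpa using hw.matrix_elem a k
    · have e1 : (Matrix.of fun a => (Fin.cons (ξ y a) (w y a) : Fin (i + 1) → ℂ)) *ᵥ v
          = v 0 • ξ y + w y *ᵥ Fin.tail v := by
        ext a
        simp [mulVec, dotProduct, Fin.sum_univ_succ, Fin.tail, mul_comm]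
      rw [← mulVec_mulVec, e1] at hv
      have e2 : g₁ y *ᵥ ξ y = 0 := by rw [hact]; exact sub_self _
      have e3 : g₁ y *ᵥ (v 0 • ξ y + w y *ᵥ Fin.tail v) = 0 := by rw [hact, hv]; simp
      rw [mulVec_add, mulVec_smul, e2, smul_zero, zero_add, mulVec_mulVec] at e3
      have e4 := hinj y _ e3
      rw [e4, mulVec_zero, add_zero, mulVec_smul, smul_eq_zero] at hv
      have e5 : v 0 = 0 := hv.resolve_right (hne y)
      ext k
      refine Fin.cases e5 (fun k => congrFun e4 k) k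

end Pool.Agent.Work.MP_501a10_an
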