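import Pool.Agent.Work.MP_501a10_an.Defs
import Pool.Agent.Work.MP_501a10_an.Basics
import Pool.Agent.Work.MP_501a10_an.Limit
import Mathlib.Analysis.CStarAlgebra.ContinuousMap

/-!
Diagonal inductive systems of homogeneous algebras, their limits and matrix amplifications.
-/

open Filter Topology Matrix
open scoped Matrix.Norms.L2Operator

set_option linter.unusedSectionVars false

noncomputable section

namespace Pool.Agent.Work.MP_501a10_an

/-- Continuous matrix functions. -/
abbrev MF (Y I J : Type) [TopologicalSpace Y] : Type := C(Y, Matrix I J ℂ)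

section MF

variable {Y Y' I J K I' J' L : Type} [TopologicalSpace Y] [TopologicalSpace Y']

/-- Product of matrix functions. -/
def mmul [Fintype J] (F : MF Y I J) (G : MF Y J K) : MF Y I K :=
  ⟨fun y => F y * G y, F.2.matrix_mul G.2⟩

@[simp] theorem mmul_apply [Fintype J] (F : MF Y I J) (G : MF Y J K) (y : Y) :
    mmul F G y = F y * G y := rfl

/-- Adjoint of a matrix function. -/
def madj (F : MF Y I J) : MF Y J I := ⟨fun y => (F y)ᴴ, F.2.matrix_conjTranspose⟩

@[simp] theorem madj_apply (F : MF Y I J) (y : Y) : madj F y = (F y)ᴴ := rfl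

/-- Block diagonal sum of pull backs. -/
def gstep [DecidableEq L] (eI : I' ≃ I × L) (eJ : J' ≃ J × L) (lam : L → C(Y', Y))
    (F : MF Y I J) : MF Y' I' J' :=
  ⟨fun z => (blockDiagonal fun l => F (lam l z)).submatrix eI eJ,
    (Continuous.matrix_blockDiagonal (continuous_pi fun l => F.2.comp (lam l).2)).matrix_submatrix
      _ _⟩

theorem gstep_apply [DecidableEq L] (eI : I' ≃ I × L) (eJ : J' ≃ J × L) (lam : L → C(Y', Y))
    (F : MF Y I J) (z : Y') :
    gstep eI eJ lam F z = (blockDiagonal fun l => F (lam l z)).submatrix eI eJ := rfl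

theorem gstep_entry [DecidableEq L] (eI : I' ≃ I × L) (eJ : J' ≃ J × L) (lam : L → C(Y', Y))
    (F : MF Y I J) (z : Y') (a : I') (b : J') :
    gstep eI eJ lam F z a b
      = if (eI a).2 = (eJ b).2 then F (lam (eI a).2 z) (eI a).1 (eJ b).1 else 0 := rfl

/-- The diagonal map as a star algebra homomorphism. -/
def gstepHom [Fintype I] [DecidableEq I] [Fintype I'] [DecidableEq I'] [Fintype L]
    [DecidableEq L] (e : I' ≃ I × L) (lam : L → C(Y', Y)) : MF Y I I →⋆ₐ[ℂ] MF Y' I' I' where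
  toFun := gstep e e lam
  map_one' := by
    refine ContinuousMap.ext fun z => ?_
    rw [gstep_apply]
    exact (congrArg (fun M => Matrix.submatrix M e e) blockDiagonal_one).trans
      (submatrix_one_equiv e)
  map_mul' F G := by
    refine ContinuousMap.ext fun z => ?_
    simp only [gstep_apply, ContinuousMap.mul_apply, blockDiagonal_mul, submatrix_mul_equiv]
  map_zero' := by
    ext z a b
    simp [gstep_entry]
  map_add' F G := by
    ext z a b
    simp only [gstep_entry, ContinuousMap.add_apply, Matrix.add_apply]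
    split_ifs <;> simp
  commutes' c := by
    ext z a b
    simp only [gstep_entry, Algebra.algebraMap_eq_smul_one, ContinuousMap.smul_apply,
      ContinuousMap.one_apply, Matrix.smul_apply, Matrix.one_apply, ← e.injective.eq_iff,
      Prod.ext_iff]
    split_ifs <;> simp_all
  map_star' F := by
    refine ContinuousMap.ext fun z => ?_
    simp only [gstep_apply, ContinuousMap.star_apply, star_eq_conjTranspose,
      conjTranspose_submatrix, blockDiagonal_conjTranspose]

/-- The amplified index equivalence. -/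
def amp (N : Type) (e : I' ≃ I × L) : N × I' ≃ (N × I) × L :=
  ((Equiv.refl N).prodCongr e).trans (Equiv.prodAssoc _ _ _).symm

@[simp] theorem amp_apply (N : Type) (e : I' ≃ I × L) (a : N × I') :
    amp N e a = ((a.1, (e a.2).1), (e a.2).2) := rfl

/-- A block of an amplified matrix function. -/
def block {N N' : Type} (F : MF Y (N × I) (N' × J)) (i : N) (j : N') : MF Y I J :=
  ⟨fun y => (F y).submatrix (Prod.mk i) (Prod.mk j), F.2.matrix_submatrix _ _⟩

@[simp] theorem block_entry {N N' : Type} (F : MF Y (N × I) (N' × J)) (i : N) (j : N') (y : Y)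
    (a : I) (b : J) : block F i j y a b = F y (i, a) (j, b) := rfl

/-- The amplified matrix function with given blocks. -/
def unblock {N N' : Type} (f : N → N' → MF Y I J) : MF Y (N × I) (N' × J) :=
  ⟨fun y => Matrix.of fun a b => f a.1 b.1 y a.2 b.2,
    continuous_matrix fun a b => (f a.1 b.1).2.matrix_elem a.2 b.2⟩

theorem block_unblock {N N' : Type} (f : N → N' → MF Y I J) (i : N) (j : N') :
    block (unblock f) i j = f i j := rfl

/-- Scalar functions. -/
def sc (I : Type) [Fintype I] [DecidableEq I] : C(Y, ℂ) →⋆ₐ[ℂ] MF Y I I where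
  toFun g := ⟨fun y => g y • 1, g.2.smul continuous_const⟩
  map_one' := by ext; simp
  map_mul' f g := by
    refine ContinuousMap.ext fun y => ?_
    simp [smul_smul, mul_comm]
  map_zero' := by ext; simp
  map_add' f g := by
    refine ContinuousMap.ext fun y => ?_
    simp [add_smul]
  commutes' c := by
    refine ContinuousMap.ext fun y => ?_
    simp [Algebra.algebraMap_eq_smul_one]
  map_star' f := by
    refine ContinuousMap.ext fun y => ?_
    simp

@[simp] theorem sc_apply (I : Type) [Fintype I] [DecidableEq I] (g : C(Y, ℂ)) (y : Y) :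
    sc I g y = g y • (1 : Matrix I I ℂ) := rfl

/-- The trace divided by `k`. -/
def ntr [Fintype I] (k : ℕ) : MF Y I I →ₗ[ℂ] C(Y, ℂ) where
  toFun F := ⟨fun y => (k : ℂ)⁻¹ * (F y).trace, continuous_const.mul F.2.matrix_trace⟩
  map_add' F G := by ext; simp [mul_add]
  map_smul' c F := by ext; simp [mul_left_comm]

@[simp] theorem ntr_apply [Fintype I] (k : ℕ) (F : MF Y I I) (y : Y) :
    ntr k F y = (k : ℂ)⁻¹ * (F y).trace := rfl

theorem ntr_block {N : Type} [Fintype N] [Fintype I] (k : ℕ) (F : MF Y (N × I) (N × I)) :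
    ntr k F = ∑ i, ntr k (block F i i) := by
  ext y
  simp [Matrix.trace, Fintype.sum_prod_type, Finset.mul_sum]

/-- The average of the pull backs. -/
def avg [Fintype L] (lam : L → C(Y', Y)) : C(Y, ℂ) →ₗ[ℂ] C(Y', ℂ) where
  toFun g := (Fintype.card L : ℂ)⁻¹ • ∑ l, g.comp (lam l)
  map_add' f g := by ext; simp [Finset.sum_add_distrib, mul_add]
  map_smul' c f := by ext; simp [Finset.mul_sum, mul_left_comm]

theorem avg_apply [Fintype L] (lam : L → C(Y', Y)) (g : C(Y, ℂ)) (z : Y') :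
    avg lam g z = (Fintype.card L : ℂ)⁻¹ * ∑ l, g (lam l z) := by
  simp [avg]

theorem ntr_gstep [Fintype I] [Fintype I'] [Fintype L] [DecidableEq L] (e : I' ≃ I × L)
    (lam : L → C(Y', Y)) (k : ℕ) (F : MF Y I I) :
    ntr (k * Fintype.card L) (gstep e e lam F) = avg lam (ntr k F) := by
  ext z
  rw [ntr_apply, gstep_apply, avg_apply]
  have : ((blockDiagonal fun l => F (lam l z)).submatrix e e).trace
      = ∑ l, (F (lam l z)).trace := by
    rw [← trace_blockDiagonal]
    exact e.sum_comp fun a => blockDiagonal (fun l => F (lam l z)) a a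
  rw [this]
  simp only [ntr_apply, ← Finset.mul_sum]
  push_cast
  rw [mul_inv]
  ring

theorem entry_le_norm [Fintype I] [DecidableEq I] (M : Matrix I I ℂ) (a b : I) :
    ‖M a b‖ ≤ ‖M‖ := by
  have h := M.l2_opNorm_mulVec (EuclideanSpace.single b 1)
  have h2 := PiLp.norm_apply_le ((EuclideanSpace.equiv I ℂ).symm
    (M *ᵥ (EuclideanSpace.single b (1 : ℂ) : EuclideanSpace ℂ I))) a
  simp only [PiLp.norm_single, norm_one, mul_one] at h
  refine le_trans (le_of_eq ?_) (h2.trans h)
  simp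

theorem norm_ntr_le [CompactSpace Y] (k : ℕ) (F : MF Y (Fin k) (Fin k)) : ‖ntr k F‖ ≤ ‖F‖ := by
  refine (ContinuousMap.norm_le _ (norm_nonneg _)).2 fun y => ?_
  rw [ntr_apply, norm_mul, norm_inv, Complex.norm_natCast]
  have : ‖(F y).trace‖ ≤ k * ‖F‖ := by
    refine (norm_sum_le _ _).trans ?_
    refine (Finset.sum_le_card_nsmul _ _ ‖F‖ fun a _ => ?_).trans (by simp)
    exact (entry_le_norm (F y) a a).trans (F.norm_coe_le_norm y)
  rcases Nat.eq_zero_or_pos k with rfl | hk
  · simp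
  · rw [inv_mul_le_iff₀ (by positivity)]
    exact this

theorem norm_avg_le [CompactSpace Y] [CompactSpace Y'] [Fintype L] (lam : L → C(Y', Y))
    (g : C(Y, ℂ)) : ‖avg lam g‖ ≤ ‖g‖ := by
  refine (ContinuousMap.norm_le _ (norm_nonneg _)).2 fun z => ?_
  rw [avg_apply, norm_mul, norm_inv, Complex.norm_natCast]
  have : ‖∑ l, g (lam l z)‖ ≤ Fintype.card L * ‖g‖ := by
    refine (norm_sum_le _ _).trans ?_
    exact (Finset.sum_le_card_nsmul _ _ ‖g‖ fun l _ => g.norm_coe_le_norm _).trans (by simp)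
  rcases Nat.eq_zero_or_pos (Fintype.card L) with h | hk
  · simp [h]
  · rw [inv_mul_le_iff₀ (by positivity)]
    exact this

end MF

/-- A diagonal system over a sequence of spaces. -/
structure Sys (Z : ℕ → Type) [∀ n, TopologicalSpace (Z n)] : Type 1 where
  /-- The matrix sizes. -/
  k : ℕ → ℕ
  /-- The index sets of the eigenvalue maps. -/
  L : ℕ → Type
  [fL : ∀ n, Fintype (L n)]
  [dL : ∀ n, DecidableEq (L n)]
  /-- The index equivalences. -/
  e : ∀ n, Fin (k (n + 1)) ≃ Fin (k n) × L n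
  /-- The eigenvalue maps. -/
  lam : ∀ n, L n → C(Z (n + 1), Z n)
  kpos : ∀ n, 0 < k n
  surj : ∀ n z, ∃ l w, lam n l w = z

attribute [instance] Sys.fL Sys.dL

variable {Z : ℕ → Type} [∀ n, TopologicalSpace (Z n)]

namespace Sys

variable (S : Sys Z)

/-- The algebra at a stage. -/
abbrev St (n : ℕ) : Type := MF (Z n) (Fin (S.k n)) (Fin (S.k n))

/-- Amplified rectangular matrix functions at a stage. -/
abbrev Am (n : ℕ) (N N' : Type) : Type := MF (Z n) (N × Fin (S.k n)) (N' × Fin (S.k n))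

/-- The connecting maps. -/
def φ (n : ℕ) : S.St n →⋆ₐ[ℂ] S.St (n + 1) := gstepHom (S.e n) (S.lam n)

/-- The amplified connecting maps. -/
def step (n : ℕ) {N N' : Type} (F : S.Am n N N') : S.Am (n + 1) N N' :=
  gstep (amp N (S.e n)) (amp N' (S.e n)) (S.lam n) F

theorem k_succ (n : ℕ) : S.k (n + 1) = S.k n * Fintype.card (S.L n) := by
  simpa using Fintype.card_congr (S.e n)

theorem φ_injective (n : ℕ) : Function.Injective (S.φ n) := by
  intro f g h
  ext z a b
  obtain ⟨l, w, rfl⟩ := S.surj n z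
  have := congrArg (fun F : S.St (n + 1) => F w ((S.e n).symm (a, l)) ((S.e n).symm (b, l))) h
  simpa [φ, gstepHom, gstep_entry] using this

theorem block_step (n : ℕ) {N N' : Type} (F : S.Am n N N') (i : N) (j : N') :
    block (S.step n F) i j = S.φ n (block F i j) := rfl

theorem ntr_φ (n : ℕ) (f : S.St n) :
    ntr (S.k (n + 1)) (S.φ n f) = avg (S.lam n) (ntr (S.k n) f) := by
  rw [← ntr_gstep (S.e n), ← S.k_succ]
  rfl

theorem ntr_step (n : ℕ) {N : Type} [Fintype N] (F : S.Am n N N) :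
    ntr (S.k (n + 1)) (S.step n F) = avg (S.lam n) (ntr (S.k n) F) := by
  rw [← ntr_gstep (amp N (S.e n)), ← S.k_succ]
  rfl

theorem ntr_sc (n : ℕ) (g : C(Z n, ℂ)) : ntr (S.k n) (sc (Fin (S.k n)) g) = g := by
  ext z
  have : (S.k n : ℂ) ≠ 0 := by exact_mod_cast (S.kpos n).ne'
  simp only [ntr_apply, sc_apply, trace_smul, trace_one, Fintype.card_fin, smul_eq_mul]
  field_simp

end Sys

variable [∀ n, CompactSpace (Z n)]

/-- A limit of a diagonal system. -/
structure Lim (S : Sys Z) (A : Type) [CStarAlgebra A] where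
  /-- The canonical maps. -/
  ψ : ∀ n, S.St n →⋆ₐ[ℂ] A
  inj : ∀ n, Function.Injective (ψ n)
  compat : ∀ n f, ψ (n + 1) (S.φ n f) = ψ n f
  dense : Dense (⋃ n, Set.range (ψ n))

theorem Sys.exists_lim (S : Sys Z) : ∃ A : CStar, Nonempty (Lim S A.carrier) := by
  obtain ⟨A, _, ψ, h1, h2, h3⟩ := exists_limit S.φ S.φ_injective
  exact ⟨@CStar.mk A _ (CStarAlgebra.spectralOrder A) (CStarAlgebra.spectralOrderedRing A),
    ⟨⟨ψ, h1, h2, h3⟩⟩⟩

namespace Lim

variable {S : Sys Z} {A : Type} [CStarAlgebra A] (Λ : Lim S A) {N N' N'' : Type}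

/-- The amplified canonical maps. -/
def Ψ (n : ℕ) (F : S.Am n N N') : Matrix N N' A := Matrix.of fun i j => Λ.ψ n (block F i j)

theorem Ψ_apply (n : ℕ) (F : S.Am n N N') (i : N) (j : N') :
    Λ.Ψ n F i j = Λ.ψ n (block F i j) := rfl

theorem Ψ_step (n : ℕ) (F : S.Am n N N') : Λ.Ψ (n + 1) (S.step n F) = Λ.Ψ n F := by
  ext i j
  rw [Ψ_apply, S.block_step, Λ.compat, Ψ_apply]

theorem Ψ_mul [Fintype N'] (n : ℕ) (F : S.Am n N N') (G : S.Am n N' N'') :
    Λ.Ψ n (mmul F G) = Λ.Ψ n F * Λ.Ψ n G := by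
  ext i j
  simp only [Ψ_apply, Matrix.mul_apply, ← map_mul, ← map_sum]
  congr 1
  ext z a b
  simp [Matrix.mul_apply, Fintype.sum_prod_type, Matrix.sum_apply]

theorem Ψ_adj (n : ℕ) (F : S.Am n N N') : Λ.Ψ n (madj F) = (Λ.Ψ n F)ᴴ := by
  ext i j
  simp only [Ψ_apply, conjTranspose_apply, ← map_star]
  rfl

theorem Ψ_add (n : ℕ) (F G : S.Am n N N') : Λ.Ψ n (F + G) = Λ.Ψ n F + Λ.Ψ n G := by
  ext i j
  simp only [Ψ_apply, Matrix.add_apply, ← map_add]
  rfl

theorem Ψ_injective (n : ℕ) : Function.Injective (Λ.Ψ n : S.Am n N N' → _) := by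
  intro F G h
  ext z ⟨i, a⟩ ⟨j, b⟩
  have := Λ.inj n (congrFun (congrFun h i) j)
  exact congrArg (fun f : S.St n => f z a b) this

/-- The amplified canonical maps as star algebra homomorphisms. -/
def ΨH (N : Type) [Fintype N] [DecidableEq N] (n : ℕ) :
    S.Am n N N →⋆ₐ[ℂ] CStarMatrix N N A where
  toFun F := CStarMatrix.ofMatrix (Λ.Ψ n F)
  map_one' := by
    ext i j
    simp only [CStarMatrix.ofMatrix_apply, Ψ_apply, CStarMatrix.one_apply]
    split_ifs with h
    · subst h
      rw [← map_one (Λ.ψ n)]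
      congr 1
      ext z a b
      simp [Matrix.one_apply]
    · rw [← map_zero (Λ.ψ n)]
      congr 1
      ext z a b
      simp [h]
  map_mul' F G := Λ.Ψ_mul n F G
  map_zero' := by
    ext i j
    exact map_zero (Λ.ψ n)
  map_add' F G := Λ.Ψ_add n F G
  commutes' c := by
    ext i j
    simp only [CStarMatrix.ofMatrix_apply, Ψ_apply, CStarMatrix.algebraMap_apply]
    split_ifs with h
    · subst h
      rw [← AlgHomClass.commutes (Λ.ψ n)]
      congr 1
      ext z a b
      simp [Algebra.algebraMap_eq_smul_one, Matrix.one_apply]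
    · rw [← map_zero (Λ.ψ n)]
      congr 1
      ext z a b
      simp [Algebra.algebraMap_eq_smul_one, h]
  map_star' F := Λ.Ψ_adj n F

theorem ΨH_apply [Fintype N] [DecidableEq N] (n : ℕ) (F : S.Am n N N) :
    Λ.ΨH N n F = CStarMatrix.ofMatrix (Λ.Ψ n F) := rfl

theorem ΨH_injective [Fintype N] [DecidableEq N] (n : ℕ) : Function.Injective (Λ.ΨH N n) :=
  Λ.Ψ_injective n

theorem ψ_lift {m m' : ℕ} (h : m ≤ m') (f : S.St m) : ∃ f', Λ.ψ m' f' = Λ.ψ m f := by
  induction m', h using Nat.le_induction with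
  | base => exact ⟨f, rfl⟩
  | succ k _ ih =>
    obtain ⟨f', hf⟩ := ih
    exact ⟨_, (Λ.compat k f').trans hf⟩

theorem Ψ_lift {m m' : ℕ} (h : m ≤ m') (F : S.Am m N N') : ∃ F', Λ.Ψ m' F' = Λ.Ψ m F := by
  induction m', h using Nat.le_induction with
  | base => exact ⟨F, rfl⟩
  | succ k _ ih =>
    obtain ⟨F', hF⟩ := ih
    exact ⟨_, (Λ.Ψ_step k F').trans hF⟩

theorem ψ_approx {x : A} {U : Set A} (hU : U ∈ 𝓝 x) : ∀ᶠ m in atTop, ∃ f, Λ.ψ m f ∈ U := by
  obtain ⟨y, hy, hy'⟩ := Λ.dense.inter_nhds_nonempty hU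
  obtain ⟨m, f, rfl⟩ := Set.mem_iUnion.1 hy
  filter_upwards [eventually_ge_atTop m] with m' hm
  obtain ⟨f', hf⟩ := Λ.ψ_lift hm f
  exact ⟨f', hf ▸ hy'⟩

theorem Ψ_approx [Finite N] [Finite N'] {x : Matrix N N' A} {U : Set (Matrix N N' A)}
    (hU : U ∈ 𝓝 x) : ∀ᶠ m in atTop, ∃ F, Λ.Ψ m F ∈ U := by
  have hU' : ∀ (x : N → N' → A) (U : Set (N → N' → A)), U ∈ 𝓝 x → ∃ I : Set N, I.Finite ∧
      ∃ t : N → Set (N' → A), (∀ i, t i ∈ 𝓝 (x i)) ∧ I.pi t ⊆ U := by
    intro x U hU
    rwa [nhds_pi, Filter.mem_pi] at hU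
  obtain ⟨I, -, t, ht, hI⟩ := hU' x U hU
  have : ∀ i, ∃ s : N' → Set A, (∀ j, s j ∈ 𝓝 (x i j)) ∧ Set.univ.pi s ⊆ t i := by
    intro i
    have := ht i
    rw [nhds_pi, Filter.mem_pi] at this
    obtain ⟨J, -, s, hs, hJ⟩ := this
    exact ⟨s, hs, fun y hy => hJ fun j _ => hy j trivial⟩
  choose s hs hst using this
  have := eventually_all.2 fun i => eventually_all.2 fun j => Λ.ψ_approx (hs i j)
  filter_upwards [this] with m hm
  choose f hf using hm
  exact ⟨unblock f, hI fun i _ => hst i fun j _ => hf i j⟩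

end Lim

end Pool.Agent.Work.MP_501a10_an
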