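import Pool.Agent.Work.MP_501a10_an.Sys
import Mathlib.Analysis.Normed.Module.WeakDual
import Mathlib.Analysis.Normed.Module.HahnBanach
import Mathlib.Analysis.Matrix.PosDef
import Mathlib.Analysis.SpecialFunctions.ContinuousFunctionalCalculus.Rpow.Basic

/-!
Tracial states on limits of diagonal systems.
-/

open Filter Topology Matrix
open scoped Matrix.Norms.L2Operator ComplexOrder

set_option linter.unusedSectionVars false

noncomputable section

namespace Pool.Agent.Work.MP_501a10_an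

section General

variable {A : Type} [CStarAlgebra A] [PartialOrder A] [StarOrderedRing A]

theorem Tr.nonneg (τ : Tr A) {x : A} (hx : 0 ≤ x) : 0 ≤ τ.1 x := by
  obtain ⟨s, rfl⟩ := CStarAlgebra.nonneg_iff_eq_star_mul_self.1 hx
  exact τ.2.2.1 s

theorem Tr.mono (τ : Tr A) {x y : A} (h : x ≤ y) : τ.1 x ≤ τ.1 y := by
  have := τ.nonneg (sub_nonneg.2 h)
  rwa [map_sub, sub_nonneg] at this

theorem Tr.map_real (τ : Tr A) (r : ℝ) : τ.1 (algebraMap ℝ A r) = r := by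
  have : algebraMap ℝ A r = (r : ℂ) • (1 : A) := by
    rw [Algebra.algebraMap_eq_smul_one, Complex.coe_smul]
  rw [this, map_smul, τ.2.1, smul_eq_mul, mul_one]

theorem Tr.norm_le_sa (τ : Tr A) {x : A} (hx : IsSelfAdjoint x) : ‖τ.1 x‖ ≤ ‖x‖ := by
  have h1 := τ.mono hx.le_algebraMap_norm_self
  have h2 := τ.mono hx.neg_algebraMap_norm_le_self
  rw [map_neg] at h2
  rw [τ.map_real] at h1 h2
  have e : τ.1 x = ((τ.1 x).re : ℂ) := by
    apply Complex.ext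
    · simp
    · simpa using h1.2
  rw [e, Complex.norm_real, Real.norm_eq_abs, abs_le]
  exact ⟨by simpa using h2.1, by simpa using h1.1⟩

theorem Tr.norm_le (τ : Tr A) (x : A) : ‖τ.1 x‖ ≤ 2 * ‖x‖ := by
  conv_lhs => rw [← realPart_add_I_smul_imaginaryPart x, map_add, map_smul]
  refine (norm_add_le _ _).trans ?_
  rw [norm_smul, Complex.norm_I, one_mul]
  have h1 := (τ.norm_le_sa (realPart x).2).trans (realPart.norm_le x)
  have h2 := (τ.norm_le_sa (imaginaryPart x).2).trans (imaginaryPart.norm_le x)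
  linarith

end General

/-- States on an algebra of continuous functions, with a crude norm bound. -/
structure IsState {Y : Type} [TopologicalSpace Y] [CompactSpace Y]
    (μ : C(Y, ℂ) →ₗ[ℂ] ℂ) : Prop where
  one : μ 1 = 1
  pos : ∀ g : C(Y, ℂ), (∀ y, 0 ≤ g y) → 0 ≤ μ g
  bound : ∀ g, ‖μ g‖ ≤ 2 * ‖g‖

/-- Evaluation at a point. -/
def evS {Y : Type} [TopologicalSpace Y] (y : Y) : C(Y, ℂ) →ₗ[ℂ] ℂ where
  toFun g := g y
  map_add' _ _ := rfl
  map_smul' _ _ := rfl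

theorem isState_evS {Y : Type} [TopologicalSpace Y] [CompactSpace Y] (y : Y) :
    IsState (evS y) :=
  ⟨rfl, fun _ h => h y, fun g => (g.norm_coe_le_norm y).trans (by linarith [norm_nonneg g])⟩

variable {Z : ℕ → Type} [∀ n, TopologicalSpace (Z n)] [∀ n, CompactSpace (Z n)]

namespace Lim

variable {S : Sys Z} {A : Type} [CStarAlgebra A] [PartialOrder A] [StarOrderedRing A]
  (Λ : Lim S A)

/-- The state on the centre of a stage induced by a trace. -/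
def mu (τ : Tr A) (n : ℕ) : C(Z n, ℂ) →ₗ[ℂ] ℂ where
  toFun g := τ.1 (Λ.ψ n (sc _ g))
  map_add' f g := by simp only [map_add]
  map_smul' c f := by simp only [map_smul, RingHom.id_apply]

theorem mu_apply (τ : Tr A) (n : ℕ) (g : C(Z n, ℂ)) : Λ.mu τ n g = τ.1 (Λ.ψ n (sc _ g)) := rfl

theorem trace_red (τ : Tr A) (n : ℕ) (f : S.St n) :
    τ.1 (Λ.ψ n f) = Λ.mu τ n (ntr (S.k n) f) := by
  have hk : (S.k n : ℂ) ≠ 0 := by exact_mod_cast (S.kpos n).ne'
  let E : Fin (S.k n) → Fin (S.k n) → S.St n := fun a b => .const _ (single a b 1)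
  have h1 : ∑ a, ∑ b, E a b * f * E b a = (S.k n : ℂ) • sc _ (ntr (S.k n) f) := by
    refine ContinuousMap.ext fun z => ?_
    simp only [ContinuousMap.sum_apply, ContinuousMap.mul_apply, E, ContinuousMap.const_apply,
      single_mul_mul_single, one_mul, mul_one, ContinuousMap.smul_apply, sc_apply, ntr_apply,
      smul_smul, mul_inv_cancel_left₀ hk]
    ext i j
    simp only [Matrix.sum_apply, single_apply, Matrix.smul_apply, one_apply, smul_eq_mul,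
      Matrix.trace, diag_apply]
    rw [Finset.sum_eq_single i]
    · split_ifs with h h' <;> simp_all
    · intro a _ ha
      simp [ha]
    · simp
  have h2 : ∀ a, ∑ b, E b a * E a b = 1 := by
    intro a
    refine ContinuousMap.ext fun z => ?_
    simp only [ContinuousMap.sum_apply, ContinuousMap.mul_apply, E, ContinuousMap.const_apply,
      single_mul_single_same, mul_one, ContinuousMap.one_apply]
    exact sum_single_one
  have h3 : ∀ a, τ.1 (Λ.ψ n (∑ b, E a b * f * E b a)) = τ.1 (Λ.ψ n f) := by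
    intro a
    conv_rhs => rw [← mul_one f, ← h2 a, Finset.mul_sum]
    simp only [map_sum, map_mul]
    refine Finset.sum_congr rfl fun b _ => ?_
    rw [mul_assoc, τ.2.2.2, mul_assoc]
  have h4 := congrArg (fun x => τ.1 (Λ.ψ n x)) h1
  simp only [map_smul] at h4
  rw [map_sum, map_sum] at h4
  simp only [h3, Finset.sum_const, Finset.card_univ, Fintype.card_fin, nsmul_eq_mul,
    smul_eq_mul] at h4
  exact mul_left_cancel₀ hk h4

theorem mu_compat (τ : Tr A) (n : ℕ) (g : C(Z n, ℂ)) :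
    Λ.mu τ (n + 1) (avg (S.lam n) g) = Λ.mu τ n g := by
  rw [mu_apply Λ τ n, ← Λ.compat, Λ.trace_red, S.ntr_φ, S.ntr_sc]

theorem trace_Ψ {N : Type} [Fintype N] (n : ℕ) (F : S.Am n N N) :
    (Λ.Ψ n F).trace = Λ.ψ n (∑ i, block F i i) := by
  rw [map_sum]; rfl

theorem tr_Ψ {N : Type} [Fintype N] (τ : Tr A) (n : ℕ) (F : S.Am n N N) :
    τ.1 (Λ.Ψ n F).trace = Λ.mu τ n (ntr (S.k n) F) := by
  rw [trace_Ψ, trace_red, map_sum, ← ntr_block]

theorem isState_mu (τ : Tr A) (n : ℕ) : IsState (Λ.mu τ n) := by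
  refine ⟨by rw [mu_apply, map_one, map_one, τ.2.1], fun g hg => ?_, fun g => ?_⟩
  · let s : C(Z n, ℂ) := ⟨fun z => (√(g z).re : ℝ), by fun_prop⟩
    have : g = star s * s := by
      ext z
      have h := hg z
      simp only [s, ContinuousMap.mul_apply, ContinuousMap.star_apply, ContinuousMap.coe_mk,
        RCLike.star_def, Complex.conj_ofReal, ← Complex.ofReal_mul]
      rw [Real.mul_self_sqrt (by simpa using h.1)]
      exact Complex.ext rfl (by simpa using h.2.symm)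
    rw [this, mu_apply, map_mul, map_mul, map_star, map_star]
    exact τ.2.2.1 _
  · refine (τ.norm_le _).trans ?_
    have := (NonUnitalStarAlgHom.norm_apply_le (Λ.ψ n) _).trans
      (NonUnitalStarAlgHom.norm_apply_le (sc (Fin (S.k n))) g)
    linarith

theorem exists_trace (μ : ∀ m, C(Z m, ℂ) →ₗ[ℂ] ℂ) (hμ : ∀ m, IsState (μ m)) (U : Ultrafilter ℕ)
    (hU : (U : Filter ℕ) ≤ atTop) :
    ∃ (σ : Tr A) (ω : ℕ → A → ℂ), (∀ m f, ω m (Λ.ψ m f) = μ m (ntr (S.k m) f)) ∧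
      ∀ x, Tendsto (fun m => ω m x) U (𝓝 (σ.1 x)) := by
  have hext : ∀ m, ∃ ω : StrongDual ℂ A, ‖ω‖ ≤ 2 ∧
      ∀ f, ω (Λ.ψ m f) = μ m (ntr (S.k m) f) := by
    intro m
    let j : S.St m →ₗᵢ[ℂ] A :=
      { toLinearMap := (Λ.ψ m : S.St m →ₗ[ℂ] A)
        norm_map' := NonUnitalStarAlgHom.norm_map (Λ.ψ m) (Λ.inj m) }
    let t : S.St m →L[ℂ] ℂ := ((μ m).comp (ntr (S.k m))).mkContinuous 2 fun f =>
      ((hμ m).bound _).trans (by have := norm_ntr_le _ f; linarith)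
    have ht : ‖t‖ ≤ 2 := LinearMap.mkContinuous_norm_le _ zero_le_two _
    obtain ⟨ω, h1, h2⟩ := exists_extension_norm_eq (LinearMap.range j.toLinearMap)
      (t.comp (j.equivRange.symm : LinearMap.range j.toLinearMap →L[ℂ] S.St m))
    refine ⟨ω, ?_, fun f => ?_⟩
    · rw [h2]
      refine ContinuousLinearMap.opNorm_le_bound _ zero_le_two fun x => ?_
      refine (t.le_of_opNorm_le ht _).trans (le_of_eq ?_)
      simp
    · have := h1 (j.equivRange f)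
      simp only [ContinuousLinearMap.comp_apply] at this
      refine this.trans ?_
      change t (j.equivRange.symm (j.equivRange f)) = _
      rw [LinearIsometryEquiv.symm_apply_apply]
      rfl
  choose ω hn hω using hext
  obtain ⟨σ, -, hσ⟩ := (WeakDual.isCompact_closedBall (0 : StrongDual ℂ A) 2).ultrafilter_le_nhds
    (U.map fun m => StrongDual.toWeakDual (ω m)) (by
      rw [Ultrafilter.coe_map, le_principal_iff, Filter.mem_map]
      exact Filter.univ_mem' fun m => by simpa using hn m)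
  have hlim : ∀ x, Tendsto (fun m => ω m x) U (𝓝 (σ x)) := fun x =>
    ((WeakDual.eval_continuous x).tendsto σ).comp hσ
  have hcσ : Continuous σ := map_continuous σ
  have hd : DenseRange fun p : Σ n, S.St n => Λ.ψ p.1 p.2 := by
    refine Λ.dense.mono ?_
    intro x hx
    obtain ⟨n, f, rfl⟩ := Set.mem_iUnion.1 hx
    exact ⟨⟨n, f⟩, rfl⟩
  have hev : ∀ p : Σ n, S.St n, ∀ᶠ m in (U : Filter ℕ), ∃ f, Λ.ψ m f = Λ.ψ p.1 p.2 := fun p =>
    hU ((eventually_ge_atTop p.1).mono fun m hm => Λ.ψ_lift hm p.2)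
  refine ⟨⟨σ, ?_, fun a => ?_, fun a b => ?_⟩, fun m x => ω m x, hω, hlim⟩
  · refine tendsto_nhds_unique (hlim 1) (tendsto_const_nhds.congr fun m => ?_)
    rw [← map_one (Λ.ψ m), hω, ← map_one (sc (Fin (S.k m))), S.ntr_sc, (hμ m).one]
  · refine hd.induction_on a (isClosed_le continuous_const (by fun_prop)) fun p => ?_
    refine ge_of_tendsto (hlim _) ((hev p).mono ?_)
    rintro m ⟨f, hf⟩
    rw [← hf, ← map_star, ← map_mul, hω]
    refine (hμ m).pos _ fun z => ?_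
    rw [ntr_apply]
    refine mul_nonneg (inv_nonneg.2 (Nat.cast_nonneg _)) ?_
    exact (Matrix.posSemidef_conjTranspose_mul_self (f z)).trace_nonneg
  · refine hd.induction_on₂ (p := fun a b => σ (a * b) = σ (b * a))
      (isClosed_eq (by fun_prop) (by fun_prop)) (fun p q => ?_) a b
    refine tendsto_nhds_unique (hlim _) ((hlim _).congr' ?_)
    filter_upwards [hev p, hev q]
    rintro m ⟨f, hf⟩ ⟨g, hg⟩
    rw [← hf, ← hg, ← map_mul, ← map_mul, hω, hω]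
    congr 1
    ext z
    simp only [ntr_apply, ContinuousMap.mul_apply]
    rw [trace_mul_comm]

/-- A lower bound valid for all traces holds pointwise at late stages, up to a small error. -/
theorem eventually_pointwise [∀ n, Nonempty (Z n)] {N : Type} [Fintype N] {n : ℕ}
    (F : S.Am n N N) {c η : ℝ} (hη : 0 < η)
    (h : ∀ σ : Tr A, c ≤ (σ.1 (Λ.Ψ n F).trace).re) :
    ∀ᶠ m in atTop, ∃ F' : S.Am m N N, Λ.Ψ m F' = Λ.Ψ n F ∧
      ∀ z, c - η ≤ (ntr (S.k m) F' z).re := by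
  by_contra hcon
  rw [Filter.not_eventually] at hcon
  have hfr := hcon.and_eventually (eventually_ge_atTop n)
  have hne : (atTop ⊓ 𝓟 {m | (¬∃ F' : S.Am m N N, Λ.Ψ m F' = Λ.Ψ n F ∧
      ∀ z, c - η ≤ (ntr (S.k m) F' z).re) ∧ n ≤ m}).NeBot := frequently_iff_neBot.1 hfr
  have hz : ∀ m, ∃ z : Z m, ((¬∃ F' : S.Am m N N, Λ.Ψ m F' = Λ.Ψ n F ∧
      ∀ z, c - η ≤ (ntr (S.k m) F' z).re) ∧ n ≤ m) →
      ∃ F' : S.Am m N N, Λ.Ψ m F' = Λ.Ψ n F ∧ (ntr (S.k m) F' z).re < c - η := by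
    intro m
    by_cases hm : (¬∃ F' : S.Am m N N, Λ.Ψ m F' = Λ.Ψ n F ∧
      ∀ z, c - η ≤ (ntr (S.k m) F' z).re) ∧ n ≤ m
    · obtain ⟨F', hF'⟩ := Λ.Ψ_lift hm.2 F
      have := hm.1
      push Not at this
      obtain ⟨z, hz⟩ := this F' hF'
      exact ⟨z, fun _ => ⟨F', hF', hz⟩⟩
    · exact ⟨Classical.arbitrary _, fun h => absurd h hm⟩
  choose z hz using hz
  have hle := @Ultrafilter.of_le _ _ hne
  obtain ⟨σ, ω, hω, hlim⟩ := Λ.exists_trace (fun m => evS (z m)) (fun m => isState_evS _)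
    _ (hle.trans inf_le_left)
  have h1 : (σ.1 (Λ.Ψ n F).trace).re ≤ c - η := by
    refine le_of_tendsto ((Complex.continuous_re.tendsto _).comp (hlim _)) ?_
    filter_upwards [(hle.trans inf_le_right) (mem_principal_self _)] with m hm
    obtain ⟨F', hF', hlt⟩ := hz m hm
    simp only [Function.comp]
    rw [← hF', trace_Ψ, hω, map_sum, ← ntr_block]
    exact hlt.le
  linarith [h σ]

end Lim

section Inter

variable {S S' : Sys Z} {A A' : Type} [CStarAlgebra A] [PartialOrder A] [StarOrderedRing A]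
  [CStarAlgebra A'] [PartialOrder A'] [StarOrderedRing A'] (Λ : Lim S A) (Λ' : Lim S' A')
  (Δ : ℕ → ℝ)

/-- Two traces on two limits correspond to each other. -/
def Rel (τ : Tr A) (σ : Tr A') : Prop := ∀ n g, ‖Λ'.mu σ n g - Λ.mu τ n g‖ ≤ Δ n * ‖g‖

variable {Λ Λ' Δ}

theorem Rel.symm {τ : Tr A} {σ : Tr A'} (h : Rel Λ Λ' Δ τ σ) : Rel Λ' Λ Δ σ τ :=
  fun n g => by rw [norm_sub_rev]; exact h n g

variable (Λ Λ')

theorem exists_rel (hΔ0 : ∀ n, 0 ≤ Δ n)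
    (hΔ : ∀ n g, 2 * ‖avg (S'.lam n) g - avg (S.lam n) g‖ ≤ (Δ n - Δ (n + 1)) * ‖g‖)
    (hmono : ∀ n, Δ (n + 1) ≤ Δ n) (τ : Tr A) : ∃ σ : Tr A', Rel Λ Λ' Δ τ σ := by
  obtain ⟨σ, ω, hω, hlim⟩ := Λ'.exists_trace (Λ.mu τ) (Λ.isState_mu τ) (hyperfilter ℕ)
    (Nat.hyperfilter_le_atTop)
  refine ⟨σ, fun n g => ?_⟩
  have key : ∀ m, n ≤ m → ∃ f : S'.St m, Λ'.ψ m f = Λ'.ψ n (sc _ g) ∧
      ‖ntr (S'.k m) f‖ ≤ ‖g‖ ∧
      ‖Λ.mu τ m (ntr (S'.k m) f) - Λ.mu τ n g‖ ≤ (Δ n - Δ m) * ‖g‖ := by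
    intro m hm
    induction m, hm using Nat.le_induction with
    | base => exact ⟨_, rfl, by rw [S'.ntr_sc], by simp [S'.ntr_sc]⟩
    | succ m _ ih =>
      obtain ⟨f, h1, h2, h3⟩ := ih
      refine ⟨S'.φ m f, (Λ'.compat m f).trans h1, ?_, ?_⟩
      · rw [S'.ntr_φ]; exact (norm_avg_le _ _).trans h2
      · rw [S'.ntr_φ]
        have h4 := ((Λ.isState_mu τ (m + 1)).bound _).trans (hΔ m (ntr (S'.k m) f))
        rw [map_sub, Λ.mu_compat] at h4
        have h5 := norm_sub_le_norm_sub_add_norm_sub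
          (Λ.mu τ (m + 1) (avg (S'.lam m) (ntr (S'.k m) f))) (Λ.mu τ m (ntr (S'.k m) f))
          (Λ.mu τ n g)
        have h6 := mul_le_mul_of_nonneg_left h2 (sub_nonneg.2 (hmono m))
        linarith
  refine le_of_tendsto ((hlim (Λ'.ψ n (sc _ g))).sub_const (Λ.mu τ n g)).norm ?_
  filter_upwards [Nat.hyperfilter_le_atTop (eventually_ge_atTop n)] with m hm
  obtain ⟨f, h1, -, h3⟩ := key m hm
  rw [← h1, hω]
  have := mul_nonneg (hΔ0 m) (norm_nonneg g)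
  linarith

theorem rel_approx (hΔ : Tendsto Δ atTop (𝓝 0)) (x : A') {ε : ℝ} (hε : 0 < ε) :
    ∃ y : A, ∀ τ σ, Rel Λ Λ' Δ τ σ → ‖σ.1 x - τ.1 y‖ ≤ ε := by
  have h1 := Λ'.ψ_approx (Metric.ball_mem_nhds x (lt_min one_pos (by positivity : 0 < ε / 4)))
  have h2 : ∀ᶠ m in atTop, |Δ m| * (‖x‖ + 1) < ε / 2 := by
    have : Tendsto (fun m => |Δ m| * (‖x‖ + 1)) atTop (𝓝 0) := by
      simpa using hΔ.abs.mul_const (‖x‖ + 1)
    exact this.eventually_lt_const (by positivity)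
  obtain ⟨m, ⟨f, hf⟩, hm⟩ := (h1.and h2).exists
  rw [mem_ball_iff_norm, lt_min_iff] at hf
  refine ⟨Λ.ψ m (sc _ (ntr (S'.k m) f)), fun τ σ h => ?_⟩
  have h3 := h m (ntr (S'.k m) f)
  rw [← Λ'.trace_red, Λ.mu_apply] at h3
  have h4 := σ.norm_le (x - Λ'.ψ m f)
  rw [map_sub, norm_sub_rev x] at h4
  have h5 : ‖ntr (S'.k m) f‖ ≤ ‖x‖ + 1 := by
    refine (norm_ntr_le _ f).trans ?_
    rw [← NonUnitalStarAlgHom.norm_map (Λ'.ψ m) (Λ'.inj m)]
    linarith [norm_le_insert' (Λ'.ψ m f) x, hf.1]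
  have h6 : Δ m * ‖ntr (S'.k m) f‖ ≤ |Δ m| * (‖x‖ + 1) :=
    mul_le_mul (le_abs_self _) h5 (norm_nonneg _) (abs_nonneg _)
  have h7 := norm_sub_le_norm_sub_add_norm_sub (σ.1 x) (σ.1 (Λ'.ψ m f))
    (τ.1 (Λ.ψ m (sc _ (ntr (S'.k m) f))))
  linarith [hf.2]

theorem rel_unique (hΔ : Tendsto Δ atTop (𝓝 0)) {τ : Tr A} {σ₁ σ₂ : Tr A'}
    (h₁ : Rel Λ Λ' Δ τ σ₁) (h₂ : Rel Λ Λ' Δ τ σ₂) : σ₁ = σ₂ := by
  refine Subtype.ext (DFunLike.ext _ _ fun x => ?_)
  rw [← sub_eq_zero, ← norm_le_zero_iff]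
  refine le_of_forall_pos_le_add fun ε hε => ?_
  obtain ⟨y, hy⟩ := rel_approx Λ Λ' hΔ x (half_pos hε)
  have := norm_sub_le_norm_sub_add_norm_sub (σ₁.1 x) (τ.1 y) (σ₂.1 x)
  rw [norm_sub_rev (τ.1 y)] at this
  linarith [hy τ σ₁ h₁, hy τ σ₂ h₂]

theorem rel_continuous (hΔ : Tendsto Δ atTop (𝓝 0)) (γ : Tr A → Tr A')
    (hγ : ∀ τ, Rel Λ Λ' Δ τ (γ τ)) : Continuous γ := by
  refine Continuous.subtype_mk (WeakDual.continuous_of_continuous_eval fun x => ?_) _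
  refine continuous_of_uniform_approx_of_continuous fun u hu => ?_
  obtain ⟨ε, hε, hu'⟩ := Metric.mem_uniformity_dist.1 hu
  obtain ⟨y, hy⟩ := rel_approx Λ Λ' hΔ x (half_pos hε)
  refine ⟨fun τ => τ.1 y, (WeakDual.eval_continuous y).comp continuous_subtype_val,
    fun τ => hu' ?_⟩
  rw [dist_eq_norm]
  exact (hy τ _ (hγ τ)).trans_lt (half_lt_self hε)

theorem exists_homeo (hΔ0 : ∀ n, 0 ≤ Δ n)
    (hΔ : ∀ n g, 2 * ‖avg (S'.lam n) g - avg (S.lam n) g‖ ≤ (Δ n - Δ (n + 1)) * ‖g‖)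
    (hmono : ∀ n, Δ (n + 1) ≤ Δ n) (hlim : Tendsto Δ atTop (𝓝 0)) :
    ∃ γ : Tr A ≃ₜ Tr A', (∀ τ, Rel Λ Λ' Δ τ (γ τ)) ∧
      ∀ (τ σ υ : Tr A) (t : ℝ), 0 ≤ t → t ≤ 1 →
        (∀ b, υ.1 b = t * τ.1 b + (1 - t) * σ.1 b) →
        ∀ a, (γ υ).1 a = t * (γ τ).1 a + (1 - t) * (γ σ).1 a := by
  choose γ hγ using exists_rel Λ Λ' hΔ0 hΔ hmono
  choose γ' hγ' using exists_rel Λ' Λ hΔ0 (fun n g => by rw [norm_sub_rev]; exact hΔ n g) hmono
  refine ⟨⟨⟨γ, γ', fun τ => rel_unique Λ' Λ hlim (hγ' _) (hγ τ).symm,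
    fun σ => rel_unique Λ Λ' hlim (hγ _) (hγ' σ).symm⟩, rel_continuous Λ Λ' hlim γ hγ,
    rel_continuous Λ' Λ hlim γ' hγ'⟩, hγ, fun τ σ υ t h0 h1 h a => ?_⟩
  change (γ υ).1 a = t * (γ τ).1 a + (1 - t) * (γ σ).1 a
  rw [← sub_eq_zero, ← norm_le_zero_iff]
  refine le_of_forall_pos_le_add fun ε hε => ?_
  obtain ⟨y, hy⟩ := rel_approx Λ Λ' hlim a (half_pos hε)
  have e : (γ υ).1 a - (t * (γ τ).1 a + (1 - t) * (γ σ).1 a)
      = ((γ υ).1 a - υ.1 y) - (t * ((γ τ).1 a - τ.1 y) + ((1 - t : ℝ) : ℂ) * ((γ σ).1 a - σ.1 y)) := by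
    rw [h y]; push_cast; ring
  rw [e]
  refine (norm_sub_le _ _).trans ((add_le_add le_rfl (norm_add_le _ _)).trans ?_)
  rw [norm_mul, norm_mul, Complex.norm_real, Complex.norm_real, Real.norm_of_nonneg h0,
    Real.norm_of_nonneg (sub_nonneg.2 h1)]
  have e1 := mul_le_mul_of_nonneg_left (hy τ _ (hγ τ)) h0
  have e2 := mul_le_mul_of_nonneg_left (hy σ _ (hγ σ)) (sub_nonneg.2 h1)
  linarith [hy υ _ (hγ υ)]

end Inter

end Pool.Agent.Work.MP_501a10_an
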