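import Pool.Agent.Work.MP_501a10_an.Lower
import Pool.Agent.Work.MP_501a10_an.Split
import Mathlib.Data.Matrix.ColumnRowPartitioned

/-!
The upper bound for the invariant, and the main theorem.
-/

open Filter Topology Matrix
open scoped Matrix.Norms.L2Operator ComplexOrder

set_option linter.unusedSectionVars false

noncomputable section

namespace Pool.Agent.Work.MP_501a10_an

theorem unit_of_ker {I J : Type} [Fintype I] [Fintype J] [DecidableEq J] (M : Matrix I J ℂ)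
    (P : Matrix J J ℂ) (h : ∀ v, M *ᵥ v = 0 → P *ᵥ v = 0 → v = 0) : IsUnit (Mᴴ * M + Pᴴ * P) := by
  rw [← fromCols_mul_fromRows, ← conjTranspose_fromRows_eq_fromCols_conjTranspose,
    ← mulVec_injective_iff_isUnit]
  refine (injective_iff_map_eq_zero (mulVecLin _)).2 fun v hv => ?_
  rw [mulVecLin_apply, conjTranspose_mul_self_mulVec_eq_zero, fromRows_mulVec] at hv
  exact h v (funext fun i => congrFun hv (.inl i)) (funext fun i => congrFun hv (.inr i))

/-- The coordinate projection onto a set of indices. -/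
def cp {J : Type} [DecidableEq J] (T : Finset J) : Matrix J J ℂ :=
  diagonal fun a => if a ∈ T then 1 else 0

theorem cp_proj {J : Type} [Fintype J] [DecidableEq J] (T : Finset J) :
    IsStarProjection (cp T) := by
  refine ⟨?_, ?_⟩
  · rw [IsIdempotentElem, cp, diagonal_mul_diagonal]
    congr 1
    ext a
    split_ifs <;> simp
  · rw [IsSelfAdjoint, star_eq_conjTranspose, cp, diagonal_conjTranspose]
    congr 1
    ext a
    simp only [Pi.star_apply]
    split_ifs <;> simp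

theorem cp_ker {J : Type} [Fintype J] [DecidableEq J] {T : Finset J} {v : J → ℂ}
    (h : cp T *ᵥ v = 0) {a : J} (ha : a ∈ T) : v a = 0 := by
  simpa [cp, mulVec_diagonal, ha] using congrFun h a

theorem exists_compl {ι I J : Type} [Fintype ι] [Fintype I] [Fintype J] [DecidableEq J] {j : ℕ}
    (h1 : Fintype.card ι ≤ j) (h2 : j ≤ Fintype.card J) (g : Cone ι → Matrix I I ℂ)
    (hg : Continuous g) (hr : ∀ y, j ≤ (g y).rank) :
    ∃ (W : Cone ι → Matrix I J ℂ) (T : Finset J), Continuous W ∧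
      T.card + j = Fintype.card J + Fintype.card ι ∧
      ∀ y v, (g y * W y) *ᵥ v = 0 → cp T *ᵥ v = 0 → v = 0 := by
  obtain ⟨i, rfl⟩ := Nat.exists_eq_add_of_le h1
  obtain ⟨w, hw, h⟩ := split (Cone.lowDim _ (Nat.lt_succ_self _)) i g hg hr
  obtain ⟨e⟩ : Nonempty (Fin i ↪ J) :=
    Function.Embedding.nonempty_of_card_le (by rw [Fintype.card_fin]; omega)
  refine ⟨fun y => w y * (1 : Matrix J J ℂ).submatrix e id, (Finset.univ.map e)ᶜ,
    hw.matrix_mul continuous_const, ?_, fun y v h3 h4 => funext fun a => ?_⟩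
  · rw [Finset.card_compl, Finset.card_map, Finset.card_univ, Fintype.card_fin]
    omega
  · by_cases ha : a ∈ Finset.univ.map e
    · obtain ⟨b, -, rfl⟩ := Finset.mem_map.1 ha
      rw [← Matrix.mul_assoc, ← mulVec_mulVec] at h3
      simpa [mulVec, dotProduct, one_apply] using congrFun (h y _ h3) b
    · exact cp_ker h4 (Finset.mem_compl.2 ha)

variable {A : Type} [CStarAlgebra A] [PartialOrder A] [StarOrderedRing A]

theorem le_of_near {a b : A} {η : ℝ} (h : ‖star a * a - star b * b‖ < η) :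
    1 - star a * a - (η : ℂ) • 1 ≤ 1 - star b * b ∧
      1 - star b * b - (η : ℂ) • 1 ≤ 1 - star a * a := by
  rw [Complex.coe_smul, ← Algebra.algebraMap_eq_smul_one]
  have hsa : IsSelfAdjoint (star a * a - star b * b) :=
    (IsSelfAdjoint.star_mul_self _).sub (IsSelfAdjoint.star_mul_self _)
  have h1 := hsa.le_algebraMap_norm_self.trans (algebraMap_mono A h.le)
  have h2 := (neg_le_neg (algebraMap_mono A h.le)).trans hsa.neg_algebraMap_norm_le_self
  constructor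
  · rw [← sub_nonneg] at h2 ⊢
    convert h2 using 1
    abel
  · rw [← sub_nonneg] at h1 ⊢
    convert h1 using 1
    abel

theorem unit_add {c e : A} (hc : 0 ≤ c) (hu : IsUnit c) (he : 0 ≤ e) : IsUnit (e + c) :=
  CStarAlgebra.isUnit_of_le c (le_add_of_nonneg_left he) ⟨hc, hu⟩

theorem trM_sub_real (τ : Tr A) (a : Matrix (Fin 3) (Fin 3) A) (η : ℝ) :
    trM τ (a - (η : ℂ) • 1) = trM τ a - 3 * η := by
  have : τ.1 (Matrix.trace (1 : Matrix (Fin 3) (Fin 3) A)) = 3 := by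
    simp only [Matrix.trace, diag_apply, one_apply_eq, map_sum, τ.2.1]
    simp
  rw [trM, trace_sub, trace_smul, map_sub, map_smul, this, trM]
  simp [mul_comm]

variable {θ : ℕ → ℕ} (Λ : Lim (sys θ) A)

theorem dominate {m : ℕ} {y : Matrix (Fin 3) (Fin 3) A} {s F : (sys θ).Am m (Fin 3) (Fin 3)}
    (hF : Λ.ΨH _ m F ≤ CStarMatrix.ofMatrix (1 - yᴴ * y)) (hs : star s = s)
    (hsF : s * F * s = s * s * (s * s)) {W : (sys θ).Am m (Fin 3) (Fin 1)}
    {Q : (sys θ).Am m (Fin 1) (Fin 1)} (hQ : IsStarProjection Q)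
    (h : ∀ z v, ((s * s) z * W z) *ᵥ v = 0 → Q z *ᵥ v = 0 → v = 0) :
    IsUnit ((Λ.Ψ m (mmul s W))ᴴ * (1 - yᴴ * y) * Λ.Ψ m (mmul s W) + Λ.Ψ m Q) := by
  obtain ⟨d, hd⟩ := exists_sq (sub_nonneg.2 hF)
  obtain ⟨d, rfl⟩ := CStarMatrix.ofMatrix.surjective d
  have hd' : 1 - yᴴ * y = dᴴ * d + Λ.Ψ m F := sub_eq_iff_eq_add.1 hd
  let c : (sys θ).Am m (Fin 1) (Fin 1) :=
    mmul (madj (mmul (s * s) W)) (mmul (s * s) W) + mmul (madj Q) Q
  have hc : IsUnit c := (ContinuousMap.isUnit_iff_forall_isUnit c).2 fun z =>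
    unit_of_ker _ _ (h z)
  have e1 : (Λ.Ψ m (mmul s W))ᴴ * Λ.Ψ m F * Λ.Ψ m (mmul s W) + Λ.Ψ m Q = Λ.Ψ m c := by
    clear * - A θ Λ m s W F Q c hs hsF hQ
    rw [← Λ.Ψ_adj, ← Λ.Ψ_mul, ← Λ.Ψ_mul, ← Λ.Ψ_add]
    congr 1
    refine ContinuousMap.ext fun z => ?_
    have h1 : (s z)ᴴ = s z := congrArg (fun F : (sys θ).Am m (Fin 3) (Fin 3) => F z) hs
    have h2 : s z * F z * s z = s z * s z * (s z * s z) :=
      congrArg (fun F : (sys θ).Am m (Fin 3) (Fin 3) => F z) hsF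
    have h3 : (Q z)ᴴ * Q z = Q z := by
      rw [show (Q z)ᴴ = Q z from (proj_iff.1 hQ z).isSelfAdjoint.star_eq,
        (proj_iff.1 hQ z).isIdempotentElem.eq]
    have h4 := congrArg (fun x => (W z)ᴴ * x * W z) h2
    simp only [c, ContinuousMap.add_apply, mmul_apply, madj_apply, ContinuousMap.mul_apply,
      conjTranspose_mul, h1, h3, Matrix.mul_assoc] at h4 ⊢
    rw [h4]
  have e2 : 0 ≤ Λ.ΨH _ m c := by
    have e3 : Λ.Ψ m c = (Λ.Ψ m (mmul (s * s) W))ᴴ * Λ.Ψ m (mmul (s * s) W)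
        + (Λ.Ψ m Q)ᴴ * Λ.Ψ m Q := by
      rw [← Λ.Ψ_adj, ← Λ.Ψ_mul, ← Λ.Ψ_adj, ← Λ.Ψ_mul, ← Λ.Ψ_add]
    rw [Λ.ΨH_apply, e3, ← CStarMatrix.of_add_of]
    exact add_nonneg (rect_nonneg _) (rect_nonneg _)
  have := unit_add e2 (hc.map (Λ.ΨH _ m)) (rect_nonneg (d * Λ.Ψ m (mmul s W)))
  rw [hd', Matrix.mul_add, Matrix.add_mul, add_assoc, e1]
  rw [conjTranspose_mul, Matrix.mul_assoc, ← Matrix.mul_assoc dᴴ, ← Matrix.mul_assoc] at this
  exact this

include Λ in
theorem mem_RR {t t' : ℝ} (h : ∀ᶠ m in atTop, (SS m false : ℝ) / kk θ m ≤ t') (ht : t' < t)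
    (ht1 : t ≤ 1) : t ∈ RR A := by
  obtain ⟨τ, hτ⟩ := Λ.exists_nu bb (hv_sys θ) false
  refine ⟨τ, fun y hy => ?_⟩
  set η := (t - t') / 8 with hη
  have hη0 : 0 < η := by linarith
  obtain ⟨n, Y₀, hY₀⟩ := (Λ.Ψ_approx ((isOpen_near (continuous_id.matrix_conjTranspose.matrix_mul
    continuous_id) (CStarMatrix.ofMatrix (yᴴ * y)) η).mem_nhds (x := y)
    ((norm_eq_zero.2 (sub_self _)).trans_lt hη0))).exists
  obtain ⟨k1, k2⟩ := le_of_near (a := CStarMatrix.ofMatrix (Λ.Ψ n Y₀))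
    (b := CStarMatrix.ofMatrix y) hY₀
  have e0 : ∀ m (Y : (sys θ).Am m (Fin 3) (Fin 3)), Λ.ΨH _ m (1 - star Y * Y)
      = 1 - star (Λ.ΨH _ m Y) * Λ.ΨH _ m Y := fun m Y => by
    rw [map_sub, map_one, map_mul, map_star]
  have h1 := Λ.eventually_pointwise (1 - star Y₀ * Y₀) (c := 1 - 3 * η) hη0 fun σ => by
    have k3 : trM σ (1 - yᴴ * y - (η : ℂ) • 1) ≤ _ := trM_mono σ k2
    rw [trM_sub_real] at k3
    have k4 : trM σ (Λ.Ψ n (1 - star Y₀ * Y₀)) = _ := congrArg (trM σ) (e0 n Y₀)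
    exact le_trans (by linarith [hy σ]) (k3.trans k4.ge)
  have h2 : ∀ᶠ m : ℕ in atTop, 1 / ((m : ℝ) + 1) < η :=
    (tendsto_one_div_add_atTop_nhds_zero_nat (𝕜 := ℝ)).eventually_lt_const hη0
  obtain ⟨m, ⟨⟨F, hF, hF'⟩, hm⟩, hρ, hmη⟩ := ((h1.and (eventually_ge_atTop n)).and (h.and h2)).exists
  obtain ⟨Y, hY⟩ := Λ.Ψ_lift hm Y₀
  obtain rfl : F = 1 - star Y * Y := Λ.ΨH_injective m (by
    rw [e0, Λ.ΨH_apply, hF, ← Λ.ΨH_apply, e0, Λ.ΨH_apply, Λ.ΨH_apply, hY])
  obtain ⟨s, r, hs, hr, h3, h4, h5⟩ := sr_decomp Y hη0.le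
  have hk : (0 : ℝ) < kk θ m := Nat.cast_pos.2 (kk_pos θ m)
  have hrank : ∀ z, ⌈(1 - 7 * η) * kk θ m⌉₊ ≤ ((s * s) z).rank := by
    clear * - m θ s hs h5 Y η r hr h3 hF' hk t t'
    intro z
    have a1 : ((s * s) z).IsHermitian := by
      have : star (s * s) = s * s := by rw [star_mul, hs]
      exact congrArg (fun F : (sys θ).Am m (Fin 3) (Fin 3) => F z) this
    have a2 := trace_le_rank a1 (((s * s).norm_coe_le_norm z).trans h5)
    have a3 : (s * s) z = (1 - star Y * Y) z - (η : ℂ) • 1 + (r z)ᴴ * r z := by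
      have : s * s = 1 - star Y * Y - (η : ℂ) • 1 + star r * r := by
        rw [hr, ← sub_eq_iff_eq_add, h3]
      exact congrArg (fun F : (sys θ).Am m (Fin 3) (Fin 3) => F z) this
    have a4 := (posSemidef_conjTranspose_mul_self (r z)).trace_nonneg.1
    have a5 := hF' z
    rw [ntr_apply, ← Complex.ofReal_natCast, ← Complex.ofReal_inv, Complex.re_ofReal_mul] at a5
    have a6 := (le_inv_mul_iff₀ hk).1 a5
    rw [a3, trace_add, trace_sub, trace_smul, trace_one, Complex.add_re, Complex.sub_re,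
      smul_eq_mul, Complex.re_ofReal_mul, ← a3] at a2
    simp only [Fintype.card_prod, Fintype.card_fin, Complex.natCast_re, Complex.zero_re] at a2 a4
    rw [Nat.ceil_le]
    change _ - η * ((3 * kk θ m : ℕ) : ℝ) + _ ≤ _ at a2
    rw [Nat.cast_mul, Nat.cast_ofNat] at a2
    linarith
  have hj := Nat.le_ceil ((1 - 7 * η) * kk θ m)
  have hS := (div_le_iff₀ hk).1 hρ
  have hW : ∀ β, ∃ (W : Cone (Fin (SS m β)) →
      Matrix (Fin 3 × Fin ((sys θ).k m)) (Fin 1 × Fin ((sys θ).k m)) ℂ)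
      (T : Finset (Fin 1 × Fin ((sys θ).k m))), Continuous W ∧
      (T.card : ℝ) / kk θ m ≤ (if β then 1 else 7 * η + t') ∧
      ∀ y v, ((s * s) ⟨β, y⟩ * W y) *ᵥ v = 0 → cp T *ᵥ v = 0 → v = 0 := by
    clear * - m θ η t' s t hj hS ht ht1 hη hrank hk y
    intro β
    cases β
    · obtain ⟨W, T, b1, b2, b3⟩ := exists_compl (J := Fin 1 × Fin ((sys θ).k m))
        (j := ⌈(1 - 7 * η) * kk θ m⌉₊) (by
          rw [Fintype.card_fin, ← Nat.cast_le (α := ℝ)]
          nlinarith) (by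
          rw [Fintype.card_prod, Fintype.card_fin, Fintype.card_fin, one_mul, Nat.ceil_le]
          change _ ≤ (kk θ m : ℝ)
          nlinarith) (fun y => (s * s) ⟨false, y⟩) ((s * s).2.comp continuous_sigmaMk)
        fun y => hrank _
      refine ⟨W, T, b1, ?_, b3⟩
      simp only [Fintype.card_prod, Fintype.card_fin, one_mul] at b2
      have b4 : (T.card : ℝ) + ⌈(1 - 7 * η) * kk θ m⌉₊ = kk θ m + SS m false := by
        exact_mod_cast b2
      rw [if_neg Bool.false_ne_true, div_le_iff₀ hk]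
      linarith
    · refine ⟨0, Finset.univ, continuous_const, ?_,
        fun y v _ hv => funext fun a => cp_ker hv (Finset.mem_univ a)⟩
      simp only [Finset.card_univ, Fintype.card_prod, Fintype.card_fin, one_mul, if_true]
      exact (div_self hk.ne').le
  choose W T w1 w2 w3 using hW
  have hQ : IsStarProjection (bb.cst m fun β => cp (T β)) := proj_iff.2 fun z => cp_proj _
  refine ⟨_, _, hQ.map (Λ.ΨH _ m), ?_, dominate Λ (F := s * s - r * r) ?_ hs ?_
    (W := ⟨fun z => W z.1 z.2, continuous_sigma w1⟩) hQ fun z => w3 z.1 z.2⟩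
  · have c1 := Λ.trM_cst bb (hv_sys θ) τ m (fun β => cp (T β)) (fun β => (T β).card)
      fun β => by clear * - θ m T β; simp [cp]
    refine c1.le.trans ?_
    have c2 := w2 true
    have c3 := w2 false
    simp only [if_true, Bool.false_eq_true, if_false] at c2 c3 hτ
    have c4 : ((m : ℝ) + 1) / (m + 2) ≤ 1 := (div_le_one (by positivity)).2 (by clear * - m; linarith)
    have c5 : 1 - η ≤ ((m : ℝ) + 1) / (m + 2) := by
      clear * - m η t t' hmη
      have : (1 : ℝ) / (m + 2) ≤ 1 / (m + 1) := by gcongr; norm_num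
      have e : ((m : ℝ) + 1) / (m + 2) = 1 - 1 / (m + 2) := by field_simp; ring
      linarith
    have c6 : (0 : ℝ) ≤ (T false).card / kk θ m := by clear * - θ m T hk; positivity
    change (((T true).card : ℝ) / kk θ m + (T false).card / kk θ m) / 2
      + (((T true).card : ℝ) / kk θ m - (T false).card / kk θ m) / 2 * _ * _ ≤ t
    rw [hτ]
    clear * - θ m T t η t' hη hη0 c3 ht c5 c6 ht1 c4 c2
    nlinarith
  · rw [h3, map_sub, e0, map_smul, map_one, Λ.ΨH_apply, hY]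
    exact k1
  · rw [mul_sub, sub_mul, ← mul_assoc s r, h4, zero_mul, zero_mul, sub_zero]
    simp only [mul_assoc]

end Pool.Agent.Work.MP_501a10_an
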